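import Mathlib

open MeasureTheory Set Filter Topology

namespace H53.Br

/-- The odd polynomial nonlinearity `g(v) = ∑_{j=1}^N c_j v^{2j-1}`. -/
noncomputable def gg (N : ℕ) (c : ℕ → ℝ) (v : ℝ) : ℝ :=
  ∑ j ∈ Finset.Icc 1 N, c j * v ^ (2 * j - 1)

/-- Its primitive `G(v) = ∑_{j=1}^N c_j/(2j) v^{2j}`. -/
noncomputable def GG (N : ℕ) (c : ℕ → ℝ) (v : ℝ) : ℝ :=
  ∑ j ∈ Finset.Icc 1 N, c j / (2 * j) * v ^ (2 * j)

/-- the partial derivative in the first variable `x` -/
noncomputable def dx (u : ℝ → ℝ → ℝ) (x t : ℝ) : ℝ := deriv (fun y => u y t) x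

/-- the partial derivative in the second variable `t` -/
noncomputable def dt (u : ℝ → ℝ → ℝ) (x t : ℝ) : ℝ := deriv (fun s => u x s) t

/-- `IsBreather N c T u`: the function `u` belongs to the set `B(T)` of the problem file, for the
equation `u_tt = u_xx - g(u)`. -/
structure IsBreather (N : ℕ) (c : ℕ → ℝ) (T : ℝ) (u : ℝ → ℝ → ℝ) : Prop where
  smooth : ContDiff ℝ 2 (fun p : ℝ × ℝ => u p.1 p.2)
  wave : ∀ x t, dt (dt u) x t = dx (dx u) x t - gg N c (u x t)
  periodic : ∀ x t, u x (t + T) = u x t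
  zero : ∀ x, u x 0 = 0
  decay : ∀ m : ℕ, m ≤ 2 → ∀ w ∈ ({u, dx u, dt u, dx (dx u), dt (dx u)} : Set (ℝ → ℝ → ℝ)),
    ∃ C, ∀ x, ∀ t ∈ Set.Icc 0 T, |x| ^ m * |w x t| ≤ C

/-- Working form: a function of class `C²` with its partial derivatives. -/
structure IsW (u ux ut uxx uxt utt : ℝ → ℝ → ℝ) : Prop where
  cu : Continuous fun p : ℝ × ℝ => u p.1 p.2
  cux : Continuous fun p : ℝ × ℝ => ux p.1 p.2
  cut : Continuous fun p : ℝ × ℝ => ut p.1 p.2
  cuxx : Continuous fun p : ℝ × ℝ => uxx p.1 p.2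
  cuxt : Continuous fun p : ℝ × ℝ => uxt p.1 p.2
  cutt : Continuous fun p : ℝ × ℝ => utt p.1 p.2
  hx : ∀ x t, HasDerivAt (fun y => u y t) (ux x t) x
  ht : ∀ x t, HasDerivAt (fun s => u x s) (ut x t) t
  hxx : ∀ x t, HasDerivAt (fun y => ux y t) (uxx x t) x
  hxt : ∀ x t, HasDerivAt (fun s => ux x s) (uxt x t) t
  htx : ∀ x t, HasDerivAt (fun y => ut y t) (uxt x t) x
  htt : ∀ x t, HasDerivAt (fun s => ut x s) (utt x t) t

lemma partial_x {f : ℝ × ℝ → ℝ} (hf : Differentiable ℝ f) (x t : ℝ) :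
    HasDerivAt (fun y => f (y, t)) (fderiv ℝ f (x, t) (1, 0)) x := by
  have h1 : HasFDerivAt f (fderiv ℝ f (x, t)) (x, t) := (hf (x, t)).hasFDerivAt
  have h2 : HasDerivAt (fun y : ℝ => ((y, t) : ℝ × ℝ)) ((1, 0) : ℝ × ℝ) x :=
    (hasDerivAt_id x).prodMk (hasDerivAt_const x t)
  exact h1.comp_hasDerivAt x h2

lemma partial_t {f : ℝ × ℝ → ℝ} (hf : Differentiable ℝ f) (x t : ℝ) :
    HasDerivAt (fun s => f (x, s)) (fderiv ℝ f (x, t) (0, 1)) t := by
  have h1 : HasFDerivAt f (fderiv ℝ f (x, t)) (x, t) := (hf (x, t)).hasFDerivAt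
  have h2 : HasDerivAt (fun s : ℝ => ((x, s) : ℝ × ℝ)) ((0, 1) : ℝ × ℝ) t :=
    (hasDerivAt_const t x).prodMk (hasDerivAt_id t)
  exact h1.comp_hasDerivAt t h2

/-- a `C²` function has the working form, with the partial derivatives `dx`, `dt` -/
lemma isW_of_contDiff {u : ℝ → ℝ → ℝ} (hu : ContDiff ℝ 2 (fun p : ℝ × ℝ => u p.1 p.2)) :
    IsW u (dx u) (dt u) (dx (dx u)) (dt (dx u)) (dt (dt u)) := by
  set f : ℝ × ℝ → ℝ := fun p => u p.1 p.2 with hf
  have hfd : Differentiable ℝ f := hu.differentiable (by norm_num)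
  have h1 : ContDiff ℝ 1 (fderiv ℝ f) := hu.fderiv_right (by norm_num)
  have hX1 : ContDiff ℝ 1 (fun p => fderiv ℝ f p (1, 0)) := h1.clm_apply contDiff_const
  have hT1 : ContDiff ℝ 1 (fun p => fderiv ℝ f p (0, 1)) := h1.clm_apply contDiff_const
  have edx : ∀ x t, dx u x t = fderiv ℝ f (x, t) (1, 0) := fun x t => (partial_x hfd x t).deriv
  have edt : ∀ x t, dt u x t = fderiv ℝ f (x, t) (0, 1) := fun x t => (partial_t hfd x t).deriv
  have hXd : Differentiable ℝ (fun p => fderiv ℝ f p (1, 0)) := hX1.differentiable (by norm_num)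
  have hTd : Differentiable ℝ (fun p => fderiv ℝ f p (0, 1)) := hT1.differentiable (by norm_num)
  have fX : (fun p : ℝ × ℝ => dx u p.1 p.2) = fun p => fderiv ℝ f p (1, 0) := by
    funext p; exact edx p.1 p.2
  have fT : (fun p : ℝ × ℝ => dt u p.1 p.2) = fun p => fderiv ℝ f p (0, 1) := by
    funext p; exact edt p.1 p.2
  have hXd' : Differentiable ℝ (fun p : ℝ × ℝ => dx u p.1 p.2) := by rw [fX]; exact hXd
  have hTd' : Differentiable ℝ (fun p : ℝ × ℝ => dt u p.1 p.2) := by rw [fT]; exact hTd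
  have cX : Continuous (fderiv ℝ (fun p : ℝ × ℝ => dx u p.1 p.2)) := by
    rw [fX]; exact hX1.continuous_fderiv (by norm_num)
  have cT : Continuous (fderiv ℝ (fun p : ℝ × ℝ => dt u p.1 p.2)) := by
    rw [fT]; exact hT1.continuous_fderiv (by norm_num)
  have exx : ∀ x t, dx (dx u) x t = fderiv ℝ (fun p : ℝ × ℝ => dx u p.1 p.2) (x, t) (1, 0) :=
    fun x t => (partial_x hXd' x t).deriv
  have ext : ∀ x t, dt (dx u) x t = fderiv ℝ (fun p : ℝ × ℝ => dx u p.1 p.2) (x, t) (0, 1) :=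
    fun x t => (partial_t hXd' x t).deriv
  have ett : ∀ x t, dt (dt u) x t = fderiv ℝ (fun p : ℝ × ℝ => dt u p.1 p.2) (x, t) (0, 1) :=
    fun x t => (partial_t hTd' x t).deriv
  have sym : ∀ p : ℝ × ℝ, fderiv ℝ (fun p : ℝ × ℝ => dt u p.1 p.2) p (1, 0)
      = fderiv ℝ (fun p : ℝ × ℝ => dx u p.1 p.2) p (0, 1) := by
    intro p
    have hs : IsSymmSndFDerivAt ℝ f p := by
      apply hu.contDiffAt.isSymmSndFDerivAt
      simp
    have hd1 : DifferentiableAt ℝ (fderiv ℝ f) p := (h1.differentiable (by norm_num)) p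
    have a1 : fderiv ℝ (fun p => fderiv ℝ f p (1, 0)) p (0, 1)
        = fderiv ℝ (fderiv ℝ f) p (0, 1) (1, 0) := by
      rw [fderiv_clm_apply hd1 (differentiableAt_const _)]
      simp
    have a2 : fderiv ℝ (fun p => fderiv ℝ f p (0, 1)) p (1, 0)
        = fderiv ℝ (fderiv ℝ f) p (1, 0) (0, 1) := by
      rw [fderiv_clm_apply hd1 (differentiableAt_const _)]
      simp
    rw [fX, fT, a1, a2]
    exact hs _ _
  refine ⟨hu.continuous, ?_, ?_, ?_, ?_, ?_, ?_, ?_, ?_, ?_, ?_, ?_⟩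
  · exact hXd'.continuous
  · exact hTd'.continuous
  · have : (fun p : ℝ × ℝ => dx (dx u) p.1 p.2)
        = fun p => fderiv ℝ (fun p : ℝ × ℝ => dx u p.1 p.2) p (1, 0) := by
      funext p; exact exx p.1 p.2
    rw [this]; exact cX.clm_apply continuous_const
  · have : (fun p : ℝ × ℝ => dt (dx u) p.1 p.2)
        = fun p => fderiv ℝ (fun p : ℝ × ℝ => dx u p.1 p.2) p (0, 1) := by
      funext p; exact ext p.1 p.2
    rw [this]; exact cX.clm_apply continuous_const
  · have : (fun p : ℝ × ℝ => dt (dt u) p.1 p.2)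
        = fun p => fderiv ℝ (fun p : ℝ × ℝ => dt u p.1 p.2) p (0, 1) := by
      funext p; exact ett p.1 p.2
    rw [this]; exact cT.clm_apply continuous_const
  · intro x t; rw [edx]; exact partial_x hfd x t
  · intro x t; rw [edt]; exact partial_t hfd x t
  · intro x t; rw [exx]; exact partial_x hXd' x t
  · intro x t; rw [ext]; exact partial_t hXd' x t
  · intro x t; rw [ext, ← sym]; exact partial_x hTd' x t
  · intro x t; rw [ett]; exact partial_t hTd' x t

/-- the `x`-sections of a jointly continuous function -/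
lemma cont_x {f : ℝ → ℝ → ℝ} (cf : Continuous fun p : ℝ × ℝ => f p.1 p.2) (t : ℝ) :
    Continuous fun x => f x t := cf.comp (by fun_prop : Continuous fun x : ℝ => ((x, t) : ℝ × ℝ))

lemma cont_t {f : ℝ → ℝ → ℝ} (cf : Continuous fun p : ℝ × ℝ => f p.1 p.2) (x : ℝ) :
    Continuous fun t => f x t := cf.comp (by fun_prop : Continuous fun t : ℝ => ((x, t) : ℝ × ℝ))

lemma ii_t {f : ℝ → ℝ → ℝ} (cf : Continuous fun p : ℝ × ℝ => f p.1 p.2) (x a b : ℝ) :
    IntervalIntegrable (fun t => f x t) volume a b := (cont_t cf x).intervalIntegrable a b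

/-- differentiation under the integral sign -/
lemma hasDerivAt_param {f f' : ℝ → ℝ → ℝ} (cf : Continuous fun p : ℝ × ℝ => f p.1 p.2)
    (cf' : Continuous fun p : ℝ × ℝ => f' p.1 p.2)
    (h : ∀ x t, HasDerivAt (fun y => f y t) (f' x t) x) (a b x : ℝ) :
    HasDerivAt (fun y => ∫ t in a..b, f y t) (∫ t in a..b, f' x t) x := by
  have hK : IsCompact (Metric.closedBall x 1 ×ˢ uIcc a b) :=
    (isCompact_closedBall x 1).prod isCompact_uIcc
  obtain ⟨C, hC⟩ := (hK.image cf').isBounded.exists_norm_le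
  have := intervalIntegral.hasDerivAt_integral_of_dominated_loc_of_deriv_le
    (μ := volume) (F := f) (F' := f') (x₀ := x) (s := Metric.ball x 1) (a := a) (b := b)
    (bound := fun _ => C) (Metric.ball_mem_nhds x one_pos)
    (Eventually.of_forall fun y => (cont_t cf y).aestronglyMeasurable)
    (ii_t cf x a b) ((cont_t cf' x).aestronglyMeasurable)
    (Eventually.of_forall fun t ht y hy => hC _ ⟨(y, t), ⟨Metric.ball_subset_closedBall hy,
      uIoc_subset_uIcc ht⟩, rfl⟩)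
    (by simp)
    (Eventually.of_forall fun t ht y hy => h y t)
  exact this.2

/-- the integral of a derivative vanishes when the end values agree -/
lemma int_deriv_zero {f f' : ℝ → ℝ} (hf : ∀ t, HasDerivAt f (f' t) t) (cf' : Continuous f')
    {a b : ℝ} (h : f a = f b) : ∫ t in a..b, f' t = 0 := by
  rw [intervalIntegral.integral_eq_sub_of_hasDerivAt (fun t _ => hf t)
    (cf'.intervalIntegrable a b), h, sub_self]

/-- Cauchy-Schwarz on an interval -/
lemma cs {f g : ℝ → ℝ} (hf : Continuous f) (hg : Continuous g) {a b : ℝ} (hab : a ≤ b) :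
    (∫ t in a..b, f t * g t) ^ 2 ≤ (∫ t in a..b, f t ^ 2) * ∫ t in a..b, g t ^ 2 := by
  have key : ∀ s : ℝ, 0 ≤ (∫ t in a..b, f t ^ 2) * (s * s) + (2 * ∫ t in a..b, f t * g t) * s
      + ∫ t in a..b, g t ^ 2 := by
    intro s
    have h1 : 0 ≤ ∫ t in a..b, (f t * s + g t) ^ 2 :=
      intervalIntegral.integral_nonneg hab fun t _ => sq_nonneg _
    have h2 : ∫ t in a..b, (f t * s + g t) ^ 2 = (∫ t in a..b, f t ^ 2) * (s * s)
        + (2 * ∫ t in a..b, f t * g t) * s + ∫ t in a..b, g t ^ 2 := by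
      have e : (fun t => (f t * s + g t) ^ 2)
          = fun t => f t ^ 2 * (s * s) + (f t * g t) * (2 * s) + g t ^ 2 := by
        funext t; ring
      rw [e, intervalIntegral.integral_add, intervalIntegral.integral_add,
        intervalIntegral.integral_mul_const, intervalIntegral.integral_mul_const]
      · ring
      all_goals exact Continuous.intervalIntegrable (by fun_prop) _ _
    rw [← h2]; exact h1
  have := discrim_le_zero key
  unfold discrim at this
  nlinarith [this]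

end H53.Br
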