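import Mathlib

open MeasureTheory Set Filter Topology

namespace H53.Br

/-- a function with nonpositive derivative on `[X, ∞)` is at least its limit -/
lemma lim_le_of_deriv_nonpos {h h' : ℝ → ℝ} {X l : ℝ} (hd : ∀ x, X ≤ x → HasDerivAt h (h' x) x)
    (h0 : ∀ x, X ≤ x → h' x ≤ 0) (hl : Tendsto h atTop (𝓝 l)) : ∀ x, X ≤ x → l ≤ h x := by
  have anti : AntitoneOn h (Ici X) := by
    apply antitoneOn_of_deriv_nonpos (convex_Ici X)
    · exact fun x hx => (hd x hx).continuousAt.continuousWithinAt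
    · intro x hx
      rw [interior_Ici] at hx
      exact (hd x (le_of_lt hx)).differentiableAt.differentiableWithinAt
    · intro x hx
      rw [interior_Ici] at hx
      rw [(hd x (le_of_lt hx)).deriv]
      exact h0 x (le_of_lt hx)
  intro x hx
  apply le_of_tendsto hl
  filter_upwards [eventually_ge_atTop x] with y hy
  exact anti hx (le_trans hx hy) hy

lemma le_lim_of_deriv_nonneg {h h' : ℝ → ℝ} {X l : ℝ} (hd : ∀ x, X ≤ x → HasDerivAt h (h' x) x)
    (h0 : ∀ x, X ≤ x → 0 ≤ h' x) (hl : Tendsto h atTop (𝓝 l)) : ∀ x, X ≤ x → h x ≤ l := by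
  intro x hx
  have := lim_le_of_deriv_nonpos (h := fun x => - h x) (h' := fun x => - h' x)
    (fun x hx => (hd x hx).neg) (fun x hx => by linarith [h0 x hx]) hl.neg x hx
  linarith

lemma le_init_of_deriv_nonpos {h h' : ℝ → ℝ} {X : ℝ} (hd : ∀ x, X ≤ x → HasDerivAt h (h' x) x)
    (h0 : ∀ x, X ≤ x → h' x ≤ 0) : ∀ x, X ≤ x → h x ≤ h X := by
  have anti : AntitoneOn h (Ici X) := by
    apply antitoneOn_of_deriv_nonpos (convex_Ici X)
    · exact fun x hx => (hd x hx).continuousAt.continuousWithinAt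
    · intro x hx
      rw [interior_Ici] at hx
      exact (hd x (le_of_lt hx)).differentiableAt.differentiableWithinAt
    · intro x hx
      rw [interior_Ici] at hx
      rw [(hd x (le_of_lt hx)).deriv]
      exact h0 x (le_of_lt hx)
  intro x hx
  exact anti (le_refl X) hx hx

lemma tendsto_div_pow_zero (a : ℝ) {n : ℕ} (hn : n ≠ 0) :
    Tendsto (fun x : ℝ => a / x ^ n) atTop (𝓝 0) := by
  exact tendsto_const_nhds.div_atTop (tendsto_pow_atTop hn)

/-- one integration from infinity -/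
lemma first_order {F F' : ℝ → ℝ} {X δ : ℝ} (hX : 0 < X)
    (hd : ∀ x, X ≤ x → HasDerivAt F (F' x) x)
    (h0 : ∀ x, X ≤ x → - (δ / x ^ 4) ≤ F' x) (hl : Tendsto F atTop (𝓝 0)) :
    ∀ x, X ≤ x → F x ≤ δ / (3 * x ^ 3) := by
  intro x hx
  have h1 : ∀ y, X ≤ y → HasDerivAt (fun y => F y - (δ / 3) * (y ^ 3)⁻¹)
      (F' y + δ / y ^ 4) y := by
    intro y hy
    have hy0 : y ≠ 0 := by linarith [lt_of_lt_of_le hX hy] |> fun h : 0 < y => h.ne'
    have a := ((hasDerivAt_pow 3 y).inv (pow_ne_zero 3 hy0)).const_mul (δ / 3)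
    refine ((hd y hy).fun_sub a).congr_deriv ?_
    field_simp
    ring
  have h2 : Tendsto (fun y => F y - (δ / 3) * (y ^ 3)⁻¹) atTop (𝓝 0) := by
    have := tendsto_div_pow_zero (δ / 3) (n := 3) (by norm_num)
    simpa [div_eq_mul_inv] using hl.sub this
  have h3 := le_lim_of_deriv_nonneg h1 (fun y hy => by linarith [h0 y hy]) h2 x hx
  have hx0 : x ≠ 0 := by linarith [lt_of_lt_of_le hX hx] |> fun h : 0 < x => h.ne'
  have : δ / (3 * x ^ 3) = (δ / 3) * (x ^ 3)⁻¹ := by field_simp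
  rw [this]; linarith

/-- double integration from infinity (one-sided) -/
lemma second_order {f f1 f2 : ℝ → ℝ} {X δ : ℝ} (hX : 0 < X)
    (hd : ∀ x, X ≤ x → HasDerivAt f (f1 x) x) (hd1 : ∀ x, X ≤ x → HasDerivAt f1 (f2 x) x)
    (h0 : ∀ x, X ≤ x → f2 x ≤ δ / x ^ 4) (hl : Tendsto f atTop (𝓝 0))
    (hl1 : Tendsto f1 atTop (𝓝 0)) :
    ∀ x, X ≤ x → f x ≤ δ / (6 * x ^ 2) := by
  have h1 : ∀ x, X ≤ x → - f1 x ≤ δ / (3 * x ^ 3) :=
    first_order (F := fun x => - f1 x) (F' := fun x => - f2 x) hX (fun x hx => (hd1 x hx).neg)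
      (fun x hx => by linarith [h0 x hx]) (by simpa using hl1.neg)
  intro x hx
  have h2 : ∀ y, X ≤ y → HasDerivAt (fun y => f y - (δ / 6) * (y ^ 2)⁻¹)
      (f1 y + δ / (3 * y ^ 3)) y := by
    intro y hy
    have hy0 : y ≠ 0 := by linarith [lt_of_lt_of_le hX hy] |> fun h : 0 < y => h.ne'
    have a := ((hasDerivAt_pow 2 y).inv (pow_ne_zero 2 hy0)).const_mul (δ / 6)
    refine ((hd y hy).fun_sub a).congr_deriv ?_
    field_simp
    ring
  have h3 : Tendsto (fun y => f y - (δ / 6) * (y ^ 2)⁻¹) atTop (𝓝 0) := by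
    have := tendsto_div_pow_zero (δ / 6) (n := 2) (by norm_num)
    simpa [div_eq_mul_inv] using hl.sub this
  have h4 := le_lim_of_deriv_nonneg h2 (fun y hy => by linarith [h1 y hy]) h3 x hx
  have hx0 : x ≠ 0 := by linarith [lt_of_lt_of_le hX hx] |> fun h : 0 < x => h.ne'
  have : δ / (6 * x ^ 2) = (δ / 6) * (x ^ 2)⁻¹ := by field_simp
  rw [this]; linarith

/-- the hyperbolic linear equation with a bounded right-hand side, one-sided bound -/
lemma hyperbolic_le {f f1 h : ℝ → ℝ} {X δ l : ℝ} (hl0 : 0 < l)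
    (hd : ∀ x, X ≤ x → HasDerivAt f (f1 x) x)
    (hd1 : ∀ x, X ≤ x → HasDerivAt f1 (l ^ 2 * f x + h x) x)
    (h0 : ∀ x, X ≤ x → |h x| ≤ δ) (hX : f X = 0) (hl : Tendsto f atTop (𝓝 0))
    (hl1 : Tendsto f1 atTop (𝓝 0)) :
    ∀ x, X ≤ x → f x ≤ δ / l ^ 2 := by
  have hδ : 0 ≤ δ := le_trans (abs_nonneg _) (h0 X le_rfl)
  have hexp0 : Tendsto (fun x => Real.exp (-(l * x))) atTop (𝓝 0) :=
    Real.tendsto_exp_neg_atTop_nhds_zero.comp (tendsto_id.const_mul_atTop hl0)
  -- `p = f1 + l f` satisfies `p ≤ δ / l`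
  have hp : ∀ x, X ≤ x → f1 x + l * f x ≤ δ / l := by
    have h1 : ∀ x, X ≤ x → HasDerivAt
        (fun x => Real.exp (-(l * x)) * (f1 x + l * f x - δ / l))
        (Real.exp (-(l * x)) * (h x + δ)) x := by
      intro x hx
      have e1 : HasDerivAt (fun x => Real.exp (-(l * x))) (Real.exp (-(l * x)) * (-(l * 1))) x :=
        (((hasDerivAt_id x).const_mul l).neg).exp
      have e2 := (((hd1 x hx).fun_add ((hd x hx).const_mul l)).sub_const (δ / l))
      refine (e1.fun_mul e2).congr_deriv ?_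
      field_simp
      ring
    have h2 : Tendsto (fun x => Real.exp (-(l * x)) * (f1 x + l * f x - δ / l)) atTop (𝓝 0) := by
      have := hexp0.mul ((hl1.add (hl.const_mul l)).sub_const (δ / l))
      simpa using this
    intro x hx
    have h3 := le_lim_of_deriv_nonneg h1 (fun x hx => mul_nonneg (Real.exp_pos _).le
      (by linarith [(abs_le.mp (h0 x hx)).1])) h2 x hx
    have := Real.exp_pos (-(l * x))
    by_contra hc
    push Not at hc
    have : 0 < Real.exp (-(l * x)) * (f1 x + l * f x - δ / l) := by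
      apply mul_pos this; linarith
    linarith
  have h4 : ∀ x, X ≤ x → HasDerivAt (fun x => Real.exp (l * x) * (f x - δ / l ^ 2))
      (Real.exp (l * x) * (f1 x + l * f x - δ / l)) x := by
    intro x hx
    have e1 : HasDerivAt (fun x => Real.exp (l * x)) (Real.exp (l * x) * (l * 1)) x :=
      (((hasDerivAt_id x).const_mul l)).exp
    refine (e1.fun_mul ((hd x hx).sub_const (δ / l ^ 2))).congr_deriv ?_
    field_simp
    ring
  intro x hx
  have h5 := le_init_of_deriv_nonpos h4 (fun x hx => by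
    have := hp x hx
    have := Real.exp_pos (l * x)
    nlinarith) x hx
  rw [hX] at h5
  have h6 : Real.exp (l * X) * (0 - δ / l ^ 2) ≤ 0 := by
    have := Real.exp_pos (l * X)
    have : 0 ≤ δ / l ^ 2 := by positivity
    nlinarith
  by_contra hc
  push Not at hc
  have : 0 < Real.exp (l * x) * (f x - δ / l ^ 2) := by
    apply mul_pos (Real.exp_pos _); linarith
  linarith

lemma hyperbolic_abs {f f1 h : ℝ → ℝ} {X δ l : ℝ} (hl0 : 0 < l)
    (hd : ∀ x, X ≤ x → HasDerivAt f (f1 x) x)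
    (hd1 : ∀ x, X ≤ x → HasDerivAt f1 (l ^ 2 * f x + h x) x)
    (h0 : ∀ x, X ≤ x → |h x| ≤ δ) (hX : f X = 0) (hl : Tendsto f atTop (𝓝 0))
    (hl1 : Tendsto f1 atTop (𝓝 0)) :
    ∀ x, X ≤ x → |f x| ≤ δ / l ^ 2 := by
  intro x hx
  rw [abs_le]
  constructor
  · have := hyperbolic_le (f := fun x => - f x) (f1 := fun x => - f1 x) (h := fun x => - h x)
      hl0 (fun x hx => (hd x hx).neg) (fun x hx => by
        exact (hd1 x hx).fun_neg.congr_deriv (by ring)) (fun x hx => by rw [abs_neg]; exact h0 x hx)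
      (by simp [hX]) (by simpa using hl.neg) (by simpa using hl1.neg) x hx
    linarith
  · exact hyperbolic_le hl0 hd hd1 h0 hX hl hl1 x hx

/-- Gronwall, homogeneous, both directions -/
lemma gronwall_zero {e e' : ℝ → ℝ} {K x₀ : ℝ} (hd : ∀ x, HasDerivAt e (e' x) x)
    (h0 : ∀ x, |e' x| ≤ K * e x) (hn : ∀ x, 0 ≤ e x) (hx₀ : e x₀ = 0) : ∀ x, e x = 0 := by
  intro x
  refine le_antisymm ?_ (hn x)
  rcases le_total x₀ x with hx | hx
  · have h1 : ∀ y, x₀ ≤ y → HasDerivAt (fun y => Real.exp (-(K * y)) * e y)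
        (Real.exp (-(K * y)) * (e' y - K * e y)) y := by
      intro y _
      have e1 : HasDerivAt (fun x => Real.exp (-(K * x))) (Real.exp (-(K * y)) * (-(K * 1))) y :=
        (((hasDerivAt_id y).const_mul K).neg).exp
      refine (e1.fun_mul (hd y)).congr_deriv ?_
      ring
    have h2 := le_init_of_deriv_nonpos h1 (fun y _ => by
      have := (abs_le.mp (h0 y)).2
      have := Real.exp_pos (-(K * y))
      nlinarith) x hx
    rw [hx₀, mul_zero] at h2
    have := Real.exp_pos (-(K * x))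
    by_contra hc
    push Not at hc
    have := mul_pos this hc
    linarith
  · have h1 : ∀ y, -x₀ ≤ y → HasDerivAt (fun y => Real.exp (-(K * y)) * e (-y))
        (Real.exp (-(K * y)) * (-(e' (-y)) - K * e (-y))) y := by
      intro y _
      have e1 : HasDerivAt (fun x => Real.exp (-(K * x))) (Real.exp (-(K * y)) * (-(K * 1))) y :=
        (((hasDerivAt_id y).const_mul K).neg).exp
      have e2 : HasDerivAt (fun y => e (-y)) (e' (-y) * (-1)) y :=
        HasDerivAt.comp y (hd (-y)) (hasDerivAt_neg y)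
      refine (e1.fun_mul e2).congr_deriv ?_
      ring
    have h2 := le_init_of_deriv_nonpos h1 (fun y _ => by
      have := (abs_le.mp (h0 (-y))).1
      have := Real.exp_pos (-(K * y))
      nlinarith) (-x) (by linarith)
    simp only [neg_neg, hx₀, mul_zero] at h2
    have := Real.exp_pos (-(K * (-x)))
    by_contra hc
    push Not at hc
    have := mul_pos this hc
    linarith

/-- Gronwall with a constant forcing -/
lemma gronwall_forced {e e' : ℝ → ℝ} {K δ : ℝ} (hK : 0 < K) (hd : ∀ x, HasDerivAt e (e' x) x)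
    (h0 : ∀ x, 0 ≤ x → e' x ≤ δ + K * e x) (hx₀ : e 0 = 0) :
    ∀ x, 0 ≤ x → e x ≤ δ / K * (Real.exp (K * x) - 1) := by
  intro x hx
  have h1 : ∀ y, 0 ≤ y → HasDerivAt (fun y => Real.exp (-(K * y)) * (e y + δ / K))
      (Real.exp (-(K * y)) * (e' y - K * e y - δ)) y := by
    intro y _
    have e1 : HasDerivAt (fun x => Real.exp (-(K * x))) (Real.exp (-(K * y)) * (-(K * 1))) y :=
      (((hasDerivAt_id y).const_mul K).neg).exp
    refine (e1.fun_mul ((hd y).add_const (δ / K))).congr_deriv ?_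
    field_simp
    ring
  have h2 := le_init_of_deriv_nonpos h1 (fun y hy => by
    have := h0 y hy
    have := Real.exp_pos (-(K * y))
    nlinarith) x hx
  simp only [hx₀, mul_zero, neg_zero, Real.exp_zero, zero_add, one_mul] at h2
  have h3 : Real.exp (K * x) * (Real.exp (-(K * x)) * (e x + δ / K)) ≤ Real.exp (K * x) * (δ / K) :=
    mul_le_mul_of_nonneg_left h2 (Real.exp_pos _).le
  rw [← mul_assoc, ← Real.exp_add, add_neg_cancel, Real.exp_zero, one_mul] at h3
  linarith

end H53.Br
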