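import Mathlib
import Pool.Agent.H53.Br.Basic
import Pool.Agent.H53.Br.Lin

open MeasureTheory Set Filter Topology

namespace H53.Br

/-- a continuous nonnegative function with zero integral vanishes -/
lemma zero_of_int {f : ℝ → ℝ} (hf : Continuous f) (h0 : ∀ t, 0 ≤ f t) {a b : ℝ} (hab : a < b)
    (hi : ∫ t in a..b, f t ≤ 0) : ∀ t ∈ Icc a b, f t = 0 := by
  intro t ht
  by_contra hc
  have hpos : 0 < f t := lt_of_le_of_ne (h0 t) (Ne.symm hc)
  have := intervalIntegral.integral_pos hab hf.continuousOn (fun x _ => h0 x) ⟨t, ht, hpos⟩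
  linarith

variable {w wx wt wxx wxt wtt : ℝ → ℝ → ℝ}

/-- partial derivatives of a `T`-periodic function are periodic -/
lemma IsW.per_x (h : IsW w wx wt wxx wxt wtt) {T : ℝ} (hp : ∀ x t, w x (t + T) = w x t) :
    ∀ x t, wx x (t + T) = wx x t := by
  intro x t
  have h1 := h.hx x (t + T)
  have e : (fun y => w y (t + T)) = fun y => w y t := by funext y; exact hp y t
  rw [e] at h1
  exact h1.unique (h.hx x t)

lemma IsW.per_t (h : IsW w wx wt wxx wxt wtt) {T : ℝ} (hp : ∀ x t, w x (t + T) = w x t) :
    ∀ x t, wt x (t + T) = wt x t := by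
  intro x t
  have h1 := h.ht x (t + T)
  have h2 : HasDerivAt (fun s => w x (s + T)) (wt x (t + T)) t := by
    have := h1.comp t ((hasDerivAt_id t).add_const T)
    simpa [Function.comp_def] using this
  have e : (fun s => w x (s + T)) = fun s => w x s := by funext s; exact hp x s
  rw [e] at h2
  exact h2.unique (h.ht x t)

/-- a product rule in `t` for `w_x w_t` -/
lemma IsW.prod_t (h : IsW w wx wt wxx wxt wtt) (x t : ℝ) :
    HasDerivAt (fun s => wx x s * wt x s) (wxt x t * wt x t + wx x t * wtt x t) t :=
  (h.hxt x t).fun_mul (h.htt x t)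

lemma IsW.prod_x (h : IsW w wx wt wxx wxt wtt) (x t : ℝ) :
    HasDerivAt (fun y => wt y t * wx y t) (wxt x t * wx x t + wt x t * wxx x t) x :=
  (h.htx x t).fun_mul (h.hxx x t)

/-- **Uniqueness in the `x` direction** for time-periodic functions. -/
theorem uniq_x (h : IsW w wx wt wxx wxt wtt) {T K : ℝ} (hT : 0 < T) (hK0 : 0 ≤ K)
    (hp : ∀ x t, w x (t + T) = w x t) (hK : ∀ x t, |wxx x t - wtt x t| ≤ K * |w x t|) {x₀ : ℝ}
    (h0 : ∀ t, w x₀ t = 0) (h1 : ∀ t, wx x₀ t = 0) : ∀ x t, w x t = 0 := by
  have cw := h.cu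
  have cwx := h.cux
  have cwt := h.cut
  have cwxx := h.cuxx
  have cwxt := h.cuxt
  have cwtt := h.cutt
  set F : ℝ → ℝ → ℝ := fun x t => (wx x t ^ 2 + wt x t ^ 2 + w x t ^ 2) / 2 with hF
  set F' : ℝ → ℝ → ℝ := fun x t => wx x t * wxx x t + wt x t * wxt x t + w x t * wx x t with hF'
  have hd : ∀ x t, HasDerivAt (fun y => F y t) (F' x t) x := by
    intro x t
    have := ((((h.hxx x t).fun_pow 2).fun_add ((h.htx x t).fun_pow 2)).fun_add
      ((h.hx x t).fun_pow 2)).div_const 2
    refine this.congr_deriv ?_
    simp only [hF']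
    push_cast
    ring
  have cF : Continuous fun p : ℝ × ℝ => F p.1 p.2 := by
    simp only [hF]; fun_prop
  have cF' : Continuous fun p : ℝ × ℝ => F' p.1 p.2 := by
    simp only [hF']; fun_prop
  set e : ℝ → ℝ := fun x => ∫ t in (0 : ℝ)..T, F x t with he
  set e' : ℝ → ℝ := fun x => ∫ t in (0 : ℝ)..T, F' x t with he'
  have hde : ∀ x, HasDerivAt e (e' x) x := fun x => hasDerivAt_param cF cF' hd 0 T x
  have hper0 : ∀ x, wx x 0 * wt x 0 = wx x T * wt x T := by
    intro x
    have a := h.per_x hp x 0
    have b := h.per_t hp x 0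
    rw [zero_add] at a b
    rw [a, b]
  have he2 : ∀ x, e' x = ∫ t in (0 : ℝ)..T, wx x t * (wxx x t - wtt x t + w x t) := by
    intro x
    have z : ∫ t in (0 : ℝ)..T, (wxt x t * wt x t + wx x t * wtt x t) = 0 := by
      refine int_deriv_zero (f := fun s => wx x s * wt x s) (fun t => h.prod_t x t) ?_ (hper0 x)
      have := cont_t cwx x; have := cont_t cwt x; have := cont_t cwxt x; have := cont_t cwtt x
      fun_prop
    have i1 : IntervalIntegrable (fun t => wx x t * (wxx x t - wtt x t + w x t)) volume 0 T := by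
      have := cont_t cwx x; have := cont_t cwxx x; have := cont_t cwtt x; have := cont_t cw x
      exact Continuous.intervalIntegrable (by fun_prop) _ _
    have i2 : IntervalIntegrable (fun t => wxt x t * wt x t + wx x t * wtt x t) volume 0 T := by
      have := cont_t cwx x; have := cont_t cwt x; have := cont_t cwxt x; have := cont_t cwtt x
      exact Continuous.intervalIntegrable (by fun_prop) _ _
    have s := intervalIntegral.integral_add i1 i2
    rw [z, add_zero] at s
    rw [← s, he']
    refine intervalIntegral.integral_congr fun t _ => ?_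
    simp only [hF']
    ring
  have hFn : ∀ x t, 0 ≤ F x t := fun x t => by simp only [hF]; positivity
  have hen : ∀ x, 0 ≤ e x := fun x => intervalIntegral.integral_nonneg hT.le fun t _ => hFn x t
  have hb : ∀ x, |e' x| ≤ (K + 1) * e x := by
    intro x
    rw [he2, he]
    simp only
    rw [← intervalIntegral.integral_const_mul]
    have i0 : IntervalIntegrable (fun t => (K + 1) * F x t) volume 0 T :=
      ((cont_t cF x).const_mul (K + 1)).intervalIntegrable _ _ |> fun h => by simpa using h
    have i1 : IntervalIntegrable (fun t => wx x t * (wxx x t - wtt x t + w x t)) volume 0 T := by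
      have := cont_t cwx x; have := cont_t cwxx x; have := cont_t cwtt x; have := cont_t cw x
      exact Continuous.intervalIntegrable (by fun_prop) _ _
    refine (intervalIntegral.abs_integral_le_integral_abs hT.le).trans ?_
    refine intervalIntegral.integral_mono_on hT.le i1.abs i0 fun t _ => ?_
    have k1 : |wxx x t - wtt x t + w x t| ≤ (K + 1) * |w x t| := by
      refine (abs_add_le _ _).trans ?_
      have := hK x t
      linarith
    rw [abs_mul]
    simp only [hF]
    have k2 : |wx x t| * |w x t| ≤ (wx x t ^ 2 + w x t ^ 2) / 2 := by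
      have := sq_nonneg (|wx x t| - |w x t|)
      rw [sub_sq, sq_abs, sq_abs] at this
      linarith
    have k3 : |wx x t| * |wxx x t - wtt x t + w x t| ≤ |wx x t| * ((K + 1) * |w x t|) :=
      mul_le_mul_of_nonneg_left k1 (abs_nonneg _)
    have k4 : (K + 1) * (|wx x t| * |w x t|) ≤ (K + 1) * ((wx x t ^ 2 + w x t ^ 2) / 2) :=
      mul_le_mul_of_nonneg_left k2 (by linarith)
    have k5 : 0 ≤ (K + 1) * wt x t ^ 2 := by positivity
    nlinarith
  have he0 : e x₀ = 0 := by
    have : ∀ t, F x₀ t = 0 := by
      intro t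
      have h2 : wt x₀ t = 0 := by
        have e3 : (fun s => w x₀ s) = fun _ => 0 := by funext s; exact h0 s
        have h3 := h.ht x₀ t
        rw [e3] at h3
        exact h3.unique (hasDerivAt_const t 0)
      simp only [hF]
      rw [h0, h1, h2]; ring
    simp only [he]
    simp [this]
  have hz := gronwall_zero hde hb hen he0
  intro x t
  have h2 : ∀ s ∈ Icc 0 T, F x s = 0 := zero_of_int (cont_t cF x) (hFn x) hT (hz x).le
  have h3 : ∀ s ∈ Icc 0 T, w x s = 0 := by
    intro s hs
    have := h2 s hs
    simp only [hF] at this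
    have h4 : w x s ^ 2 = 0 := by
      nlinarith [sq_nonneg (wx x s), sq_nonneg (wt x s),
        sq_nonneg (w x s)]
    exact (pow_eq_zero_iff two_ne_zero).1 h4
  have hper : Function.Periodic (fun s => w x s) T := fun s => hp x s
  obtain ⟨y, hy, hy2⟩ := hper.exists_mem_Ico₀ hT t
  have := h3 y ⟨hy.1, hy.2.le⟩
  exact hy2.trans this

/-- **Uniqueness in the `t` direction** on the line, with vanishing flux at infinity. -/
theorem uniq_t (h : IsW w wx wt wxx wxt wtt) {K : ℝ} (hK0 : 0 ≤ K)
    (hK : ∀ x t, |wtt x t - wxx x t| ≤ K * |w x t|)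
    (h0 : ∀ x, w x 0 = 0) (h1 : ∀ x, wt x 0 = 0)
    (hflux : ∀ ε > 0, ∃ L₀ : ℝ, ∀ L ≥ L₀, ∀ t, |wt L t * wx L t| ≤ ε ∧ |wt (-L) t * wx (-L) t| ≤ ε) :
    ∀ x t, 0 ≤ t → w x t = 0 := by
  have cw := h.cu
  have cwx := h.cux
  have cwt := h.cut
  have cwxx := h.cuxx
  have cwxt := h.cuxt
  have cwtt := h.cutt
  have csw : Continuous (fun p : ℝ × ℝ => ((p.2, p.1) : ℝ × ℝ)) := by fun_prop
  have cw2 : Continuous fun p : ℝ × ℝ => w p.2 p.1 := cw.comp csw
  have cwx2 : Continuous fun p : ℝ × ℝ => wx p.2 p.1 := cwx.comp csw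
  have cwt2 : Continuous fun p : ℝ × ℝ => wt p.2 p.1 := cwt.comp csw
  have cwxx2 : Continuous fun p : ℝ × ℝ => wxx p.2 p.1 := cwxx.comp csw
  have cwxt2 : Continuous fun p : ℝ × ℝ => wxt p.2 p.1 := cwxt.comp csw
  have cwtt2 : Continuous fun p : ℝ × ℝ => wtt p.2 p.1 := cwtt.comp csw
  set F : ℝ → ℝ → ℝ := fun t x => (wt x t ^ 2 + wx x t ^ 2 + w x t ^ 2) / 2 with hF
  set F' : ℝ → ℝ → ℝ := fun t x => wt x t * wtt x t + wx x t * wxt x t + w x t * wt x t with hF'
  have hd : ∀ t x, HasDerivAt (fun s => F s x) (F' t x) t := by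
    intro t x
    have := ((((h.htt x t).fun_pow 2).fun_add ((h.hxt x t).fun_pow 2)).fun_add
      ((h.ht x t).fun_pow 2)).div_const 2
    refine this.congr_deriv ?_
    simp only [hF']
    push_cast
    ring
  have cF : Continuous fun p : ℝ × ℝ => F p.1 p.2 := by
    simp only [hF]; fun_prop
  have cF' : Continuous fun p : ℝ × ℝ => F' p.1 p.2 := by
    simp only [hF']; fun_prop
  have hFn : ∀ t x, 0 ≤ F t x := fun t x => by simp only [hF]; positivity
  -- the energy estimate on `[-L, L]`
  have key : ∀ L δ : ℝ, 0 ≤ L → (∀ t, |wt L t * wx L t| ≤ δ ∧ |wt (-L) t * wx (-L) t| ≤ δ) →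
      ∀ t, 0 ≤ t → (∫ x in (-L)..L, F t x) ≤ 2 * δ / (K + 1) * (Real.exp ((K + 1) * t) - 1) := by
    intro L δ hL hδ
    set e : ℝ → ℝ := fun t => ∫ x in (-L)..L, F t x with he
    set e' : ℝ → ℝ := fun t => ∫ x in (-L)..L, F' t x with he'
    have hde : ∀ t, HasDerivAt e (e' t) t := fun t => hasDerivAt_param cF cF' hd (-L) L t
    have hLL : -L ≤ L := by linarith
    have he2 : ∀ t, e' t = (wt L t * wx L t - wt (-L) t * wx (-L) t)
        + ∫ x in (-L)..L, wt x t * (wtt x t - wxx x t + w x t) := by
      intro t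
      have z : ∫ x in (-L)..L, (wxt x t * wx x t + wt x t * wxx x t)
          = wt L t * wx L t - wt (-L) t * wx (-L) t := by
        refine intervalIntegral.integral_eq_sub_of_hasDerivAt (f := fun y => wt y t * wx y t)
          (fun x _ => h.prod_x x t) ?_
        have := cont_x cwx t; have := cont_x cwt t; have := cont_x cwxt t
        have := cont_x cwxx t
        exact Continuous.intervalIntegrable (by fun_prop) _ _
      have i1 : IntervalIntegrable (fun x => wt x t * (wtt x t - wxx x t + w x t))
          volume (-L) L := by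
        have := cont_x cwt t; have := cont_x cwxx t; have := cont_x cwtt t; have := cont_x cw t
        exact Continuous.intervalIntegrable (by fun_prop) _ _
      have i2 : IntervalIntegrable (fun x => wxt x t * wx x t + wt x t * wxx x t)
          volume (-L) L := by
        have := cont_x cwx t; have := cont_x cwt t; have := cont_x cwxt t
        have := cont_x cwxx t
        exact Continuous.intervalIntegrable (by fun_prop) _ _
      have s := intervalIntegral.integral_add i2 i1
      rw [z] at s
      rw [← s, he']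
      refine intervalIntegral.integral_congr fun x _ => ?_
      simp only [hF']
      ring
    have hb : ∀ t, 0 ≤ t → e' t ≤ 2 * δ + (K + 1) * e t := by
      intro t _
      rw [he2, he]
      simp only
      have d1 := hδ t
      have d2 : wt L t * wx L t - wt (-L) t * wx (-L) t ≤ 2 * δ := by
        have a1 := (abs_le.1 d1.1).2
        have a2 := (abs_le.1 d1.2).1
        linarith
      have d3 : ∫ x in (-L)..L, wt x t * (wtt x t - wxx x t + w x t)
          ≤ (K + 1) * ∫ x in (-L)..L, F t x := by
        rw [← intervalIntegral.integral_const_mul]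
        have i0 : IntervalIntegrable (fun x => (K + 1) * F t x) volume (-L) L := by
          have := cont_t cF t
          exact Continuous.intervalIntegrable (by fun_prop) _ _
        have i1 : IntervalIntegrable (fun x => wt x t * (wtt x t - wxx x t + w x t))
            volume (-L) L := by
          have := cont_x cwt t; have := cont_x cwxx t; have := cont_x cwtt t
          have := cont_x cw t
          exact Continuous.intervalIntegrable (by fun_prop) _ _
        refine intervalIntegral.integral_mono_on hLL i1 i0 fun x _ => ?_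
        refine (le_abs_self _).trans ?_
        have k1 : |wtt x t - wxx x t + w x t| ≤ (K + 1) * |w x t| := by
          refine (abs_add_le _ _).trans ?_
          have := hK x t
          linarith
        rw [abs_mul]
        simp only [hF]
        have k2 : |wt x t| * |w x t| ≤ (wt x t ^ 2 + w x t ^ 2) / 2 := by
          have := sq_nonneg (|wt x t| - |w x t|)
          rw [sub_sq, sq_abs, sq_abs] at this
          linarith
        have k3 : |wt x t| * |wtt x t - wxx x t + w x t| ≤ |wt x t| * ((K + 1) * |w x t|) :=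
          mul_le_mul_of_nonneg_left k1 (abs_nonneg _)
        have k4 : (K + 1) * (|wt x t| * |w x t|) ≤ (K + 1) * ((wt x t ^ 2 + w x t ^ 2) / 2) :=
          mul_le_mul_of_nonneg_left k2 (by linarith)
        have k5 : 0 ≤ (K + 1) * wx x t ^ 2 := by positivity
        nlinarith
      linarith
    have he0 : e 0 = 0 := by
      have : ∀ x, F 0 x = 0 := by
        intro x
        have h2 : wx x 0 = 0 := by
          have e3 : (fun y => w y 0) = fun _ => 0 := by funext s; exact h0 s
          have h3 := h.hx x 0
          rw [e3] at h3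
          exact h3.unique (hasDerivAt_const x 0)
        simp only [hF]
        rw [h0, h1, h2]; ring
      simp only [he]
      simp [this]
    exact gronwall_forced (by linarith) hde hb he0
  intro x₁ t₁ ht₁
  set M : ℝ := |x₁| + 1 with hM
  have hM0 : 0 < M := by positivity
  have hle : ∫ x in (-M)..M, F t₁ x ≤ 0 := by
    apply le_of_forall_pos_le_add
    intro ε hε
    rw [zero_add]
    set c : ℝ := 2 / (K + 1) * (Real.exp ((K + 1) * t₁) - 1) with hc
    have hc0 : 0 ≤ c := by
      have : 1 ≤ Real.exp ((K + 1) * t₁) := Real.one_le_exp (by positivity)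
      have : 0 ≤ Real.exp ((K + 1) * t₁) - 1 := by linarith
      positivity
    obtain ⟨L₀, hL₀⟩ := hflux (ε / (c + 1)) (by positivity)
    set L : ℝ := max L₀ M with hL
    have hLM : M ≤ L := le_max_right _ _
    have k1 := key L (ε / (c + 1)) (by linarith) (hL₀ L (le_max_left _ _)) t₁ ht₁
    have k2 : ∫ x in (-M)..M, F t₁ x ≤ ∫ x in (-L)..L, F t₁ x := by
      refine intervalIntegral.integral_mono_interval (by linarith) (by linarith) hLM ?_ ?_
      · exact Eventually.of_forall fun x => hFn t₁ x
      · exact (cont_t cF t₁).intervalIntegrable _ _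
    have k3 : 2 * (ε / (c + 1)) / (K + 1) * (Real.exp ((K + 1) * t₁) - 1) = (ε / (c + 1)) * c := by
      rw [hc]; ring
    have k4 : (ε / (c + 1)) * c ≤ ε := by
      rw [div_mul_eq_mul_div, div_le_iff₀ (by linarith)]
      nlinarith
    linarith
  have hx₁ : x₁ ∈ Icc (-M) M := ⟨by linarith [neg_abs_le x₁], by linarith [le_abs_self x₁]⟩
  have h2 := zero_of_int (cont_t cF t₁) (hFn t₁) (by linarith) hle x₁ hx₁
  simp only [hF] at h2
  have h4 : w x₁ t₁ ^ 2 = 0 := by
    nlinarith [sq_nonneg (wx x₁ t₁), sq_nonneg (wt x₁ t₁),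
    sq_nonneg (w x₁ t₁)]
  exact (pow_eq_zero_iff two_ne_zero).1 h4

end H53.Br
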