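import Mathlib
import Pool.Agent.H53.Br.Uniq

open MeasureTheory Set Filter Topology

namespace H53.Br

variable {N : ℕ} {c : ℕ → ℝ} {T : ℝ} {u v : ℝ → ℝ → ℝ}

/-! ### The nonlinearity -/

lemma gg_zero (N : ℕ) (c : ℕ → ℝ) : gg N c 0 = 0 := by
  unfold gg
  refine Finset.sum_eq_zero fun j hj => ?_
  rw [Finset.mem_Icc] at hj
  rw [zero_pow (by omega), mul_zero]

lemma GG_zero (N : ℕ) (c : ℕ → ℝ) : GG N c 0 = 0 := by
  unfold GG
  refine Finset.sum_eq_zero fun j hj => ?_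
  rw [Finset.mem_Icc] at hj
  rw [zero_pow (by omega), mul_zero]

lemma gg_neg (N : ℕ) (c : ℕ → ℝ) (y : ℝ) : gg N c (-y) = - gg N c y := by
  unfold gg
  rw [← Finset.sum_neg_distrib]
  refine Finset.sum_congr rfl fun j hj => ?_
  rw [Finset.mem_Icc] at hj
  have : Odd (2 * j - 1) := ⟨j - 1, by omega⟩
  rw [this.neg_pow]; ring

lemma hasDerivAt_GG (N : ℕ) (c : ℕ → ℝ) (y : ℝ) : HasDerivAt (GG N c) (gg N c y) y := by
  unfold GG gg
  apply HasDerivAt.fun_sum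
  intro j hj
  rw [Finset.mem_Icc] at hj
  have h1 := (hasDerivAt_pow (2 * j) y).const_mul (c j / (2 * j))
  have h2 : (2 * (j : ℝ)) ≠ 0 := by
    have : 0 < j := hj.1
    positivity
  have h3 : c j * y ^ (2 * j - 1) = c j / (2 * j) * (((2 * j : ℕ) : ℝ) * y ^ (2 * j - 1)) := by
    rw [← mul_assoc]
    push_cast
    rw [div_mul_cancel₀ _ h2]
  rw [h3]
  exact h1

lemma continuous_gg (N : ℕ) (c : ℕ → ℝ) : Continuous (gg N c) := by
  unfold gg
  fun_prop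

lemma continuous_GG (N : ℕ) (c : ℕ → ℝ) : Continuous (GG N c) := by
  unfold GG
  fun_prop

/-- the linear part dominates -/
lemma gg_lin (hN : 1 ≤ N) (c : ℕ → ℝ) {R : ℝ} (hR : 0 ≤ R) : ∃ K, 0 ≤ K ∧ ∀ ρ, 0 ≤ ρ → ρ ≤ R →
    ∀ a b : ℝ, |a| ≤ ρ → |b| ≤ ρ →
      |gg N c a - gg N c b - c 1 * (a - b)| ≤ K * ρ ^ 2 * |a - b| := by
  refine ⟨∑ j ∈ Finset.Icc 2 N, |c j| * (2 * j) * R ^ (2 * j - 4), ?_, ?_⟩
  · positivity
  intro ρ hρ hρR a b ha hb
  have h1 : ∀ y, gg N c y = c 1 * y + ∑ j ∈ Finset.Icc 2 N, c j * y ^ (2 * j - 1) := by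
    intro y
    unfold gg
    rw [← Finset.add_sum_Ioc_eq_sum_Icc hN]
    have : Finset.Ioc 1 N = Finset.Icc 2 N := by
      ext j; rw [Finset.mem_Ioc, Finset.mem_Icc]; omega
    rw [this]
    simp
  have h2 : gg N c a - gg N c b - c 1 * (a - b) =
      ∑ j ∈ Finset.Icc 2 N, c j * (a ^ (2 * j - 1) - b ^ (2 * j - 1)) := by
    rw [h1 a, h1 b]
    simp only [mul_sub, Finset.sum_sub_distrib]
    ring
  rw [h2, Finset.sum_mul, Finset.sum_mul]
  refine (Finset.abs_sum_le_sum_abs _ _).trans (Finset.sum_le_sum fun j hj => ?_)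
  rw [Finset.mem_Icc] at hj
  rw [abs_mul]
  have h3 := abs_pow_sub_pow_le a b (2 * j - 1)
  have h4 : max |a| |b| ^ (2 * j - 1 - 1) ≤ ρ ^ 2 * R ^ (2 * j - 4) := by
    have h5 : max |a| |b| ≤ ρ := max_le ha hb
    have h6 : 2 * j - 1 - 1 = 2 + (2 * j - 4) := by omega
    rw [h6, pow_add]
    have h7 : (0 : ℝ) ≤ max |a| |b| := le_max_of_le_left (abs_nonneg a)
    gcongr
    exact h5.trans hρR
  have h5 : ((2 * j - 1 : ℕ) : ℝ) ≤ 2 * j := by
    have : 2 * j - 1 ≤ 2 * j := by omega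
    exact_mod_cast this
  have h8 : (0 : ℝ) ≤ max |a| |b| ^ (2 * j - 1 - 1) := by positivity
  calc |c j| * |a ^ (2 * j - 1) - b ^ (2 * j - 1)|
      ≤ |c j| * (|a - b| * (2 * j) * (ρ ^ 2 * R ^ (2 * j - 4))) := by
        gcongr
        refine h3.trans ?_
        gcongr
    _ = _ := by ring

/-! ### Decay for all times -/

namespace IsBreather

lemma w (h : IsBreather N c T u) : IsW u (dx u) (dt u) (dx (dx u)) (dt (dx u)) (dt (dt u)) :=
  isW_of_contDiff h.smooth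

/-- decay estimates of `u, u_x, u_t` for all times -/
lemma bound (h : IsBreather N c T u) (hT : 0 < T) : ∃ C, 0 ≤ C ∧ ∀ x t,
    |u x t| ≤ C ∧ |x| ^ 2 * |u x t| ≤ C ∧ |dx u x t| ≤ C ∧ |x| * |dx u x t| ≤ C ∧
    |dt u x t| ≤ C ∧ |x| * |dt u x t| ≤ C := by
  have key : ∀ m : ℕ, m ≤ 2 → ∀ w ∈ ({u, dx u, dt u, dx (dx u), dt (dx u)} : Set (ℝ → ℝ → ℝ)),
      (∀ x t, w x (t + T) = w x t) → ∃ C, ∀ x t, |x| ^ m * |w x t| ≤ C := by
    intro m hm w hw hper
    obtain ⟨C, hC⟩ := h.decay m hm w hw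
    refine ⟨C, fun x t => ?_⟩
    have hp : Function.Periodic (fun s => w x s) T := fun s => hper x s
    obtain ⟨y, hy, hy2⟩ := hp.exists_mem_Ico₀ hT t
    have h2 : w x t = w x y := hy2
    rw [h2]
    exact hC x y ⟨hy.1, hy.2.le⟩
  have p0 := h.periodic
  have p1 := h.w.per_x p0
  have p2 := h.w.per_t p0
  obtain ⟨C1, h1⟩ := key 0 (by norm_num) u (by simp) p0
  obtain ⟨C2, h2⟩ := key 2 (by norm_num) u (by simp) p0
  obtain ⟨C3, h3⟩ := key 0 (by norm_num) (dx u) (by simp) p1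
  obtain ⟨C4, h4⟩ := key 1 (by norm_num) (dx u) (by simp) p1
  obtain ⟨C5, h5⟩ := key 0 (by norm_num) (dt u) (by simp) p2
  obtain ⟨C6, h6⟩ := key 1 (by norm_num) (dt u) (by simp) p2
  have a1 := abs_nonneg C1
  have a2 := abs_nonneg C2
  have a3 := abs_nonneg C3
  have a4 := abs_nonneg C4
  have a5 := abs_nonneg C5
  have a6 := abs_nonneg C6
  refine ⟨|C1| + |C2| + |C3| + |C4| + |C5| + |C6|, by positivity, fun x t => ?_⟩
  have b1 := h1 x t
  have b2 := h2 x t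
  have b3 := h3 x t
  have b4 := h4 x t
  have b5 := h5 x t
  have b6 := h6 x t
  rw [pow_zero, one_mul] at b1 b3 b5
  rw [pow_one] at b4 b6
  have d1 := le_abs_self C1
  have d2 := le_abs_self C2
  have d3 := le_abs_self C3
  have d4 := le_abs_self C4
  have d5 := le_abs_self C5
  have d6 := le_abs_self C6
  refine ⟨?_, ?_, ?_, ?_, ?_, ?_⟩ <;> linarith

/-- uniform convergence to zero at infinity -/
lemma small (h : IsBreather N c T u) (hT : 0 < T) {ε : ℝ} (hε : 0 < ε) : ∃ X, 1 ≤ X ∧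
    ∀ x t, X ≤ |x| → |u x t| ≤ ε ∧ |dx u x t| ≤ ε ∧ |dt u x t| ≤ ε := by
  obtain ⟨C, hC0, hC⟩ := h.bound hT
  refine ⟨max 1 (C / ε), le_max_left _ _, fun x t hx => ?_⟩
  have h1 : 1 ≤ |x| := (le_max_left _ _).trans hx
  have h2 : C ≤ ε * |x| := by
    have := (le_max_right _ _).trans hx
    rw [div_le_iff₀ hε] at this
    linarith
  obtain ⟨-, c2, -, c4, -, c6⟩ := hC x t
  have hx0 : 0 < |x| := by linarith
  refine ⟨?_, ?_, ?_⟩
  · have : |x| * |u x t| ≤ |x| ^ 2 * |u x t| := by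
      have := abs_nonneg (u x t)
      nlinarith [mul_nonneg (mul_nonneg this hx0.le) (sub_nonneg.2 h1)]
    have : |x| * |u x t| ≤ |x| * ε := by linarith
    exact le_of_mul_le_mul_left this hx0
  · have : |x| * |dx u x t| ≤ |x| * ε := by linarith
    exact le_of_mul_le_mul_left this hx0
  · have : |x| * |dt u x t| ≤ |x| * ε := by linarith
    exact le_of_mul_le_mul_left this hx0

end IsBreather

end H53.Br
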