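import Mathlib
import Pool.Agent.H53.Br.Facts

open MeasureTheory Set Filter Topology

namespace H53.Br

variable {N : ℕ} {c : ℕ → ℝ} {T : ℝ} {u v : ℝ → ℝ → ℝ}

/-- a bound for an integral over a period -/
lemma abs_int_le {f : ℝ → ℝ} {C : ℝ} (hT : 0 < T) (hf : ∀ t, |f t| ≤ C) :
    |∫ t in (0 : ℝ)..T, f t| ≤ C * T := by
  have := intervalIntegral.norm_integral_le_of_norm_le_const (a := 0) (b := T) (f := f) (C := C)
    (fun t _ => by rw [Real.norm_eq_abs]; exact hf t)
  rw [Real.norm_eq_abs, sub_zero, abs_of_pos hT] at this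
  exact this

namespace IsBreather

/-- the boundary values in time agree -/
lemma zero_T (h : IsBreather N c T u) (x : ℝ) : u x T = 0 := by
  have := h.periodic x 0
  rw [zero_add] at this
  rw [this, h.zero]

/-- derivative in `x` of the spatial energy -/
lemma energy_deriv (h : IsBreather N c T u) (x : ℝ) :
    HasDerivAt (fun y => ∫ t in (0 : ℝ)..T, (dx u y t ^ 2 / 2 + dt u y t ^ 2 / 2 - GG N c (u y t)))
      0 x := by
  have w := h.w
  have cu := w.cu
  have cux := w.cux
  have cut := w.cut
  have cuxx := w.cuxx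
  have cuxt := w.cuxt
  have cutt := w.cutt
  have cg := continuous_gg N c
  have cG := continuous_GG N c
  have hd : ∀ x t, HasDerivAt (fun y => dx u y t ^ 2 / 2 + dt u y t ^ 2 / 2 - GG N c (u y t))
      (dx u x t * dx (dx u) x t + dt u x t * dt (dx u) x t - gg N c (u x t) * dx u x t) x := by
    intro x t
    have h1 := ((w.hxx x t).fun_pow 2).div_const 2
    have h2 := ((w.htx x t).fun_pow 2).div_const 2
    have h3 := (hasDerivAt_GG N c (u x t)).comp x (w.hx x t)
    have h4 := (h1.add h2).sub h3
    refine h4.congr_deriv ?_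
    simp
    ring
  have h1 := hasDerivAt_param (f := fun y t => dx u y t ^ 2 / 2 + dt u y t ^ 2 / 2 -
    GG N c (u y t)) (f' := fun x t => dx u x t * dx (dx u) x t + dt u x t * dt (dx u) x t -
    gg N c (u x t) * dx u x t) (by fun_prop) (by fun_prop) hd 0 T x
  have h2 : (∫ t in (0 : ℝ)..T, (dx u x t * dx (dx u) x t + dt u x t * dt (dx u) x t -
      gg N c (u x t) * dx u x t)) = 0 := by
    have e : ∀ t, dx u x t * dx (dx u) x t + dt u x t * dt (dx u) x t - gg N c (u x t) * dx u x t =
        dt (dx u) x t * dt u x t + dx u x t * dt (dt u) x t := by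
      intro t
      rw [h.wave x t]; ring
    simp only [e]
    refine int_deriv_zero (fun t => w.prod_t x t) ?_ ?_
    · exact ((cont_t cuxt x).mul (cont_t cut x)).add ((cont_t cux x).mul (cont_t cutt x))
    · have p1 := w.per_x h.periodic x 0
      have p2 := w.per_t h.periodic x 0
      rw [zero_add] at p1 p2
      rw [p1, p2]
  rw [h2] at h1
  exact h1

/-- **The spatial energy vanishes.** -/
theorem energy (h : IsBreather N c T u) (hT : 0 < T) (x : ℝ) :
    ∫ t in (0 : ℝ)..T, (dx u x t ^ 2 / 2 + dt u x t ^ 2 / 2 - GG N c (u x t)) = 0 := by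
  set E : ℝ → ℝ := fun y => ∫ t in (0 : ℝ)..T, (dx u y t ^ 2 / 2 + dt u y t ^ 2 / 2 -
    GG N c (u y t)) with hE
  have hconst : ∀ x y, E x = E y := by
    apply is_const_of_deriv_eq_zero
    · intro x; exact (h.energy_deriv x).differentiableAt
    · intro x; exact (h.energy_deriv x).deriv
  have hsm : ∀ ε > 0, |E x| ≤ 2 * ε * T := by
    intro ε hε
    have hG : Tendsto (GG N c) (𝓝 0) (𝓝 0) := by
      have := (continuous_GG N c).tendsto 0
      rwa [GG_zero] at this
    obtain ⟨δ, hδ, hδ2⟩ := Metric.tendsto_nhds_nhds.1 hG ε hε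
    set d := min (min (δ / 2) 1) ε with hd
    have hd0 : 0 < d := by positivity
    obtain ⟨X, hX1, hX⟩ := h.small hT hd0
    rw [hconst x X]
    apply abs_int_le hT
    intro t
    obtain ⟨h1, h2, h3⟩ := hX X t (le_abs_self X)
    have h4 : |GG N c (u X t)| ≤ ε := by
      have : dist (u X t) 0 < δ := by
        rw [Real.dist_eq, sub_zero]
        have : d ≤ δ / 2 := (min_le_left _ _).trans (min_le_left _ _)
        linarith
      have := hδ2 this
      rw [Real.dist_eq, sub_zero] at this
      exact this.le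
    have h5 : d ≤ 1 := (min_le_left _ _).trans (min_le_right _ _)
    have h6 : d ≤ ε := min_le_right _ _
    have h7 : dx u X t ^ 2 ≤ ε := by
      rw [← sq_abs]
      have := abs_nonneg (dx u X t)
      nlinarith
    have h8 : dt u X t ^ 2 ≤ ε := by
      rw [← sq_abs]
      have := abs_nonneg (dt u X t)
      nlinarith
    rw [abs_le] at h4 ⊢
    have h9 := sq_nonneg (dx u X t)
    have h10 := sq_nonneg (dt u X t)
    constructor <;> linarith
  by_contra hne
  have hpos : 0 < |E x| := abs_pos.2 hne
  have := hsm (|E x| / (4 * T)) (by positivity)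
  have h2 : 2 * (|E x| / (4 * T)) * T = |E x| / 2 := by field_simp; norm_num
  rw [h2] at this
  linarith

/-- **Star-shaped condition**: a breather with `2 G(u) ≤ u g(u)` everywhere vanishes. -/
theorem star (h : IsBreather N c T u) (hT : 0 < T)
    (hs : ∀ x t, 2 * GG N c (u x t) ≤ u x t * gg N c (u x t)) : ∀ x t, u x t = 0 := by
  have w := h.w
  have cu := w.cu
  have cux := w.cux
  have cut := w.cut
  have cuxx := w.cuxx
  have cuxt := w.cuxt
  have cutt := w.cutt
  have cg := continuous_gg N c
  have cG := continuous_GG N c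
  set M : ℝ → ℝ := fun x => ∫ t in (0 : ℝ)..T, u x t ^ 2 with hM
  set M1 : ℝ → ℝ := fun x => ∫ t in (0 : ℝ)..T, 2 * (u x t * dx u x t) with hM1
  set M2 : ℝ → ℝ := fun x => ∫ t in (0 : ℝ)..T, 2 * (dx u x t ^ 2 + u x t * dx (dx u) x t) with hM2
  have hd : ∀ x, HasDerivAt M (M1 x) x := by
    intro x
    refine hasDerivAt_param (f := fun y t => u y t ^ 2) (f' := fun x t => 2 * (u x t * dx u x t))
      (by fun_prop) (by fun_prop) (fun x t => ?_) 0 T x
    refine ((w.hx x t).fun_pow 2).congr_deriv ?_
    simp; ring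
  have hd1 : ∀ x, HasDerivAt M1 (M2 x) x := by
    intro x
    refine hasDerivAt_param (f := fun y t => 2 * (u y t * dx u y t))
      (f' := fun x t => 2 * (dx u x t ^ 2 + u x t * dx (dx u) x t))
      (by fun_prop) (by fun_prop) (fun x t => ?_) 0 T x
    refine (((w.hx x t).fun_mul (w.hxx x t)).const_mul 2).congr_deriv ?_
    ring
  have hM2n : ∀ x, 0 ≤ M2 x := by
    intro x
    have e1 : ∫ t in (0 : ℝ)..T, (dt u x t * dt u x t + u x t * dt (dt u) x t) = 0 := by
      refine int_deriv_zero (fun t => (w.ht x t).fun_mul (w.htt x t)) ?_ ?_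
      · exact ((cont_t cut x).mul (cont_t cut x)).add ((cont_t cu x).mul (cont_t cutt x))
      · rw [h.zero, h.zero_T, zero_mul, zero_mul]
    have e2 := h.energy hT x
    have ix : ∀ f : ℝ → ℝ → ℝ, Continuous (fun p : ℝ × ℝ => f p.1 p.2) →
        IntervalIntegrable (fun t => f x t) volume 0 T := fun f hf => ii_t hf x 0 T
    have e3 : M2 x = ∫ t in (0 : ℝ)..T, (2 * (2 * dx u x t ^ 2 +
        (u x t * gg N c (u x t) - 2 * GG N c (u x t))) +
        2 * (dt u x t * dt u x t + u x t * dt (dt u) x t) -
        4 * (dx u x t ^ 2 / 2 + dt u x t ^ 2 / 2 - GG N c (u x t))) := by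
      simp only [hM2]
      refine intervalIntegral.integral_congr fun t _ => ?_
      have hw := h.wave x t
      have e : dx (dx u) x t = dt (dt u) x t + gg N c (u x t) := by rw [hw]; ring
      rw [e]
      ring
    rw [e3, intervalIntegral.integral_sub, intervalIntegral.integral_add,
      intervalIntegral.integral_const_mul 2 (fun t => dt u x t * dt u x t + u x t * dt (dt u) x t),
      intervalIntegral.integral_const_mul 4, e1, e2, mul_zero, mul_zero, add_zero, sub_zero]
    · refine intervalIntegral.integral_nonneg hT.le fun t _ => ?_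
      have := hs x t
      have h2 := sq_nonneg (dx u x t)
      linarith
    · exact ix (fun x t => 2 * (2 * dx u x t ^ 2 + (u x t * gg N c (u x t) -
        2 * GG N c (u x t)))) (by fun_prop)
    · exact ix (fun x t => 2 * (dt u x t * dt u x t + u x t * dt (dt u) x t)) (by fun_prop)
    · exact (ix (fun x t => 2 * (2 * dx u x t ^ 2 + (u x t * gg N c (u x t) -
        2 * GG N c (u x t)))) (by fun_prop)).add
        (ix (fun x t => 2 * (dt u x t * dt u x t + u x t * dt (dt u) x t)) (by fun_prop))
    · exact ix (fun x t => 4 * (dx u x t ^ 2 / 2 + dt u x t ^ 2 / 2 - GG N c (u x t)))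
        (by fun_prop)
  have hmono : Monotone M1 := by
    apply monotone_of_deriv_nonneg
    · intro x; exact (hd1 x).differentiableAt
    · intro x; rw [(hd1 x).deriv]; exact hM2n x
  have hsm : ∀ ε > 0, ∃ X, 1 ≤ X ∧ ∀ x, X ≤ |x| → |M1 x| ≤ ε ∧ |M x| ≤ ε := by
    intro ε hε
    set d := min 1 (ε / (2 * T)) with hdd
    have hd0 : 0 < d := by positivity
    obtain ⟨X, hX1, hX⟩ := h.small hT hd0
    refine ⟨X, hX1, fun x hx => ?_⟩
    have h5 : d ≤ 1 := min_le_left _ _
    have h6 : d ≤ ε / (2 * T) := min_le_right _ _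
    have h7 : 2 * (ε / (2 * T)) * T = ε := by field_simp
    constructor
    · rw [← h7]
      apply abs_int_le hT
      intro t
      obtain ⟨h1, h2, h3⟩ := hX x t hx
      rw [abs_mul, abs_mul, abs_two]
      have := abs_nonneg (u x t)
      have := abs_nonneg (dx u x t)
      have h8 : |u x t| * |dx u x t| ≤ 1 * (ε / (2 * T)) :=
        mul_le_mul (h1.trans h5) (h2.trans h6) (abs_nonneg _) zero_le_one
      linarith
    · have h9 : ε / (2 * T) * T ≤ ε := by
        have : ε / (2 * T) * T = ε / 2 := by field_simp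
        linarith
      refine le_trans ?_ h9
      apply abs_int_le hT
      intro t
      obtain ⟨h1, h2, h3⟩ := hX x t hx
      rw [abs_pow, sq]
      have h8 : |u x t| * |u x t| ≤ 1 * (ε / (2 * T)) :=
        mul_le_mul (h1.trans h5) (h1.trans h6) (abs_nonneg _) zero_le_one
      linarith
  have hM10 : ∀ x, M1 x = 0 := by
    intro x
    apply le_antisymm
    · refine le_of_forall_pos_le_add fun ε hε => ?_
      obtain ⟨X, hX1, hX⟩ := hsm ε hε
      have h1 : x ≤ max x X := le_max_left _ _
      have h2 : X ≤ |max x X| := (le_max_right x X).trans (le_abs_self _)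
      have h3 := hmono h1
      have h4 := (hX _ h2).1
      linarith [le_abs_self (M1 (max x X))]
    · refine le_of_forall_pos_le_add fun ε hε => ?_
      obtain ⟨X, hX1, hX⟩ := hsm ε hε
      have h1 : min x (-X) ≤ x := min_le_left _ _
      have h2 : X ≤ |min x (-X)| := by
        have h3 : min x (-X) ≤ -X := min_le_right _ _
        rw [abs_of_nonpos (by linarith)]
        linarith
      have h3 := hmono h1
      have h4 := (hX _ h2).1
      linarith [neg_abs_le (M1 (min x (-X)))]
  have hMc : ∀ x y, M x = M y := by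
    apply is_const_of_deriv_eq_zero
    · intro x; exact (hd x).differentiableAt
    · intro x; rw [(hd x).deriv, hM10]
  have hM0 : ∀ x, M x ≤ 0 := by
    intro x
    refine le_of_forall_pos_le_add fun ε hε => ?_
    obtain ⟨X, hX1, hX⟩ := hsm ε hε
    rw [hMc x X]
    have := (hX X (le_abs_self X)).2
    linarith [le_abs_self (M X)]
  intro x t
  have h2 : ∀ s ∈ Icc 0 T, u x s ^ 2 = 0 :=
    zero_of_int ((cont_t cu x).pow 2) (fun s => sq_nonneg _) hT (hM0 x)
  have hper : Function.Periodic (fun s => u x s) T := fun s => h.periodic x s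
  obtain ⟨y, hy, hy2⟩ := hper.exists_mem_Ico₀ hT t
  have := h2 y ⟨hy.1, hy.2.le⟩
  exact hy2.trans ((pow_eq_zero_iff two_ne_zero).1 this)

end IsBreather

end H53.Br
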