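import Mathlib
import Pool.Agent.H53.Br.Basic

open MeasureTheory Set Filter Topology Complex
open scoped Real

namespace H53.Br

/-- the sine coefficients (not normalised) -/
noncomputable def sc (T : ℝ) (v : ℝ → ℝ) (k : ℤ) : ℝ :=
  ∫ t in (0 : ℝ)..T, v t * Real.sin (2 * π * k * t / T)

/-- the cosine coefficients of an odd periodic function vanish -/
lemma cos_coeff_zero {T : ℝ} (hT : 0 < T) {v : ℝ → ℝ} (hper : ∀ t, v (t + T) = v t)
    (hodd : ∀ t, v (-t) = - v t) (k : ℤ) :
    ∫ t in (0 : ℝ)..T, v t * Real.cos (2 * π * k * t / T) = 0 := by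
  have h1 := intervalIntegral.integral_comp_sub_left (a := 0) (b := T)
    (fun t => v t * Real.cos (2 * π * k * t / T)) T
  rw [sub_self, sub_zero] at h1
  have h2 : (fun x => v (T - x) * Real.cos (2 * π * k * (T - x) / T))
      = fun x => - (v x * Real.cos (2 * π * k * x / T)) := by
    funext x
    have e1 : v (T - x) = - v x := by rw [sub_eq_neg_add, hper, hodd]
    have e2 : 2 * π * k * (T - x) / T = k * (2 * π) - 2 * π * k * x / T := by
      field_simp
    rw [e1, e2, Real.cos_int_mul_two_pi_sub]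
    ring
  rw [h2, intervalIntegral.integral_neg] at h1
  linarith

/-- the Fourier coefficients of an odd periodic function -/
lemma fourier_coeff_sq {T : ℝ} (hT : 0 < T) {v : ℝ → ℝ} (hv : Continuous v)
    (hper : ∀ t, v (t + T) = v t) (hodd : ∀ t, v (-t) = - v t) (k : ℤ) :
    ‖fourierCoeffOn hT (fun t => (v t : ℂ)) k‖ ^ 2 = (sc T v k) ^ 2 / T ^ 2 := by
  have key : fourierCoeffOn hT (fun t => (v t : ℂ)) k = (1 / T : ℂ) * (-(I * (sc T v k : ℂ))) := by
    rw [fourierCoeffOn_eq_integral]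
    have e1 : ∀ x : ℝ, (fourier (-k)) (x : AddCircle (T - 0)) • (v x : ℂ)
        = ((v x * Real.cos (2 * π * k * x / T) : ℝ) : ℂ)
          - I * ((v x * Real.sin (2 * π * k * x / T) : ℝ) : ℂ) := by
      intro x
      rw [fourier_coe_apply, smul_eq_mul]
      have e2 : 2 * (π : ℂ) * I * ((-k : ℤ) : ℂ) * (x : ℂ) / ((T - 0 : ℝ) : ℂ)
          = ((-(2 * π * k * x / T) : ℝ) : ℂ) * I := by
        push_cast
        rw [sub_zero]
        ring
      rw [e2, Complex.exp_mul_I, ← Complex.ofReal_cos, ← Complex.ofReal_sin, Real.cos_neg,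
        Real.sin_neg]
      push_cast
      ring
    rw [intervalIntegral.integral_congr (fun x _ => e1 x)]
    have c1 : Continuous fun x : ℝ => ((v x * Real.cos (2 * π * k * x / T) : ℝ) : ℂ) := by
      fun_prop
    have c2 : Continuous fun x : ℝ => I * ((v x * Real.sin (2 * π * k * x / T) : ℝ) : ℂ) := by
      fun_prop
    rw [intervalIntegral.integral_sub (c1.intervalIntegrable _ _) (c2.intervalIntegrable _ _),
      intervalIntegral.integral_ofReal, cos_coeff_zero hT hper hodd k,
      intervalIntegral.integral_const_mul, intervalIntegral.integral_ofReal]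
    unfold sc
    simp
  rw [key, norm_mul, norm_neg, norm_mul, Complex.norm_I, one_mul, mul_pow]
  rw [Complex.norm_real, norm_div, norm_one, Complex.norm_real, Real.norm_eq_abs,
    Real.norm_eq_abs, sq_abs, div_pow, one_pow, sq_abs]
  ring

/-- **Wirtinger's inequality with the first modes removed.** -/
theorem wirtinger {T : ℝ} (hT : 0 < T) {v v' : ℝ → ℝ} (hd : ∀ t, HasDerivAt v (v' t) t)
    (hv' : Continuous v') (hper : ∀ t, v (t + T) = v t) (hodd : ∀ t, v (-t) = - v t) (n : ℕ) :
    (n * (2 * π / T)) ^ 2 * ((∫ t in (0 : ℝ)..T, v t ^ 2)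
      - (1 / T) * ∑ k ∈ Finset.Ioo (-(n : ℤ)) n, (sc T v k) ^ 2) ≤ ∫ t in (0 : ℝ)..T, v' t ^ 2 := by
  have hv : Continuous v := continuous_iff_continuousAt.2 fun t => (hd t).continuousAt
  set A : ℤ → ℝ := fun k => ‖fourierCoeffOn hT (fun t => (v t : ℂ)) k‖ ^ 2 with hA
  set B : ℤ → ℝ := fun k => ‖fourierCoeffOn hT (fun t => (v' t : ℂ)) k‖ ^ 2 with hB
  have mem : ∀ w : ℝ → ℝ, Continuous w →
      MemLp (fun t => (w t : ℂ)) 2 (volume.restrict (Ioc 0 T)) := by
    intro w hw
    have hw2 : Continuous fun t => (w t : ℂ) := by fun_prop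
    obtain ⟨C, hC⟩ := (isCompact_Icc (a := (0 : ℝ)) (b := T)).exists_bound_of_continuousOn
      hw2.continuousOn
    refine MemLp.of_bound hw2.aestronglyMeasurable C ?_
    rw [ae_restrict_iff' measurableSet_Ioc]
    exact Eventually.of_forall fun t ht => hC t (Ioc_subset_Icc_self ht)
  have hsA : HasSum A ((1 / T) * ∫ t in (0 : ℝ)..T, v t ^ 2) := by
    have := hasSum_sq_fourierCoeffOn hT (mem v hv)
    simpa [hA, sq_abs] using this
  have hsB : HasSum B ((1 / T) * ∫ t in (0 : ℝ)..T, v' t ^ 2) := by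
    have := hasSum_sq_fourierCoeffOn hT (mem v' hv')
    simpa [hB, sq_abs] using this
  have hrel : ∀ k, (k * (2 * π / T)) ^ 2 * A k ≤ B k := by
    intro k
    rcases eq_or_ne k 0 with rfl | hk
    · simp only [Int.cast_zero, zero_mul]
      rw [zero_pow two_ne_zero, zero_mul]
      positivity
    have h1 := fourierCoeffOn_of_hasDerivAt (a := 0) (b := T) hT (f := fun t => (v t : ℂ))
      (f' := fun t => (v' t : ℂ)) hk (fun x _ => (hd x).ofReal_comp)
      ((by fun_prop : Continuous fun t => (v' t : ℂ)).intervalIntegrable _ _)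
    have h2 : v T = v 0 := by have := hper 0; rwa [zero_add] at this
    have hk' : (k : ℂ) ≠ 0 := by exact_mod_cast hk
    have hTc : (T : ℂ) ≠ 0 := by exact_mod_cast hT.ne'
    rw [h2] at h1
    simp only [sub_self, mul_zero, zero_sub, sub_zero, ofReal_zero] at h1
    have h3 : fourierCoeffOn hT (fun t => (v' t : ℂ)) k
        = (2 * π * I * k / T) * fourierCoeffOn hT (fun t => (v t : ℂ)) k := by
      rw [h1]
      have hpi : (π : ℂ) ≠ 0 := by exact_mod_cast Real.pi_ne_zero
      field_simp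
    have hn : ‖(2 * π * I * k / T : ℂ)‖ = |(k : ℝ)| * (2 * π / T) := by
      rw [norm_div, norm_mul, norm_mul, norm_mul, Complex.norm_I, Complex.norm_intCast,
        Complex.norm_real, Complex.norm_real, Real.norm_eq_abs, Real.norm_eq_abs,
        abs_of_pos Real.pi_pos, abs_of_pos hT]
      simp only [Complex.norm_ofNat]
      ring
    simp only [hA, hB]
    rw [h3, norm_mul, hn]
    apply le_of_eq
    rw [mul_pow, mul_pow, mul_pow, sq_abs]
  -- the first modes
  set S : Finset ℤ := Finset.Ioo (-(n : ℤ)) n with hS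
  have hsS : HasSum (fun k => if k ∈ S then A k else 0) (∑ k ∈ S, A k) := by
    have e : ∑ k ∈ S, A k = ∑ k ∈ S, (if k ∈ S then A k else 0) :=
      Finset.sum_congr rfl fun k hk => by simp [hk]
    rw [e]
    exact hasSum_sum_of_ne_finset_zero fun k hk => by simp [hk]
  have hsC : HasSum (fun k => (n * (2 * π / T)) ^ 2 * (A k - if k ∈ S then A k else 0))
      ((n * (2 * π / T)) ^ 2 * ((1 / T) * (∫ t in (0 : ℝ)..T, v t ^ 2) - ∑ k ∈ S, A k)) :=
    (hsA.sub hsS).mul_left _
  have hle := hasSum_le (fun k => by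
    by_cases hk : k ∈ S
    · simp only [hk, if_true, sub_self, mul_zero]
      simp only [hB]; positivity
    · simp only [hk, if_false, sub_zero]
      refine le_trans ?_ (hrel k)
      have hA0 : 0 ≤ A k := by simp only [hA]; positivity
      refine mul_le_mul_of_nonneg_right ?_ hA0
      have h5 : (n : ℝ) ≤ |(k : ℝ)| := by
        have : (n : ℤ) ≤ |k| := by
          rw [hS, Finset.mem_Ioo, not_and_or] at hk
          rcases abs_cases k with ⟨h, _⟩ | ⟨h, _⟩ <;> omega
        exact_mod_cast this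
      rw [mul_pow, mul_pow, ← sq_abs (k : ℝ)]
      gcongr) hsC hsB
  have hS2 : ∑ k ∈ S, A k = (1 / T ^ 2) * ∑ k ∈ S, (sc T v k) ^ 2 := by
    rw [Finset.mul_sum]
    refine Finset.sum_congr rfl fun k _ => ?_
    simp only [hA]
    rw [fourier_coeff_sq hT hv hper hodd k]
    ring
  rw [hS2] at hle
  have h6 : (n * (2 * π / T)) ^ 2 * ((1 / T) * (∫ t in (0 : ℝ)..T, v t ^ 2)
      - (1 / T ^ 2) * ∑ k ∈ S, (sc T v k) ^ 2) = (1 / T) * ((n * (2 * π / T)) ^ 2 *
      ((∫ t in (0 : ℝ)..T, v t ^ 2) - (1 / T) * ∑ k ∈ S, (sc T v k) ^ 2)) := by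
    field_simp
  rw [h6] at hle
  have h7 : 0 < 1 / T := by positivity
  exact le_of_mul_le_mul_left hle h7

end H53.Br
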