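import Mathlib
import Pool.Agent.H53.Br.Conv

open MeasureTheory Set Filter Topology

namespace H53.Br

variable {N : ℕ} {c : ℕ → ℝ} {T : ℝ} {u v : ℝ → ℝ → ℝ}

section

variable {w wx wt wxx wxt wtt w' wx' wt' wxx' wxt' wtt' : ℝ → ℝ → ℝ}

lemma IsW.add (h : IsW w wx wt wxx wxt wtt) (h' : IsW w' wx' wt' wxx' wxt' wtt') :
    IsW (fun x t => w x t + w' x t) (fun x t => wx x t + wx' x t) (fun x t => wt x t + wt' x t)
      (fun x t => wxx x t + wxx' x t) (fun x t => wxt x t + wxt' x t)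
      (fun x t => wtt x t + wtt' x t) where
  cu := h.cu.add h'.cu
  cux := h.cux.add h'.cux
  cut := h.cut.add h'.cut
  cuxx := h.cuxx.add h'.cuxx
  cuxt := h.cuxt.add h'.cuxt
  cutt := h.cutt.add h'.cutt
  hx x t := (h.hx x t).add (h'.hx x t)
  ht x t := (h.ht x t).add (h'.ht x t)
  hxx x t := (h.hxx x t).add (h'.hxx x t)
  hxt x t := (h.hxt x t).add (h'.hxt x t)
  htx x t := (h.htx x t).add (h'.htx x t)
  htt x t := (h.htt x t).add (h'.htt x t)

lemma IsW.sub (h : IsW w wx wt wxx wxt wtt) (h' : IsW w' wx' wt' wxx' wxt' wtt') :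
    IsW (fun x t => w x t - w' x t) (fun x t => wx x t - wx' x t) (fun x t => wt x t - wt' x t)
      (fun x t => wxx x t - wxx' x t) (fun x t => wxt x t - wxt' x t)
      (fun x t => wtt x t - wtt' x t) where
  cu := h.cu.sub h'.cu
  cux := h.cux.sub h'.cux
  cut := h.cut.sub h'.cut
  cuxx := h.cuxx.sub h'.cuxx
  cuxt := h.cuxt.sub h'.cuxt
  cutt := h.cutt.sub h'.cutt
  hx x t := (h.hx x t).sub (h'.hx x t)
  ht x t := (h.ht x t).sub (h'.ht x t)
  hxx x t := (h.hxx x t).sub (h'.hxx x t)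
  hxt x t := (h.hxt x t).sub (h'.hxt x t)
  htx x t := (h.htx x t).sub (h'.htx x t)
  htt x t := (h.htt x t).sub (h'.htt x t)

lemma neg_comp_deriv {f : ℝ → ℝ} {f' t : ℝ} (h : HasDerivAt f f' (-t)) :
    HasDerivAt (fun s => f (-s)) (-f') t := by
  have := h.comp t (hasDerivAt_neg t)
  simpa [Function.comp_def] using this

lemma IsW.reflect_t (h : IsW w wx wt wxx wxt wtt) :
    IsW (fun x t => w x (-t)) (fun x t => wx x (-t)) (fun x t => - wt x (-t))
      (fun x t => wxx x (-t)) (fun x t => - wxt x (-t)) (fun x t => wtt x (-t)) where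
  cu := h.cu.comp (by fun_prop : Continuous fun p : ℝ × ℝ => ((p.1, -p.2) : ℝ × ℝ))
  cux := h.cux.comp (by fun_prop : Continuous fun p : ℝ × ℝ => ((p.1, -p.2) : ℝ × ℝ))
  cut := (h.cut.comp (by fun_prop : Continuous fun p : ℝ × ℝ => ((p.1, -p.2) : ℝ × ℝ))).neg
  cuxx := h.cuxx.comp (by fun_prop : Continuous fun p : ℝ × ℝ => ((p.1, -p.2) : ℝ × ℝ))
  cuxt := (h.cuxt.comp (by fun_prop : Continuous fun p : ℝ × ℝ => ((p.1, -p.2) : ℝ × ℝ))).neg
  cutt := h.cutt.comp (by fun_prop : Continuous fun p : ℝ × ℝ => ((p.1, -p.2) : ℝ × ℝ))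
  hx x t := h.hx x (-t)
  ht x t := neg_comp_deriv (h.ht x (-t))
  hxx x t := h.hxx x (-t)
  hxt x t := neg_comp_deriv (h.hxt x (-t))
  htx x t := (h.htx x (-t)).neg
  htt x t := by
    have := (neg_comp_deriv (h.htt x (-t))).neg
    rw [neg_neg] at this
    exact this

end

/-- the nonlinearity is Lipschitz on bounded sets -/
lemma gg_lip (hN : 1 ≤ N) (c : ℕ → ℝ) {R : ℝ} (hR : 0 ≤ R) : ∃ K, 0 ≤ K ∧
    ∀ a b : ℝ, |a| ≤ R → |b| ≤ R → |gg N c a - gg N c b| ≤ K * |a - b| := by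
  obtain ⟨K, hK0, hK⟩ := gg_lin hN c hR
  refine ⟨K * R ^ 2 + |c 1|, by positivity, fun a b ha hb => ?_⟩
  have h1 := hK R hR le_rfl a b ha hb
  have h2 : |gg N c a - gg N c b| ≤ |gg N c a - gg N c b - c 1 * (a - b)| + |c 1 * (a - b)| := by
    have := abs_add_le (gg N c a - gg N c b - c 1 * (a - b)) (c 1 * (a - b))
    rwa [sub_add_cancel] at this
  rw [abs_mul (c 1)] at h2
  linarith

namespace IsBreather

/-- **Breathers are odd in time.** -/
theorem odd (hN : 1 ≤ N) (h : IsBreather N c T u) (hT : 0 < T) : ∀ x t, u x (-t) = - u x t := by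
  obtain ⟨C, hC0, hC⟩ := h.bound hT
  obtain ⟨K, hK0, hK⟩ := gg_lip hN c hC0
  have hw := h.w.add h.w.reflect_t
  have h1 : ∀ x t, 0 ≤ t → u x t + u x (-t) = 0 := by
    refine uniq_t hw hK0 ?_ ?_ ?_ ?_
    · intro x t
      have e1 := h.wave x t
      have e2 := h.wave x (-t)
      have e3 : dt (dt u) x t + dt (dt u) x (-t) - (dx (dx u) x t + dx (dx u) x (-t)) =
          - (gg N c (u x t) - gg N c (- u x (-t))) := by
        rw [e1, e2, gg_neg]; ring
      rw [e3, abs_neg]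
      have := hK (u x t) (- u x (-t)) (hC x t).1 (by rw [abs_neg]; exact (hC x (-t)).1)
      rwa [sub_neg_eq_add] at this
    · intro x; simp [h.zero]
    · intro x; simp
    · intro ε hε
      set d := min 1 (ε / 4) with hd
      have hd0 : 0 < d := by positivity
      have hd1 : d ≤ 1 := min_le_left _ _
      have hd2 : d ≤ ε / 4 := min_le_right _ _
      obtain ⟨X, hX1, hX⟩ := h.small hT hd0
      have key : ∀ y t, X ≤ |y| → |(dt u y t + -dt u y (-t)) * (dx u y t + dx u y (-t))| ≤ ε := by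
        intro y t hy
        obtain ⟨-, a2, a3⟩ := hX y t hy
        obtain ⟨-, b2, b3⟩ := hX y (-t) hy
        rw [abs_mul]
        have c1 : |dt u y t + -dt u y (-t)| ≤ 2 * 1 := by
          refine (abs_add_le _ _).trans ?_
          rw [abs_neg]; linarith
        have c2 : |dx u y t + dx u y (-t)| ≤ 2 * (ε / 4) := by
          refine (abs_add_le _ _).trans ?_
          linarith
        calc _ ≤ (2 * 1) * (2 * (ε / 4)) := mul_le_mul c1 c2 (abs_nonneg _) (by norm_num)
          _ = ε := by ring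
      refine ⟨X, fun L hL t => ⟨key L t (hL.trans (le_abs_self L)), key (-L) t ?_⟩⟩
      rw [abs_neg]
      exact (le_trans hL (le_abs_self L))
  intro x t
  rcases le_total 0 t with ht | ht
  · have := h1 x t ht
    linarith
  · have := h1 x (-t) (by linarith)
    rw [neg_neg] at this
    linarith

end IsBreather

end H53.Br
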