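import Mathlib
import Pool.Agent.H53.Br.Odd
import Pool.Agent.H53.Br.Four

open MeasureTheory Set Filter Topology Real

namespace H53.Br

variable {N : ℕ} {c : ℕ → ℝ} {T : ℝ} {u v : ℝ → ℝ → ℝ}

lemma tendsto_int {f : ℝ → ℝ → ℝ} (hT : 0 < T)
    (hf : ∀ ε > 0, ∃ X : ℝ, ∀ x t, X ≤ x → |f x t| ≤ ε) :
    Tendsto (fun x => ∫ t in (0 : ℝ)..T, f x t) atTop (𝓝 0) := by
  rw [Metric.tendsto_atTop]
  intro ε hε
  obtain ⟨X, hX⟩ := hf (ε / (2 * T)) (by positivity)
  refine ⟨X, fun x hx => ?_⟩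
  rw [Real.dist_eq, sub_zero]
  have h1 := abs_int_le (f := fun t => f x t) hT (hX x · hx)
  have h2 : ε / (2 * T) * T = ε / 2 := by field_simp
  rw [h2] at h1
  linarith

/-- The working data of a difference of two breathers near `+∞`. -/
structure Diff (T c1 x₀ K' : ℝ) (w wx wt wxx wxt wtt r : ℝ → ℝ → ℝ) : Prop where
  hT : 0 < T
  hx₀ : 1 ≤ x₀
  hK : 0 ≤ K'
  hw : IsW w wx wt wxx wxt wtt
  cr : Continuous fun p : ℝ × ℝ => r p.1 p.2
  wave : ∀ x t, wxx x t = wtt x t + c1 * w x t + r x t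
  per : ∀ x t, w x (t + T) = w x t
  odd : ∀ x t, w x (-t) = - w x t
  small : ∀ ε > 0, ∃ X : ℝ, ∀ x t, X ≤ x → |w x t| ≤ ε ∧ |wx x t| ≤ ε ∧ |wt x t| ≤ ε
  hr : ∀ x t, x₀ ≤ x → |r x t| ≤ K' / x ^ 4 * |w x t|
  bdd : ∃ C, ∀ x t, |w x t| ≤ C ∧ |wx x t| ≤ C

namespace Diff

variable {c1 x₀ K' : ℝ} {w wx wt wxx wxt wtt r : ℝ → ℝ → ℝ}

lemma zero (h : Diff T c1 x₀ K' w wx wt wxx wxt wtt r) (x : ℝ) : w x 0 = 0 := by
  have := h.odd x 0
  rw [neg_zero] at this
  linarith

lemma zeroT (h : Diff T c1 x₀ K' w wx wt wxx wxt wtt r) (x : ℝ) : w x T = 0 := by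
  have := h.per x 0
  rw [zero_add] at this
  rw [this, h.zero]

/-- the equation of the sine coefficients -/
lemma coeff (h : Diff T c1 x₀ K' w wx wt wxx wxt wtt r) (k : ℤ) (x : ℝ) :
    HasDerivAt (fun y => sc T (w y) k) (sc T (wx x) k) x ∧
    HasDerivAt (fun y => sc T (wx y) k)
      ((c1 - (k * (2 * π / T)) ^ 2) * sc T (w x) k + sc T (r x) k) x := by
  have cw := h.hw.cu
  have cwx := h.hw.cux
  have cwt := h.hw.cut
  have cwxx := h.hw.cuxx
  have cwtt := h.hw.cutt
  have cr := h.cr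
  have hT := h.hT
  constructor
  · unfold sc
    exact hasDerivAt_param (f := fun y t => w y t * Real.sin (2 * π * k * t / T))
      (f' := fun x t => wx x t * Real.sin (2 * π * k * t / T)) (by fun_prop) (by fun_prop)
      (fun x t => (h.hw.hx x t).mul_const _) 0 T x
  · have h1 := hasDerivAt_param (f := fun y t => wx y t * Real.sin (2 * π * k * t / T))
      (f' := fun x t => wxx x t * Real.sin (2 * π * k * t / T)) (by fun_prop) (by fun_prop)
      (fun x t => (h.hw.hxx x t).mul_const _) 0 T x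
    unfold sc
    refine h1.congr_deriv ?_
    set κ : ℝ := 2 * π * k / T with hκ
    have hk1 : (k * (2 * π / T)) ^ 2 = κ ^ 2 := by rw [hκ]; ring
    have hs : ∀ t, 2 * π * k * t / T = κ * t := by intro t; rw [hκ]; ring
    have hd : ∀ t, HasDerivAt (fun s => wt x s * Real.sin (κ * s) - κ * (w x s * Real.cos (κ * s)))
        (wtt x t * Real.sin (κ * t) + κ ^ 2 * (w x t * Real.sin (κ * t))) t := by
      intro t
      have h2 : HasDerivAt (fun s => κ * s) κ t := by simpa using (hasDerivAt_id t).const_mul κ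
      have h3 := (h.hw.htt x t).fun_mul h2.sin
      have h4 := ((h.hw.ht x t).fun_mul h2.cos).const_mul κ
      refine (h3.sub h4).congr_deriv ?_
      ring
    have h0 : ∫ t in (0 : ℝ)..T, (wtt x t * Real.sin (κ * t) +
        κ ^ 2 * (w x t * Real.sin (κ * t))) = 0 := by
      refine int_deriv_zero hd ?_ ?_
      · exact ((cont_t cwtt x).mul (by fun_prop)).add
          (continuous_const.mul ((cont_t cw x).mul (by fun_prop)))
      · have e1 : Real.sin (κ * T) = 0 := by
          have : κ * T = k * (2 * π) := by rw [hκ]; field_simp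
          rw [this]
          have := Real.sin_int_mul_pi (2 * k)
          push_cast at this
          rw [← this]; congr 1; ring
        rw [e1, h.zero, h.zeroT]
        simp
    simp only [hs]
    have i1 : IntervalIntegrable (fun t => wtt x t * Real.sin (κ * t) +
        κ ^ 2 * (w x t * Real.sin (κ * t))) volume 0 T :=
      (((cont_t cwtt x).mul (by fun_prop)).add
          (continuous_const.mul ((cont_t cw x).mul (by fun_prop)))).intervalIntegrable _ _
    have i2 : IntervalIntegrable (fun t => (c1 - κ ^ 2) * (w x t * Real.sin (κ * t))) volume 0 T :=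
      (continuous_const.mul ((cont_t cw x).mul (by fun_prop))).intervalIntegrable _ _
    have i3 : IntervalIntegrable (fun t => r x t * Real.sin (κ * t)) volume 0 T :=
      ((cont_t cr x).mul (by fun_prop)).intervalIntegrable _ _
    have e : ∫ t in (0 : ℝ)..T, wxx x t * Real.sin (κ * t) =
        ∫ t in (0 : ℝ)..T, ((wtt x t * Real.sin (κ * t) + κ ^ 2 * (w x t * Real.sin (κ * t))) +
          (c1 - κ ^ 2) * (w x t * Real.sin (κ * t)) + r x t * Real.sin (κ * t)) := by
      refine intervalIntegral.integral_congr fun t _ => ?_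
      rw [h.wave x t]; ring
    rw [e, intervalIntegral.integral_add (i1.add i2) i3, intervalIntegral.integral_add i1 i2, h0,
      intervalIntegral.integral_const_mul, hk1, zero_add]

lemma sc_tendsto (h : Diff T c1 x₀ K' w wx wt wxx wxt wtt r) (k : ℤ) :
    Tendsto (fun x => sc T (w x) k) atTop (𝓝 0) ∧ Tendsto (fun x => sc T (wx x) k) atTop (𝓝 0) := by
  have hb : ∀ (a s : ℝ), |a * Real.sin s| ≤ |a| := by
    intro a s
    rw [abs_mul]
    have := Real.abs_sin_le_one s
    nlinarith [abs_nonneg a]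
  constructor
  · refine tendsto_int (f := fun x t => w x t * Real.sin (2 * π * k * t / T)) h.hT fun ε hε => ?_
    obtain ⟨X, hX⟩ := h.small ε hε
    exact ⟨X, fun x t hx => (hb _ _).trans (hX x t hx).1⟩
  · refine tendsto_int (f := fun x t => wx x t * Real.sin (2 * π * k * t / T)) h.hT fun ε hε => ?_
    obtain ⟨X, hX⟩ := h.small ε hε
    exact ⟨X, fun x t hx => (hb _ _).trans (hX x t hx).2.1⟩

/-- the size of the forcing of the coefficients -/
lemma forcing (h : Diff T c1 x₀ K' w wx wt wxx wxt wtt r) {β b : ℝ} (hb : 0 ≤ b)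
    (hb2 : b ^ 2 = β * T) (hβ : ∀ x, x₀ ≤ x → ∫ t in (0 : ℝ)..T, w x t ^ 2 ≤ β) (k : ℤ) {x : ℝ}
    (hx : x₀ ≤ x) : |sc T (r x) k| ≤ K' * b / x ^ 4 := by
  have hT := h.hT
  have hx1 : 1 ≤ x := h.hx₀.trans hx
  have hx0 : 0 < x := by linarith
  have cr := cont_t h.cr x
  have cw := cont_t h.hw.cu x
  have h1 := cs cr (g := fun t => Real.sin (2 * π * k * t / T)) (by fun_prop) hT.le
  have h2 : ∫ t in (0 : ℝ)..T, r x t ^ 2 ≤ (K' / x ^ 4) ^ 2 * β := by
    calc ∫ t in (0 : ℝ)..T, r x t ^ 2 ≤ ∫ t in (0 : ℝ)..T, (K' / x ^ 4) ^ 2 * w x t ^ 2 := by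
          refine intervalIntegral.integral_mono_on hT.le (Continuous.intervalIntegrable (by fun_prop) _ _)
            (Continuous.intervalIntegrable (by fun_prop) _ _) fun t _ => ?_
          have := h.hr x t hx
          rw [← mul_pow, ← sq_abs, ← sq_abs (K' / x ^ 4 * w x t)]
          apply pow_le_pow_left₀ (abs_nonneg _)
          rw [abs_mul, abs_of_nonneg (div_nonneg h.hK (by positivity))]
          exact this
      _ = (K' / x ^ 4) ^ 2 * ∫ t in (0 : ℝ)..T, w x t ^ 2 :=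
          intervalIntegral.integral_const_mul _ _
      _ ≤ _ := by
          have := hβ x hx
          gcongr
  have h3 : ∫ t in (0 : ℝ)..T, Real.sin (2 * π * k * t / T) ^ 2 ≤ T := by
    have : ∫ t in (0 : ℝ)..T, Real.sin (2 * π * k * t / T) ^ 2 ≤ ∫ _t in (0 : ℝ)..T, (1 : ℝ) := by
      refine intervalIntegral.integral_mono_on hT.le (Continuous.intervalIntegrable (by fun_prop) _ _)
        (Continuous.intervalIntegrable (by fun_prop) _ _) fun t _ => ?_
      exact Real.sin_sq_le_one _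
    simpa using this
  have h4 : 0 ≤ ∫ t in (0 : ℝ)..T, Real.sin (2 * π * k * t / T) ^ 2 :=
    intervalIntegral.integral_nonneg hT.le fun t _ => sq_nonneg _
  have h5 : 0 ≤ β := by
    refine le_trans ?_ (hβ x hx)
    exact intervalIntegral.integral_nonneg hT.le fun t _ => sq_nonneg _
  apply abs_le_of_sq_le_sq _ (div_nonneg (mul_nonneg h.hK hb) (by positivity))
  calc (sc T (r x) k) ^ 2 ≤ _ := h1
    _ ≤ ((K' / x ^ 4) ^ 2 * β) * T := mul_le_mul h2 h3 h4 (by positivity)
    _ = (K' * b / x ^ 4) ^ 2 := by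
      rw [div_pow, div_pow, mul_pow, hb2]; ring

/-- a bound for a coefficient of a mode with `q = c1 - (kω)^2 ≥ 0` -/
lemma coeff_le (h : Diff T c1 x₀ K' w wx wt wxx wxt wtt r) {β b : ℝ} (hb : 0 ≤ b)
    (hb2 : b ^ 2 = β * T) (hβ : ∀ x, x₀ ≤ x → ∫ t in (0 : ℝ)..T, w x t ^ 2 ≤ β) (k : ℤ)
    (hq : 0 ≤ c1 - (k * (2 * π / T)) ^ 2)
    (h0 : 0 < c1 - (k * (2 * π / T)) ^ 2 → sc T (w x₀) k = 0) {x : ℝ} (hx : x₀ ≤ x) :
    (sc T (w x) k) ^ 2 ≤ K' ^ 2 * (β * T) * ((c1 - (k * (2 * π / T)) ^ 2)⁻¹ ^ 2 + 1) / x₀ := by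
  set q := c1 - (k * (2 * π / T)) ^ 2 with hqd
  have hx00 : 0 < x₀ := by linarith [h.hx₀]
  have hx1 : 1 ≤ x := h.hx₀.trans hx
  obtain ⟨t1, t2⟩ := h.sc_tendsto k
  have hK := h.hK
  rcases hq.lt_or_eq with hq | hq
  · -- hyperbolic mode
    have hl : 0 < Real.sqrt q := Real.sqrt_pos.2 hq
    have h1 := hyperbolic_abs (f := fun y => sc T (w y) k) (f1 := fun y => sc T (wx y) k)
      (h := fun y => sc T (r y) k) (X := x₀) (δ := K' * b / x₀) (l := Real.sqrt q) hl
      (fun y _ => (h.coeff k y).1) (fun y _ => by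
        rw [Real.sq_sqrt hq.le]; exact (h.coeff k y).2) (fun y hy => by
        refine (h.forcing hb hb2 hβ k hy).trans ?_
        have hy1 : 1 ≤ y := h.hx₀.trans hy
        gcongr
        calc x₀ ≤ y := hy
          _ = y ^ 1 := (pow_one y).symm
          _ ≤ y ^ 4 := pow_le_pow_right₀ hy1 (by norm_num)) (h0 hq) t1 t2 x hx
    rw [Real.sq_sqrt hq.le] at h1
    have h2 : (sc T (w x) k) ^ 2 ≤ (K' * b / x₀ / q) ^ 2 := by
      rw [← sq_abs]
      exact pow_le_pow_left₀ (abs_nonneg _) h1 2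
    refine h2.trans ?_
    have e : (K' * b / x₀ / q) ^ 2 = K' ^ 2 * (β * T) * (q⁻¹ ^ 2) / x₀ ^ 2 := by
      rw [← hb2]; field_simp
    rw [e]
    have h5 : 0 ≤ β * T := by rw [← hb2]; positivity
    have h6 : x₀ ≤ x₀ ^ 2 := by nlinarith [h.hx₀]
    have h7 : K' ^ 2 * (β * T) * (q⁻¹ ^ 2) ≤ K' ^ 2 * (β * T) * (q⁻¹ ^ 2 + 1) := by
      apply mul_le_mul_of_nonneg_left _ (by positivity)
      linarith
    exact div_le_div₀ (by positivity) h7 hx00 h6
  · -- neutral mode
    have hf : ∀ y, HasDerivAt (fun y => sc T (wx y) k) (sc T (r y) k) y := by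
      intro y
      have := (h.coeff k y).2
      rw [← hqd, ← hq, zero_mul, zero_add] at this
      exact this
    have h1 := second_order (f := fun y => sc T (w y) k) (f1 := fun y => sc T (wx y) k)
      (f2 := fun y => sc T (r y) k) (X := x₀) (δ := K' * b) hx00 (fun y _ => (h.coeff k y).1)
      (fun y _ => hf y) (fun y hy => (le_abs_self _).trans (h.forcing hb hb2 hβ k hy)) t1 t2 x hx
    have h2 := second_order (f := fun y => - sc T (w y) k) (f1 := fun y => - sc T (wx y) k)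
      (f2 := fun y => - sc T (r y) k) (X := x₀) (δ := K' * b) hx00
      (fun y _ => (h.coeff k y).1.neg)
      (fun y _ => (hf y).neg) (fun y hy => (neg_le_abs _).trans (h.forcing hb hb2 hβ k hy))
      (by simpa using t1.neg) (by simpa using t2.neg) x hx
    have h3 : |sc T (w x) k| ≤ K' * b / (6 * x ^ 2) := abs_le.2 ⟨by linarith, h1⟩
    have h4 : (sc T (w x) k) ^ 2 ≤ (K' * b / (6 * x ^ 2)) ^ 2 := by
      rw [← sq_abs]
      exact pow_le_pow_left₀ (abs_nonneg _) h3 2
    refine h4.trans ?_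
    have h5 : 0 ≤ β * T := by rw [← hb2]; positivity
    rw [div_pow, mul_pow, hb2, ← hq]
    have h6 : x₀ ≤ (6 * x ^ 2) ^ 2 := by
      have e1 : x ≤ x ^ 4 := by
        calc x = x ^ 1 := (pow_one x).symm
          _ ≤ x ^ 4 := pow_le_pow_right₀ hx1 (by norm_num)
      nlinarith
    have h7 : K' ^ 2 * (β * T) ≤ K' ^ 2 * (β * T) * ((0 : ℝ)⁻¹ ^ 2 + 1) := by simp
    exact div_le_div₀ (by positivity) h7 hx00 h6

/-- the energy functional -/
lemma energy_le (h : Diff T c1 x₀ K' w wx wt wxx wxt wtt r) {β : ℝ}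
    (hβ : ∀ x, x₀ ≤ x → ∫ t in (0 : ℝ)..T, (wx x t ^ 2 + w x t ^ 2) ≤ β) {x : ℝ} (hx : x₀ ≤ x) :
    ∫ t in (0 : ℝ)..T, (wx x t ^ 2 + wt x t ^ 2 - c1 * w x t ^ 2) ≤ K' * β / x₀ := by
  have cw := h.hw.cu
  have cwx := h.hw.cux
  have cwt := h.hw.cut
  have cwxx := h.hw.cuxx
  have cwxt := h.hw.cuxt
  have cwtt := h.hw.cutt
  have cr := h.cr
  have hT := h.hT
  have hK := h.hK
  have hx00 : 0 < x₀ := by linarith [h.hx₀]
  set F : ℝ → ℝ := fun x => ∫ t in (0 : ℝ)..T, (wx x t ^ 2 + wt x t ^ 2 - c1 * w x t ^ 2) with hF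
  have hd : ∀ x, HasDerivAt F (∫ t in (0 : ℝ)..T, 2 * (wx x t * r x t)) x := by
    intro x
    have h1 := hasDerivAt_param (f := fun x t => wx x t ^ 2 + wt x t ^ 2 - c1 * w x t ^ 2)
      (f' := fun x t => 2 * (wx x t * wxx x t) + 2 * (wt x t * wxt x t) -
        2 * c1 * (w x t * wx x t)) (by fun_prop) (by fun_prop) (fun x t => by
        have h1 := (h.hw.hxx x t).fun_pow 2
        have h2 := (h.hw.htx x t).fun_pow 2
        have h3 := ((h.hw.hx x t).fun_pow 2).const_mul c1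
        refine ((h1.add h2).sub h3).congr_deriv ?_
        simp; ring) 0 T x
    refine h1.congr_deriv ?_
    have e0 : ∫ t in (0 : ℝ)..T, (wxt x t * wt x t + wx x t * wtt x t) = 0 := by
      refine int_deriv_zero (fun t => h.hw.prod_t x t) ?_ ?_
      · exact ((cont_t cwxt x).mul (cont_t cwt x)).add ((cont_t cwx x).mul (cont_t cwtt x))
      · have p1 := h.hw.per_x h.per x 0
        have p2 := h.hw.per_t h.per x 0
        rw [zero_add] at p1 p2
        rw [p1, p2]
    have e1 : ∫ t in (0 : ℝ)..T, (2 * (wx x t * wxx x t) + 2 * (wt x t * wxt x t) -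
        2 * c1 * (w x t * wx x t)) = ∫ t in (0 : ℝ)..T, (2 * (wxt x t * wt x t + wx x t * wtt x t) +
        2 * (wx x t * r x t)) := by
      refine intervalIntegral.integral_congr fun t _ => ?_
      have := h.wave x t
      change 2 * (wx x t * wxx x t) + 2 * (wt x t * wxt x t) - 2 * c1 * (w x t * wx x t) = _
      rw [this]; ring
    rw [e1, intervalIntegral.integral_add, intervalIntegral.integral_const_mul 2
      (fun t => wxt x t * wt x t + wx x t * wtt x t), e0, mul_zero, zero_add]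
    · exact ii_t (f := fun x t => 2 * (wxt x t * wt x t + wx x t * wtt x t)) (by fun_prop) x 0 T
    · exact ii_t (f := fun x t => 2 * (wx x t * r x t)) (by fun_prop) x 0 T
  have hlow : ∀ y, x₀ ≤ y → - (K' * β / y ^ 4) ≤ ∫ t in (0 : ℝ)..T, 2 * (wx y t * r y t) := by
    intro y hy
    have hy1 : 1 ≤ y := h.hx₀.trans hy
    have h1 : ∫ t in (0 : ℝ)..T, - (K' / y ^ 4) * (wx y t ^ 2 + w y t ^ 2) ≤
        ∫ t in (0 : ℝ)..T, 2 * (wx y t * r y t) := by
      refine intervalIntegral.integral_mono_on hT.le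
        ((continuous_const.mul (((cont_t cwx y).pow 2).add
          ((cont_t cw y).pow 2))).intervalIntegrable _ _)
        (ii_t (f := fun y t => 2 * (wx y t * r y t)) (by fun_prop) y 0 T) fun t _ => ?_
      have h2 := h.hr y t hy
      have h3 : |wx y t * r y t| ≤ K' / y ^ 4 * (|wx y t| * |w y t|) := by
        rw [abs_mul]
        calc |wx y t| * |r y t| ≤ |wx y t| * (K' / y ^ 4 * |w y t|) := by gcongr
          _ = _ := by ring
      have h4 : |wx y t| * |w y t| ≤ (wx y t ^ 2 + w y t ^ 2) / 2 := by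
        rw [← sq_abs (wx y t), ← sq_abs (w y t)]
        nlinarith [sq_nonneg (|wx y t| - |w y t|)]
      have h5 : 0 ≤ K' / y ^ 4 := by positivity
      have h6 := mul_le_mul_of_nonneg_left h4 h5
      have h7 := neg_abs_le (wx y t * r y t)
      linarith
    rw [intervalIntegral.integral_const_mul] at h1
    refine le_trans ?_ h1
    have h2 := hβ y hy
    have h5 : 0 ≤ K' / y ^ 4 := by positivity
    have h6 := mul_le_mul_of_nonneg_left h2 h5
    have e : K' * β / y ^ 4 = K' / y ^ 4 * β := by ring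
    rw [e]
    linarith
  have ht : Tendsto F atTop (𝓝 0) := by
    refine tendsto_int (f := fun x t => wx x t ^ 2 + wt x t ^ 2 - c1 * w x t ^ 2) hT fun ε hε => ?_
    set d := min 1 (ε / (2 + |c1|)) with hd
    have hd0 : 0 < d := by positivity
    have hd1 : d ≤ 1 := min_le_left _ _
    have hd2 : d ≤ ε / (2 + |c1|) := min_le_right _ _
    obtain ⟨X, hX⟩ := h.small d hd0
    refine ⟨X, fun x t hx => ?_⟩
    obtain ⟨a1, a2, a3⟩ := hX x t hx
    have k : ∀ y : ℝ, |y| ≤ d → y ^ 2 ≤ ε / (2 + |c1|) := by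
      intro y hy
      rw [← sq_abs]
      have := abs_nonneg y
      nlinarith
    have b1 := k _ a1
    have b2 := k _ a2
    have b3 := k _ a3
    have e1 : |wx x t ^ 2 + wt x t ^ 2 - c1 * w x t ^ 2| ≤
        wx x t ^ 2 + wt x t ^ 2 + |c1| * w x t ^ 2 := by
      refine (abs_sub _ _).trans ?_
      rw [abs_of_nonneg (by positivity), abs_mul, abs_of_nonneg (sq_nonneg (w x t))]
    refine e1.trans ?_
    have e2 : ε = (2 + |c1|) * (ε / (2 + |c1|)) := by
      field_simp
    have h8 := mul_le_mul_of_nonneg_left b1 (abs_nonneg c1)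
    nlinarith
  have h1 := first_order (F := F) hx00 (fun y _ => hd y) hlow ht x hx
  refine h1.trans ?_
  have hβ0 : 0 ≤ β := by
    refine le_trans ?_ (hβ x hx)
    exact intervalIntegral.integral_nonneg hT.le fun t _ => by positivity
  have hx1 : 1 ≤ x := h.hx₀.trans hx
  have h6 : x₀ ≤ 3 * x ^ 3 := by
    have e1 : x ≤ x ^ 3 := by
      calc x = x ^ 1 := (pow_one x).symm
        _ ≤ x ^ 3 := pow_le_pow_right₀ hx1 (by norm_num)
    nlinarith
  exact div_le_div_of_nonneg_left (by positivity) hx00 h6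

end Diff

end H53.Br
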