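import Mathlib
import Pool.Agent.H53.Br.Det

open MeasureTheory Set Filter Topology Real

namespace H53.Br

variable {N : ℕ} {c : ℕ → ℝ} {T : ℝ} {u v : ℝ → ℝ → ℝ}

/-- the constant of the contraction -/
noncomputable def cst (T c1 K' : ℝ) (n : ℕ) : ℝ :=
  K' + (n * (2 * π / T)) ^ 2 * (K' ^ 2 *
    ∑ k ∈ Finset.Ioo (-(n : ℤ)) n, ((c1 - (k * (2 * π / T)) ^ 2)⁻¹ ^ 2 + 1))

namespace Diff

variable {c1 x₀ K' : ℝ} {w wx wt wxx wxt wtt r : ℝ → ℝ → ℝ}

lemma half (h : Diff T c1 x₀ K' w wx wt wxx wxt wtt r) {n : ℕ}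
    (hn : c1 < (n * (2 * π / T)) ^ 2) (hn' : ∀ m : ℕ, m < n → (m * (2 * π / T)) ^ 2 ≤ c1)
    (h0 : ∀ k : ℤ, 0 < c1 - (k * (2 * π / T)) ^ 2 → sc T (w x₀) k = 0)
    (hbig : 2 * cst T c1 K' n ≤ x₀ * min 1 ((n * (2 * π / T)) ^ 2 - c1)) {β : ℝ}
    (hβ : ∀ x, x₀ ≤ x → ∫ t in (0 : ℝ)..T, (wx x t ^ 2 + w x t ^ 2) ≤ β) :
    ∀ x, x₀ ≤ x → ∫ t in (0 : ℝ)..T, (wx x t ^ 2 + w x t ^ 2) ≤ β / 2 := by
  intro x hx
  have hT := h.hT
  have hx00 : 0 < x₀ := by linarith [h.hx₀]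
  have cw := h.hw.cu
  have cwx := h.hw.cux
  have cwt := h.hw.cut
  have i1 : ∀ x, IntervalIntegrable (fun t => wx x t ^ 2) volume 0 T := fun x =>
    ((cont_t cwx x).pow 2).intervalIntegrable _ _
  have i2 : ∀ x, IntervalIntegrable (fun t => w x t ^ 2) volume 0 T := fun x =>
    ((cont_t cw x).pow 2).intervalIntegrable _ _
  have i3 : ∀ x, IntervalIntegrable (fun t => wt x t ^ 2) volume 0 T := fun x =>
    ((cont_t cwt x).pow 2).intervalIntegrable _ _
  have hβ0 : 0 ≤ β := by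
    refine le_trans ?_ (hβ x hx)
    exact intervalIntegral.integral_nonneg hT.le fun t _ => by positivity
  have hβ' : ∀ x, x₀ ≤ x → ∫ t in (0 : ℝ)..T, w x t ^ 2 ≤ β := by
    intro y hy
    refine le_trans ?_ (hβ y hy)
    refine intervalIntegral.integral_mono_on hT.le (i2 y) ((i1 y).add (i2 y)) fun t _ => ?_
    have := sq_nonneg (wx y t)
    linarith
  have hb2 : (Real.sqrt (β * T)) ^ 2 = β * T := Real.sq_sqrt (by positivity)
  have hE := h.energy_le hβ hx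
  have hE' : (∫ t in (0 : ℝ)..T, wx x t ^ 2) + (∫ t in (0 : ℝ)..T, wt x t ^ 2) -
      c1 * (∫ t in (0 : ℝ)..T, w x t ^ 2) ≤ K' * β / x₀ := by
    rw [← intervalIntegral.integral_const_mul, ← intervalIntegral.integral_add (i1 x) (i3 x),
      ← intervalIntegral.integral_sub ((i1 x).add (i3 x)) ((i2 x).const_mul c1)]
    exact hE
  have hW := wirtinger hT (v := w x) (v' := wt x) (fun t => h.hw.ht x t) (cont_t cwt x)
    (h.per x) (h.odd x) n
  have hS : ∑ k ∈ Finset.Ioo (-(n : ℤ)) n, (sc T (w x) k) ^ 2 ≤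
      K' ^ 2 * (β * T) * (∑ k ∈ Finset.Ioo (-(n : ℤ)) n,
        ((c1 - (k * (2 * π / T)) ^ 2)⁻¹ ^ 2 + 1)) / x₀ := by
    rw [Finset.mul_sum, Finset.sum_div]
    refine Finset.sum_le_sum fun k hk => ?_
    refine h.coeff_le (Real.sqrt_nonneg _) hb2 hβ' k ?_ (h0 k) hx
    rw [Finset.mem_Ioo] at hk
    have h1 : k.natAbs < n := by omega
    have h2 := hn' _ h1
    have h3 : ((k.natAbs : ℝ) * (2 * π / T)) ^ 2 = ((k : ℝ) * (2 * π / T)) ^ 2 := by
      rw [mul_pow, mul_pow]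
      congr 1
      have : ((k.natAbs : ℤ) : ℝ) = ((|k| : ℤ) : ℝ) := by rw [Int.natCast_natAbs]
      rw [Int.cast_natCast] at this
      rw [this, Int.cast_abs, sq_abs]
    rw [h3] at h2
    linarith
  set A := ∫ t in (0 : ℝ)..T, w x t ^ 2 with hA
  set Bx := ∫ t in (0 : ℝ)..T, wx x t ^ 2 with hBx
  set Ct := ∫ t in (0 : ℝ)..T, wt x t ^ 2 with hCt
  set S := ∑ k ∈ Finset.Ioo (-(n : ℤ)) n, (sc T (w x) k) ^ 2 with hSd
  set Q := ∑ k ∈ Finset.Ioo (-(n : ℤ)) n, ((c1 - (k * (2 * π / T)) ^ 2)⁻¹ ^ 2 + 1) with hQ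
  set ν := (n * (2 * π / T)) ^ 2 with hν
  have hν0 : 0 ≤ ν := sq_nonneg _
  have hA0 : 0 ≤ A := intervalIntegral.integral_nonneg hT.le fun t _ => sq_nonneg _
  have hB0 : 0 ≤ Bx := intervalIntegral.integral_nonneg hT.le fun t _ => sq_nonneg _
  have hAB : ∫ t in (0 : ℝ)..T, (wx x t ^ 2 + w x t ^ 2) = Bx + A :=
    intervalIntegral.integral_add (i1 x) (i2 x)
  rw [hAB]
  have h1 : ν * (1 / T * S) ≤ ν * (K' ^ 2 * β * Q / x₀) := by
    apply mul_le_mul_of_nonneg_left _ hν0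
    rw [one_div, inv_mul_le_iff₀ hT]
    refine hS.trans (le_of_eq ?_)
    ring
  have h2 : Bx + (ν - c1) * A ≤ K' * β / x₀ + ν * (K' ^ 2 * β * Q / x₀) := by
    rw [mul_sub] at hW
    linarith
  have h3 : K' * β / x₀ + ν * (K' ^ 2 * β * Q / x₀) = β * cst T c1 K' n / x₀ := by
    unfold cst
    rw [← hν, ← hQ]
    ring
  rw [h3] at h2
  set m := min 1 (ν - c1) with hm
  have hm0 : 0 < m := lt_min one_pos (by linarith)
  have hm1 : m ≤ 1 := min_le_left _ _
  have hm2 : m ≤ ν - c1 := min_le_right _ _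
  have h4 : m * (Bx + A) ≤ Bx + (ν - c1) * A := by nlinarith
  have h5 : β * cst T c1 K' n / x₀ ≤ m * (β / 2) := by
    rw [div_le_iff₀ hx00]
    nlinarith
  have h6 : m * (Bx + A) ≤ m * (β / 2) := by linarith
  exact le_of_mul_le_mul_left h6 hm0

/-- the difference and its `x` derivative vanish at `x₀` -/
theorem vanish (h : Diff T c1 x₀ K' w wx wt wxx wxt wtt r) {n : ℕ}
    (hn : c1 < (n * (2 * π / T)) ^ 2) (hn' : ∀ m : ℕ, m < n → (m * (2 * π / T)) ^ 2 ≤ c1)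
    (h0 : ∀ k : ℤ, 0 < c1 - (k * (2 * π / T)) ^ 2 → sc T (w x₀) k = 0)
    (hbig : 2 * cst T c1 K' n ≤ x₀ * min 1 ((n * (2 * π / T)) ^ 2 - c1)) :
    ∀ t, w x₀ t = 0 ∧ wx x₀ t = 0 := by
  have hT := h.hT
  obtain ⟨C, hC⟩ := h.bdd
  have hit : ∀ m : ℕ, ∀ x, x₀ ≤ x → ∫ t in (0 : ℝ)..T, (wx x t ^ 2 + w x t ^ 2) ≤
      (2 * C ^ 2 * T) / 2 ^ m := by
    intro m
    induction m with
    | zero =>
      intro x _
      rw [pow_zero, div_one]
      refine (le_abs_self _).trans (abs_int_le hT fun t => ?_)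
      obtain ⟨h1, h2⟩ := hC x t
      have h3 : wx x t ^ 2 ≤ C ^ 2 := by
        rw [← sq_abs]; exact pow_le_pow_left₀ (abs_nonneg _) h2 2
      have h4 : w x t ^ 2 ≤ C ^ 2 := by
        rw [← sq_abs]; exact pow_le_pow_left₀ (abs_nonneg _) h1 2
      rw [abs_of_nonneg (by positivity)]
      linarith
    | succ m ih =>
      intro x hx
      have := h.half hn hn' h0 hbig ih x hx
      rw [div_div, ← pow_succ] at this
      exact this
  have hz : ∫ t in (0 : ℝ)..T, (wx x₀ t ^ 2 + w x₀ t ^ 2) ≤ 0 := by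
    have ht : Tendsto (fun m : ℕ => (2 * C ^ 2 * T) / 2 ^ m) atTop (𝓝 0) := by
      have := (tendsto_pow_atTop_nhds_zero_of_lt_one (by norm_num : (0 : ℝ) ≤ 1 / 2)
        (by norm_num)).const_mul (2 * C ^ 2 * T)
      rw [mul_zero] at this
      refine this.congr fun m => ?_
      rw [one_div_pow]; ring
    exact ge_of_tendsto' ht fun m => hit m x₀ le_rfl
  have hc : Continuous fun t => wx x₀ t ^ 2 + w x₀ t ^ 2 :=
    ((cont_t h.hw.cux x₀).pow 2).add ((cont_t h.hw.cu x₀).pow 2)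
  have h1 := zero_of_int hc (fun t => by positivity) hT hz
  have h2 : ∀ t ∈ Icc 0 T, w x₀ t = 0 ∧ wx x₀ t = 0 := by
    intro t ht
    have h3 := h1 t ht
    have h4 := sq_nonneg (wx x₀ t)
    have h5 := sq_nonneg (w x₀ t)
    exact ⟨(pow_eq_zero_iff two_ne_zero).1 (by linarith),
      (pow_eq_zero_iff two_ne_zero).1 (by linarith)⟩
  intro t
  have hp1 : Function.Periodic (fun s => (w x₀ s, wx x₀ s)) T := fun s => by
    simp only [h.per x₀ s, h.hw.per_x h.per x₀ s]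
  obtain ⟨y, hy, hy2⟩ := hp1.exists_mem_Ico₀ hT t
  have h3 := h2 y ⟨hy.1, hy.2.le⟩
  have h4 : (w x₀ t, wx x₀ t) = (w x₀ y, wx x₀ y) := hy2
  rw [Prod.mk.injEq] at h4
  rw [h4.1, h4.2]
  exact h3

end Diff

/-- the least number of modes -/
lemma exists_modes (hT : 0 < T) (c1 : ℝ) : ∃ n : ℕ, c1 < (n * (2 * π / T)) ^ 2 ∧
    ∀ m : ℕ, m < n → (m * (2 * π / T)) ^ 2 ≤ c1 := by
  classical
  have hex : ∃ n : ℕ, c1 < (n * (2 * π / T)) ^ 2 := by
    have hω : 0 < 2 * π / T := by positivity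
    obtain ⟨n, hn⟩ := exists_nat_gt (max 1 (|c1| / (2 * π / T) ^ 2))
    refine ⟨n, ?_⟩
    have h1 : (1 : ℝ) < n := (le_max_left _ _).trans_lt hn
    have h2 : |c1| / (2 * π / T) ^ 2 < n := (le_max_right _ _).trans_lt hn
    rw [div_lt_iff₀ (by positivity)] at h2
    have h3 : (n : ℝ) * (2 * π / T) ^ 2 ≤ (n * (2 * π / T)) ^ 2 := by
      rw [mul_pow]
      have h4 : (n : ℝ) ≤ (n : ℝ) ^ 2 := by nlinarith
      exact mul_le_mul_of_nonneg_right h4 (by positivity)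
    linarith [le_abs_self c1]
  refine ⟨Nat.find hex, Nat.find_spec hex, fun m hm => ?_⟩
  have := Nat.find_min hex hm
  push Not at this
  exact this

/-- **Finite determination.** -/
theorem finite_det (hN : 1 ≤ N) (c : ℕ → ℝ) (hT : 0 < T) (C : ℝ) : ∃ X, 1 ≤ X ∧
    ∀ u v : ℝ → ℝ → ℝ, IsBreather N c T u → IsBreather N c T v → ∀ x₀, X ≤ x₀ →
      (∀ x t, x₀ ≤ x → x ^ 2 * |u x t| ≤ C) → (∀ x t, x₀ ≤ x → x ^ 2 * |v x t| ≤ C) →
      (∀ k : ℕ, 1 ≤ k → (k * (2 * π / T)) ^ 2 < c 1 → sc T (u x₀) k = sc T (v x₀) k) →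
      ∀ x t, u x t = v x t := by
  obtain ⟨K, hK0, hK⟩ := gg_lin hN c (abs_nonneg C)
  obtain ⟨n, hn, hn'⟩ := exists_modes hT (c 1)
  set K' := K * |C| ^ 2 with hK'
  have hK'0 : 0 ≤ K' := by positivity
  set m := min 1 ((n * (2 * π / T)) ^ 2 - c 1) with hm
  have hm0 : 0 < m := lt_min one_pos (by linarith)
  refine ⟨max 1 (2 * cst T (c 1) K' n / m), le_max_left _ _, ?_⟩
  intro u v hu hv x₀ hx₀ hub hvb hk
  have hx1 : 1 ≤ x₀ := (le_max_left _ _).trans hx₀
  have hx2 : 2 * cst T (c 1) K' n ≤ x₀ * m := by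
    have := (le_max_right _ _).trans hx₀
    rwa [div_le_iff₀ hm0] at this
  have ou := hu.odd hN hT
  have ov := hv.odd hN hT
  have cgg := continuous_gg N c
  have cu := hu.w.cu
  have cv := hv.w.cu
  have hD : Diff T (c 1) x₀ K' (fun x t => u x t - v x t) (fun x t => dx u x t - dx v x t)
      (fun x t => dt u x t - dt v x t) (fun x t => dx (dx u) x t - dx (dx v) x t)
      (fun x t => dt (dx u) x t - dt (dx v) x t) (fun x t => dt (dt u) x t - dt (dt v) x t)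
      (fun x t => gg N c (u x t) - gg N c (v x t) - c 1 * (u x t - v x t)) := by
    refine ⟨hT, hx1, hK'0, hu.w.sub hv.w, by fun_prop, ?_, ?_, ?_, ?_, ?_, ?_⟩
    · intro x t
      rw [hu.wave x t, hv.wave x t]; ring
    · intro x t
      simp only [hu.periodic x t, hv.periodic x t]
    · intro x t
      simp only [ou x t, ov x t]; ring
    · intro ε hε
      obtain ⟨X1, hX11, hX1⟩ := hu.small hT (ε := ε / 2) (by linarith)
      obtain ⟨X2, hX21, hX2⟩ := hv.small hT (ε := ε / 2) (by linarith)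
      refine ⟨max X1 X2, fun x t hx => ?_⟩
      have hx' := hx.trans (le_abs_self x)
      obtain ⟨a1, a2, a3⟩ := hX1 x t ((le_max_left _ _).trans hx')
      obtain ⟨b1, b2, b3⟩ := hX2 x t ((le_max_right _ _).trans hx')
      refine ⟨(abs_sub _ _).trans (by linarith), (abs_sub _ _).trans (by linarith),
        (abs_sub _ _).trans (by linarith)⟩
    · intro x t hx
      have hxx : 1 ≤ x := hx1.trans hx
      have hx0 : 0 < x := by linarith
      have hb : ∀ y : ℝ, x ^ 2 * |y| ≤ C → |y| ≤ |C| / x ^ 2 := by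
        intro y hy
        rw [le_div_iff₀ (by positivity)]
        linarith [le_abs_self C]
      have h1 := hK (|C| / x ^ 2) (by positivity) (div_le_self (abs_nonneg C) (one_le_pow₀ hxx))
        (u x t) (v x t) (hb _ (hub x t hx)) (hb _ (hvb x t hx))
      refine h1.trans (le_of_eq ?_)
      rw [hK', div_pow, ← pow_mul]
      ring
    · obtain ⟨C1, hC10, hC1⟩ := hu.bound hT
      obtain ⟨C2, hC20, hC2⟩ := hv.bound hT
      refine ⟨C1 + C2, fun x t => ?_⟩
      obtain ⟨a1, -, a3, -, -, -⟩ := hC1 x t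
      obtain ⟨b1, -, b3, -, -, -⟩ := hC2 x t
      exact ⟨(abs_sub _ _).trans (by linarith), (abs_sub _ _).trans (by linarith)⟩
  have hsub : ∀ k : ℤ, sc T (fun t => u x₀ t - v x₀ t) k = sc T (u x₀) k - sc T (v x₀) k := by
    intro k
    unfold sc
    rw [← intervalIntegral.integral_sub]
    · refine intervalIntegral.integral_congr fun t _ => ?_
      ring
    · exact ((cont_t cu x₀).mul (by fun_prop)).intervalIntegrable _ _
    · exact ((cont_t cv x₀).mul (by fun_prop)).intervalIntegrable _ _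
  have hneg : ∀ (f : ℝ → ℝ) (k : ℤ), sc T f (-k) = - sc T f k := by
    intro f k
    unfold sc
    rw [← intervalIntegral.integral_neg]
    refine intervalIntegral.integral_congr fun t _ => ?_
    change f t * Real.sin (2 * π * ((-k : ℤ) : ℝ) * t / T) = - (f t * Real.sin (2 * π * k * t / T))
    rw [← mul_neg, ← Real.sin_neg]
    congr 2
    push_cast
    ring
  have hv0 := hD.vanish hn hn' (fun k hkk => by
    rcases lt_trichotomy k 0 with hk0 | hk0 | hk0
    · obtain ⟨j, hj⟩ := Int.eq_ofNat_of_zero_le (show 0 ≤ -k by omega)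
      have e : k = -(j : ℤ) := by omega
      rw [hsub, e, hneg, hneg]
      have h1 : ((k : ℝ) * (2 * π / T)) ^ 2 = ((j : ℝ) * (2 * π / T)) ^ 2 := by
        rw [e]; push_cast; ring
      have h2 := hk j (by omega) (by rw [← h1]; linarith)
      rw [h2]; ring
    · rw [hk0]
      unfold sc
      simp
    · obtain ⟨j, hj⟩ := Int.eq_ofNat_of_zero_le (show 0 ≤ k by omega)
      rw [hsub, hj]
      have h1 : ((k : ℝ) * (2 * π / T)) ^ 2 = ((j : ℝ) * (2 * π / T)) ^ 2 := by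
        rw [hj]; push_cast; ring
      have h2 := hk j (by omega) (by rw [← h1]; linarith)
      rw [h2]; ring) hx2
  obtain ⟨C1, hC10, hC1⟩ := hu.bound hT
  obtain ⟨C2, hC20, hC2⟩ := hv.bound hT
  obtain ⟨L, hL0, hL⟩ := gg_lip hN c (show 0 ≤ C1 + C2 by positivity)
  have h5 := uniq_x hD.hw hT hL0 hD.per (fun x t => by
    have e1 := hu.wave x t
    have e2 := hv.wave x t
    have e3 : dx (dx u) x t - dx (dx v) x t - (dt (dt u) x t - dt (dt v) x t) =
        gg N c (u x t) - gg N c (v x t) := by rw [e1, e2]; ring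
    rw [e3]
    refine hL _ _ ?_ ?_
    · linarith [(hC1 x t).1]
    · linarith [(hC2 x t).1]) (fun t => (hv0 t).1) (fun t => (hv0 t).2)
  intro x t
  have := h5 x t
  linarith

end H53.Br
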