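import Mathlib
import Pool.Agent.H53.Br.Odd

/-!
The Green function of `d²/dt² + μ²` on `T`-periodic functions, and the quadratic form it defines.
-/

open MeasureTheory Set Filter Topology

namespace H53.Br

/-- the correlation of two functions over a period -/
noncomputable def cor (T : ℝ) (f g : ℝ → ℝ) (s : ℝ) : ℝ := ∫ t in (0 : ℝ)..T, f (t - s) * g t

/-- the bilinear form with kernel `K` -/
noncomputable def BB (T : ℝ) (K f g : ℝ → ℝ) : ℝ := ∫ s in (0 : ℝ)..T, K s * cor T f g s

variable {T : ℝ}

lemma cor_cont {f g : ℝ → ℝ} (hf : Continuous f) (hg : Continuous g) :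
    Continuous fun s => cor T f g s := by
  unfold cor
  exact intervalIntegral.continuous_parametric_intervalIntegral_of_continuous'
    (f := fun s t => f (t - s) * g t) (by fun_prop) 0 T

lemma int_shift {F : ℝ → ℝ} (hF : ∀ t, F (t + T) = F t) (s : ℝ) :
    ∫ t in (0 : ℝ)..T, F (t + s) = ∫ t in (0 : ℝ)..T, F t := by
  rw [intervalIntegral.integral_comp_add_right]
  have hp : Function.Periodic F T := hF
  have := hp.intervalIntegral_add_eq s 0
  rw [zero_add] at this
  rw [zero_add, add_comm T s]
  exact this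

lemma per_sub {f : ℝ → ℝ} (hf : ∀ t, f (t + T) = f t) (t : ℝ) : f (t - T) = f t := by
  have := hf (t - T)
  rw [sub_add_cancel] at this
  exact this.symm

lemma cor_symm {f g : ℝ → ℝ} (hf : ∀ t, f (t + T) = f t) (hg : ∀ t, g (t + T) = g t) (s : ℝ) :
    cor T f g (T - s) = cor T g f s := by
  unfold cor
  have h1 : ∀ t, f (t - (T - s)) * g t = (fun τ => f τ * g (τ - s)) (t + s) := by
    intro t
    have e1 : t - (T - s) = (t + s) - T := by ring
    have e2 : t + s - s = t := by ring
    simp only [e1, e2]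
    rw [per_sub hf]
  simp only [h1]
  rw [int_shift (F := fun τ => f τ * g (τ - s)) ?_ s]
  · refine intervalIntegral.integral_congr fun t _ => ?_
    ring
  · intro t
    have e3 : t + T - s = (t - s) + T := by ring
    simp only [e3]
    rw [hf, hg]

lemma BB_symm {K f g : ℝ → ℝ} (hK : ∀ s, K (T - s) = K s) (hf : ∀ t, f (t + T) = f t)
    (hg : ∀ t, g (t + T) = g t) : BB T K f g = BB T K g f := by
  unfold BB
  have h1 := intervalIntegral.integral_comp_sub_left (a := 0) (b := T)
    (fun s => K s * cor T f g s) T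
  rw [sub_self, sub_zero] at h1
  rw [← h1]
  refine intervalIntegral.integral_congr fun s _ => ?_
  rw [hK, cor_symm hf hg]

lemma cor_add {f f' g : ℝ → ℝ} (hf : Continuous f) (hf' : Continuous f') (hg : Continuous g)
    (s : ℝ) : cor T (fun t => f t + f' t) g s = cor T f g s + cor T f' g s := by
  unfold cor
  rw [← intervalIntegral.integral_add]
  · refine intervalIntegral.integral_congr fun t _ => ?_
    simp only
    ring
  · exact Continuous.intervalIntegrable (by fun_prop) _ _
  · exact Continuous.intervalIntegrable (by fun_prop) _ _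

lemma cor_smul {f g : ℝ → ℝ} (b s : ℝ) : cor T (fun t => b * f t) g s = b * cor T f g s := by
  unfold cor
  rw [← intervalIntegral.integral_const_mul]
  refine intervalIntegral.integral_congr fun t _ => ?_
  simp only
  ring

lemma BB_add {K f f' g : ℝ → ℝ} (hK : Continuous K) (hf : Continuous f) (hf' : Continuous f')
    (hg : Continuous g) : BB T K (fun t => f t + f' t) g = BB T K f g + BB T K f' g := by
  unfold BB
  rw [← intervalIntegral.integral_add]
  · refine intervalIntegral.integral_congr fun s _ => ?_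
    simp only [cor_add hf hf' hg]
    ring
  · exact (hK.mul (cor_cont hf hg)).intervalIntegrable _ _
  · exact (hK.mul (cor_cont hf' hg)).intervalIntegrable _ _

lemma cor_deriv {f f' g : ℝ → ℝ} (hd : ∀ t, HasDerivAt f (f' t) t) (hf : Continuous f)
    (hf' : Continuous f') (hg : Continuous g) (s : ℝ) :
    HasDerivAt (fun s => cor T f g s) (- cor T f' g s) s := by
  have h1 := hasDerivAt_param (f := fun s t => f (t - s) * g t)
    (f' := fun s t => - (f' (t - s) * g t)) (by fun_prop) (by fun_prop) (fun s t => ?_) 0 T s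
  · rw [intervalIntegral.integral_neg] at h1
    exact h1
  · have h2 : HasDerivAt (fun y : ℝ => t - y) (-1) s := by
      simpa using (hasDerivAt_id s).const_sub t
    have h3 := ((hd (t - s)).comp s h2).mul_const (g t)
    refine h3.congr_deriv ?_
    ring

/-- the mean of a correlation -/
lemma int_cor {f g : ℝ → ℝ} (hf : Continuous f) (hper : ∀ t, f (t + T) = f t)
    (hg : Continuous g) (h0 : ∫ t in (0 : ℝ)..T, g t = 0) :
    ∫ s in (0 : ℝ)..T, cor T f g s = 0 := by
  set P : ℝ → ℝ := fun s => ∫ t in (0 : ℝ)..s, f t with hP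
  have hPd : ∀ t, HasDerivAt P (f t) t := fun t =>
    intervalIntegral.integral_hasDerivAt_right (hf.intervalIntegrable _ _)
      (hf.stronglyMeasurableAtFilter _ _) hf.continuousAt
  have hPc : Continuous P := continuous_iff_continuousAt.2 fun t => (hPd t).continuousAt
  have h1 : ∀ s, HasDerivAt (fun s => - cor T P g s) (cor T f g s) s := by
    intro s
    have := (cor_deriv (T := T) hPd hPc hf hg s).neg
    rw [neg_neg] at this
    exact this
  rw [intervalIntegral.integral_eq_sub_of_hasDerivAt (fun s _ => h1 s)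
    ((cor_cont hf hg).intervalIntegrable _ _)]
  have h2 : ∀ t, P t - P (t - T) = ∫ t in (0 : ℝ)..T, f t := by
    intro t
    simp only [hP]
    rw [intervalIntegral.integral_interval_sub_left (hf.intervalIntegrable _ _)
      (hf.intervalIntegrable _ _)]
    have hp : Function.Periodic f T := hper
    have := hp.intervalIntegral_add_eq (t - T) 0
    rw [zero_add, sub_add_cancel] at this
    exact this
  have h3 : cor T P g 0 - cor T P g T = (∫ t in (0 : ℝ)..T, f t) * ∫ t in (0 : ℝ)..T, g t := by
    unfold cor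
    rw [← intervalIntegral.integral_sub, ← intervalIntegral.integral_const_mul]
    · refine intervalIntegral.integral_congr fun t _ => ?_
      rw [← h2 t, sub_zero]
      ring
    · exact Continuous.intervalIntegrable (by fun_prop) _ _
    · exact Continuous.intervalIntegrable (by fun_prop) _ _
  rw [h0, mul_zero] at h3
  linarith

/-- the kernel -/
noncomputable def KK (T μ a s : ℝ) : ℝ :=
  (Real.cos (μ * (s - T / 2)) - a) / (2 * μ * Real.sin (μ * T / 2))

lemma KK_cont (T μ a : ℝ) : Continuous (KK T μ a) := by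
  unfold KK
  fun_prop

lemma KK_symm (T μ a s : ℝ) : KK T μ a (T - s) = KK T μ a s := by
  unfold KK
  have : μ * (T - s - T / 2) = - (μ * (s - T / 2)) := by ring
  rw [this, Real.cos_neg]

/-- **The kernel inverts `d²/dt² + μ²`.** -/
theorem BB_kernel {μ a : ℝ} (hμ : μ ≠ 0) (hs : Real.sin (μ * T / 2) ≠ 0)
    {f f1 f2 g : ℝ → ℝ} (hf : ∀ t, HasDerivAt f (f1 t) t) (hf1 : ∀ t, HasDerivAt f1 (f2 t) t)
    (cf2 : Continuous f2) (p : ∀ t, f (t + T) = f t) (p1 : ∀ t, f1 (t + T) = f1 t)
    (p2 : ∀ t, f2 (t + T) = f2 t) (cg : Continuous g)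
    (hg0 : ∫ t in (0 : ℝ)..T, g t = 0) :
    BB T (KK T μ a) (fun t => f2 t + μ ^ 2 * f t) g = ∫ t in (0 : ℝ)..T, f t * g t := by
  have cf : Continuous f := continuous_iff_continuousAt.2 fun t => (hf t).continuousAt
  have cf1 : Continuous f1 := continuous_iff_continuousAt.2 fun t => (hf1 t).continuousAt
  have cF : Continuous (fun t => f2 t + μ ^ 2 * f t) := by fun_prop
  set D := 2 * μ * Real.sin (μ * T / 2) with hD
  have hD0 : D ≠ 0 := mul_ne_zero (mul_ne_zero two_ne_zero hμ) hs
  -- splitting off the constant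
  have e1 : BB T (KK T μ a) (fun t => f2 t + μ ^ 2 * f t) g =
      BB T (KK T μ 0) (fun t => f2 t + μ ^ 2 * f t) g := by
    unfold BB
    have h1 : ∀ s, KK T μ a s * cor T (fun t => f2 t + μ ^ 2 * f t) g s =
        KK T μ 0 s * cor T (fun t => f2 t + μ ^ 2 * f t) g s -
        (a / D) * cor T (fun t => f2 t + μ ^ 2 * f t) g s := by
      intro s
      unfold KK
      rw [← hD]
      ring
    simp only [h1]
    rw [intervalIntegral.integral_sub, intervalIntegral.integral_const_mul,
      int_cor cF (fun t => by simp only [p, p2]) cg hg0, mul_zero, sub_zero]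
    · exact ((KK_cont T μ 0).mul (cor_cont cF cg)).intervalIntegrable _ _
    · exact ((cor_cont cF cg).const_mul _).intervalIntegrable _ _
  rw [e1]
  -- the Wronskian
  set K0 : ℝ → ℝ := KK T μ 0 with hK0
  set K1 : ℝ → ℝ := fun s => (- Real.sin (μ * (s - T / 2)) * μ) / D with hK1
  have hin : ∀ s, HasDerivAt (fun s : ℝ => μ * (s - T / 2)) μ s := by
    intro s
    have := ((hasDerivAt_id s).sub_const (T / 2)).const_mul μ
    simpa using this
  have dK0 : ∀ s, HasDerivAt K0 (K1 s) s := by
    intro s
    have h1 := ((Real.hasDerivAt_cos (μ * (s - T / 2))).comp s (hin s)).div_const D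
    have h2 : K0 = fun s => (Real.cos ∘ fun s : ℝ => μ * (s - T / 2)) s / D := by
      funext s
      simp only [hK0, KK, hD, Function.comp, sub_zero]
    rw [h2]
    exact h1
  have dK1 : ∀ s, HasDerivAt K1 (- (μ ^ 2 * K0 s)) s := by
    intro s
    have h1 := (((Real.hasDerivAt_sin (μ * (s - T / 2))).comp s (hin s)).neg.mul_const μ).div_const D
    refine h1.congr_deriv ?_
    simp only [hK0, KK, sub_zero]
    rw [← hD]
    ring
  have cK0 : Continuous K0 := KK_cont T μ 0
  have hW : ∀ s, HasDerivAt (fun s => - (K0 s * cor T f1 g s) - K1 s * cor T f g s)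
      (K0 s * cor T (fun t => f2 t + μ ^ 2 * f t) g s) s := by
    intro s
    have d0 := cor_deriv (T := T) hf cf cf1 cg s
    have d1 := cor_deriv (T := T) hf1 cf1 cf2 cg s
    have h1 := ((dK0 s).mul d1).neg.sub ((dK1 s).mul d0)
    refine h1.congr_deriv ?_
    rw [cor_add cf2 (by fun_prop) cg, cor_smul]
    ring
  unfold BB
  rw [intervalIntegral.integral_eq_sub_of_hasDerivAt (fun s _ => hW s)
    ((cK0.mul (cor_cont cF cg)).intervalIntegrable _ _)]
  have c0 : cor T f g T = cor T f g 0 := by
    unfold cor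
    refine intervalIntegral.integral_congr fun t _ => ?_
    rw [per_sub p, sub_zero]
  have c1 : cor T f1 g T = cor T f1 g 0 := by
    unfold cor
    refine intervalIntegral.integral_congr fun t _ => ?_
    rw [per_sub p1, sub_zero]
  have k0 : K0 T = K0 0 := by
    have := KK_symm T μ 0 0
    rw [sub_zero] at this
    exact this
  have k1 : K1 0 - K1 T = 1 := by
    simp only [hK1]
    have a1 : μ * (0 - T / 2) = - (μ * T / 2) := by ring
    have a2 : μ * (T - T / 2) = μ * T / 2 := by ring
    rw [a1, a2, Real.sin_neg, hD]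
    field_simp
    ring
  have c2 : cor T f g 0 = ∫ t in (0 : ℝ)..T, f t * g t := by
    unfold cor
    refine intervalIntegral.integral_congr fun t _ => ?_
    rw [sub_zero]
  rw [c0, c1, k0, ← c2]
  linear_combination (cor T f g 0) * k1

/-! ### Bounds -/

lemma BB_le {K f g : ℝ → ℝ} (hK : Continuous K) (hf : Continuous f) (hg : Continuous g)
    (hT : 0 < T) {M : ℝ} (hM : ∀ s, |cor T f g s| ≤ M) :
    |BB T K f g| ≤ (∫ s in (0 : ℝ)..T, |K s|) * M := by
  unfold BB
  rw [← intervalIntegral.integral_mul_const]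
  refine (intervalIntegral.abs_integral_le_integral_abs hT.le).trans ?_
  refine intervalIntegral.integral_mono_on hT.le ?_ ?_ fun s _ => ?_
  · exact (hK.mul (cor_cont hf hg)).abs.intervalIntegrable _ _
  · exact (hK.abs.mul_const _).intervalIntegrable _ _
  · rw [abs_mul]
    exact mul_le_mul_of_nonneg_left (hM s) (abs_nonneg _)

lemma BB_self_le {K f : ℝ → ℝ} (hK : Continuous K) (hf : Continuous f)
    (p : ∀ t, f (t + T) = f t) (hT : 0 < T) :
    |BB T K f f| ≤ (∫ s in (0 : ℝ)..T, |K s|) * ∫ t in (0 : ℝ)..T, f t ^ 2 := by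
  refine BB_le hK hf hf hT fun s => ?_
  have e1 : ∫ t in (0 : ℝ)..T, f (t - s) ^ 2 = ∫ t in (0 : ℝ)..T, f t ^ 2 := by
    have := int_shift (T := T) (F := fun t => f t ^ 2) (fun t => by simp only [p]) (-s)
    simpa [sub_eq_add_neg] using this
  have e2 : ∫ t in (0 : ℝ)..T, (f (t - s) ^ 2 + f t ^ 2) / 2 = ∫ t in (0 : ℝ)..T, f t ^ 2 := by
    have : ∀ t, (f (t - s) ^ 2 + f t ^ 2) / 2 = f (t - s) ^ 2 * (1 / 2) + f t ^ 2 * (1 / 2) := by
      intro t; ring
    simp only [this]
    rw [intervalIntegral.integral_add, intervalIntegral.integral_mul_const,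
      intervalIntegral.integral_mul_const, e1]
    · ring
    · exact Continuous.intervalIntegrable (by fun_prop) _ _
    · exact Continuous.intervalIntegrable (by fun_prop) _ _
  rw [← e2]
  unfold cor
  refine (intervalIntegral.abs_integral_le_integral_abs hT.le).trans ?_
  refine intervalIntegral.integral_mono_on hT.le ?_ ?_ fun t _ => ?_
  · exact Continuous.intervalIntegrable (by fun_prop) _ _
  · exact Continuous.intervalIntegrable (by fun_prop) _ _
  · rw [abs_le]
    constructor
    · nlinarith [sq_nonneg (f (t - s) + f t)]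
    · nlinarith [sq_nonneg (f (t - s) - f t)]

lemma cor_mono {f g f' g' : ℝ → ℝ} (hf : Continuous f) (hg : Continuous g) (hf' : Continuous f')
    (hg' : Continuous g') (hT : 0 < T) (h1 : ∀ t, |f t| ≤ f' t) (h2 : ∀ t, |g t| ≤ g' t) (s : ℝ) :
    |cor T f g s| ≤ cor T f' g' s := by
  unfold cor
  refine (intervalIntegral.abs_integral_le_integral_abs hT.le).trans ?_
  refine intervalIntegral.integral_mono_on hT.le ?_ ?_ fun t _ => ?_
  · exact Continuous.intervalIntegrable (by fun_prop) _ _
  · exact Continuous.intervalIntegrable (by fun_prop) _ _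
  · rw [abs_mul]
    exact mul_le_mul (h1 _) (h2 _) (abs_nonneg _) ((abs_nonneg _).trans (h1 _))

/-- **The rearrangement bound.** -/
lemma BB_mono_le {K r w hh : ℝ → ℝ} (hK : Continuous K) (hKs : ∀ s, K (T - s) = K s)
    (hr : Continuous r) (hw : Continuous w) (hh0 : Continuous hh) (hm : MonotoneOn hh (Ici 0))
    (pw : ∀ t, w (t + T) = w t) (hT : 0 < T) (hrw : ∀ t, |r t| ≤ hh |w t|) :
    |BB T K r w| ≤ (∫ s in (0 : ℝ)..T, |K s|) * ∫ t in (0 : ℝ)..T, |w t| * hh |w t| := by
  set H : ℝ → ℝ := fun t => hh |w t| with hH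
  set W : ℝ → ℝ := fun t => |w t| with hW
  have cH : Continuous H := hh0.comp hw.abs
  have cW : Continuous W := hw.abs
  have pH : ∀ t, H (t + T) = H t := fun t => by simp only [hH, pw]
  have pW : ∀ t, W (t + T) = W t := fun t => by simp only [hW, pw]
  have cKa : Continuous fun s => |K s| := hK.abs
  have h1 : |BB T K r w| ≤ BB T (fun s => |K s|) H W := by
    unfold BB
    refine (intervalIntegral.abs_integral_le_integral_abs hT.le).trans ?_
    refine intervalIntegral.integral_mono_on hT.le ?_ ?_ fun s _ => ?_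
    · exact (hK.mul (cor_cont hr hw)).abs.intervalIntegrable _ _
    · exact (cKa.mul (cor_cont cH cW)).intervalIntegrable _ _
    · rw [abs_mul]
      exact mul_le_mul_of_nonneg_left (cor_mono hr hw cH cW hT hrw (fun t => le_rfl) s)
        (abs_nonneg _)
  have h2 : BB T (fun s => |K s|) H W = BB T (fun s => |K s|) W H :=
    BB_symm (fun s => by simp only [hKs]) pH pW
  set I := ∫ t in (0 : ℝ)..T, |w t| * hh |w t| with hI
  have h3 : ∀ s, cor T H W s + cor T W H s ≤ 2 * I := by
    intro s
    have e1 : ∫ t in (0 : ℝ)..T, W (t - s) * H (t - s) = I := by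
      have := int_shift (T := T) (F := fun t => W t * H t) (fun t => by simp only [pW, pH]) (-s)
      simpa [sub_eq_add_neg, hI, hW, hH] using this
    have e2 : ∫ t in (0 : ℝ)..T, (W (t - s) * H (t - s) + W t * H t) = 2 * I := by
      rw [intervalIntegral.integral_add, e1]
      · simp only [hW, hH, ← hI]
        ring
      · exact Continuous.intervalIntegrable (by fun_prop) _ _
      · exact Continuous.intervalIntegrable (by fun_prop) _ _
    rw [← e2]
    unfold cor
    rw [← intervalIntegral.integral_add]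
    · refine intervalIntegral.integral_mono_on hT.le ?_ ?_ fun t _ => ?_
      · exact Continuous.intervalIntegrable (by fun_prop) _ _
      · exact Continuous.intervalIntegrable (by fun_prop) _ _
      · have ha : 0 ≤ W (t - s) := abs_nonneg _
        have hb : 0 ≤ W t := abs_nonneg _
        have hmm : ∀ p q : ℝ, 0 ≤ p → 0 ≤ q → p ≤ q → hh p ≤ hh q := fun p q hp hq hpq =>
          hm hp hq hpq
        rcases le_total (W (t - s)) (W t) with hle | hle
        · have := hmm _ _ ha hb hle
          simp only [hH]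
          simp only [hW] at this hle ⊢
          nlinarith [mul_nonneg (sub_nonneg.2 hle) (sub_nonneg.2 this)]
        · have := hmm _ _ hb ha hle
          simp only [hH]
          simp only [hW] at this hle ⊢
          nlinarith [mul_nonneg (sub_nonneg.2 hle) (sub_nonneg.2 this)]
    · exact Continuous.intervalIntegrable (by fun_prop) _ _
    · exact Continuous.intervalIntegrable (by fun_prop) _ _
  have h4 : BB T (fun s => |K s|) H W + BB T (fun s => |K s|) W H ≤
      (∫ s in (0 : ℝ)..T, |K s|) * (2 * I) := by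
    unfold BB
    rw [← intervalIntegral.integral_add, ← intervalIntegral.integral_mul_const]
    · refine intervalIntegral.integral_mono_on hT.le ?_ ?_ fun s _ => ?_
      · exact ((cKa.mul (cor_cont cH cW)).add (cKa.mul (cor_cont cW cH))).intervalIntegrable _ _
      · exact (cKa.mul_const _).intervalIntegrable _ _
      · have := mul_le_mul_of_nonneg_left (h3 s) (abs_nonneg (K s))
        linarith
    · exact (cKa.mul (cor_cont cH cW)).intervalIntegrable _ _
    · exact (cKa.mul (cor_cont cW cH)).intervalIntegrable _ _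
  rw [← h2] at h4
  linarith

/-! ### Derivatives in the parameter -/

lemma cor_cont2 {u v : ℝ → ℝ → ℝ} (cu : Continuous fun p : ℝ × ℝ => u p.1 p.2)
    (cv : Continuous fun p : ℝ × ℝ => v p.1 p.2) :
    Continuous fun p : ℝ × ℝ => cor T (u p.1) (v p.1) p.2 := by
  unfold cor
  refine intervalIntegral.continuous_parametric_intervalIntegral_of_continuous'
    (f := fun (p : ℝ × ℝ) t => u p.1 (t - p.2) * v p.1 t) ?_ 0 T
  have c1 : Continuous fun q : (ℝ × ℝ) × ℝ => u q.1.1 (q.2 - q.1.2) :=
    cu.comp (by fun_prop : Continuous fun q : (ℝ × ℝ) × ℝ => ((q.1.1, q.2 - q.1.2) : ℝ × ℝ))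
  have c2 : Continuous fun q : (ℝ × ℝ) × ℝ => v q.1.1 q.2 :=
    cv.comp (by fun_prop : Continuous fun q : (ℝ × ℝ) × ℝ => ((q.1.1, q.2) : ℝ × ℝ))
  exact c1.mul c2

lemma BB_deriv {K : ℝ → ℝ} (hK : Continuous K) {u ux v vx : ℝ → ℝ → ℝ}
    (cu : Continuous fun p : ℝ × ℝ => u p.1 p.2) (cux : Continuous fun p : ℝ × ℝ => ux p.1 p.2)
    (cv : Continuous fun p : ℝ × ℝ => v p.1 p.2) (cvx : Continuous fun p : ℝ × ℝ => vx p.1 p.2)
    (hu : ∀ x t, HasDerivAt (fun y => u y t) (ux x t) x)
    (hv : ∀ x t, HasDerivAt (fun y => v y t) (vx x t) x) (x : ℝ) :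
    HasDerivAt (fun y => BB T K (u y) (v y)) (BB T K (ux x) (v x) + BB T K (u x) (vx x)) x := by
  have h1 : ∀ x s, HasDerivAt (fun y => cor T (u y) (v y) s)
      (cor T (ux x) (v x) s + cor T (u x) (vx x) s) x := by
    intro x s
    have c1 : ∀ {w : ℝ → ℝ → ℝ}, (Continuous fun p : ℝ × ℝ => w p.1 p.2) →
        Continuous fun p : ℝ × ℝ => w p.1 (p.2 - s) := fun hw =>
      hw.comp (by fun_prop : Continuous fun q : ℝ × ℝ => ((q.1, q.2 - s) : ℝ × ℝ))
    have h2 := hasDerivAt_param (f := fun y t => u y (t - s) * v y t)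
      (f' := fun y t => ux y (t - s) * v y t + u y (t - s) * vx y t)
      ((c1 cu).mul cv) (((c1 cux).mul cv).add ((c1 cu).mul cvx))
      (fun x t => (hu x (t - s)).fun_mul (hv x t)) 0 T x
    rw [intervalIntegral.integral_add] at h2
    · exact h2
    · exact ii_t (f := fun y t => ux y (t - s) * v y t) ((c1 cux).mul cv) x 0 T
    · exact ii_t (f := fun y t => u y (t - s) * vx y t) ((c1 cu).mul cvx) x 0 T
  have cK : Continuous fun p : ℝ × ℝ => K p.2 := hK.comp continuous_snd
  have h3 := hasDerivAt_param (f := fun y s => K s * cor T (u y) (v y) s)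
    (f' := fun y s => K s * (cor T (ux y) (v y) s + cor T (u y) (vx y) s))
    (cK.mul (cor_cont2 cu cv)) (cK.mul ((cor_cont2 cux cv).add (cor_cont2 cu cvx)))
    (fun x s => (h1 x s).const_mul (K s)) 0 T x
  refine h3.congr_deriv ?_
  unfold BB
  rw [← intervalIntegral.integral_add]
  · refine intervalIntegral.integral_congr fun s _ => ?_
    ring
  · exact ii_t (f := fun y s => K s * cor T (ux y) (v y) s) (cK.mul (cor_cont2 cux cv)) x 0 T
  · exact ii_t (f := fun y s => K s * cor T (u y) (vx y) s) (cK.mul (cor_cont2 cu cvx)) x 0 T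


namespace IsBreather

variable {N : ℕ} {c : ℕ → ℝ} {u : ℝ → ℝ → ℝ}

/-- the time mean of a breather vanishes -/
lemma mean_zero (hN : 1 ≤ N) (h : IsBreather N c T u) (hT : 0 < T) (x : ℝ) :
    ∫ t in (0 : ℝ)..T, u x t = 0 := by
  have h1 := intervalIntegral.integral_comp_sub_left (a := 0) (b := T) (fun t => u x t) T
  rw [sub_self, sub_zero] at h1
  have h2 : (fun t => u x (T - t)) = fun t => - u x t := by
    funext t
    have : T - t = -t + T := by ring
    rw [this, h.periodic, odd hN h hT]
  rw [h2, intervalIntegral.integral_neg] at h1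
  linarith

/-- **The nonexistence criterion.** Let `μ = √c₁`, `sin (μ T / 2) ≠ 0`, let `κ` be the `L¹` norm of
the kernel `(cos (μ (s - T/2)) - a) / (2 μ sin (μ T / 2))`, `0 ≤ η`, `η κ < 2`, and let `hh` be a
nondecreasing majorant of `|g(y) - c₁ y|` on the range of `u`. -/
theorem kernel_star (hN : 1 ≤ N) (h : IsBreather N c T u) (hT : 0 < T) (hc1 : 0 < c 1)
    (hs : Real.sin (√(c 1) * T / 2) ≠ 0) (a : ℝ) {η : ℝ} (hη : 0 ≤ η)
    (hκ : η * (∫ s in (0 : ℝ)..T, |KK T √(c 1) a s|) < 2)
    {hh : ℝ → ℝ} (hh0 : Continuous hh) (hm : MonotoneOn hh (Ici 0))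
    (hr : ∀ x t, |gg N c (u x t) - c 1 * u x t| ≤ hh |u x t|)
    (hcrit : ∀ x t, η * (∫ s in (0 : ℝ)..T, |KK T √(c 1) a s|) * (|u x t| * hh |u x t|) ≤
      η * u x t ^ 2 + (u x t * gg N c (u x t) - 2 * GG N c (u x t))) :
    ∀ x t, u x t = 0 := by
  set μ := √(c 1) with hμd
  have hμ2 : μ ^ 2 = c 1 := Real.sq_sqrt hc1.le
  have hμ : μ ≠ 0 := by
    intro h0
    rw [h0] at hμ2
    have : (0 : ℝ) ^ 2 = 0 := by norm_num
    linarith
  set K : ℝ → ℝ := KK T μ a with hK
  set κ := ∫ s in (0 : ℝ)..T, |K s| with hκd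
  have cK : Continuous K := KK_cont T μ a
  have sK : ∀ s, K (T - s) = K s := KK_symm T μ a
  have hκ0 : 0 ≤ κ := intervalIntegral.integral_nonneg hT.le fun s _ => abs_nonneg _
  have w := h.w
  have cu := w.cu
  have cux := w.cux
  have cut := w.cut
  have cuxx := w.cuxx
  have cuxt := w.cuxt
  have cutt := w.cutt
  have cg := continuous_gg N c
  have cG := continuous_GG N c
  have p := h.periodic
  have px := w.per_x p
  have pt := w.per_t p
  have pxx : ∀ x t, dx (dx u) x (t + T) = dx (dx u) x t := by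
    intro x t
    have e : (fun y => dx u y (t + T)) = fun y => dx u y t := by funext y; exact px y t
    unfold dx at e ⊢
    exact congrArg (fun f => deriv f x) e
  set M : ℝ → ℝ := fun x => ∫ t in (0 : ℝ)..T, u x t ^ 2 with hM
  set M1 : ℝ → ℝ := fun x => ∫ t in (0 : ℝ)..T, 2 * (u x t * dx u x t) with hM1
  set M2 : ℝ → ℝ := fun x => ∫ t in (0 : ℝ)..T, 2 * (dx u x t ^ 2 + u x t * dx (dx u) x t) with hM2
  set A1 : ℝ → ℝ := fun x => 2 * BB T K (dx u x) (u x) with hA1
  set A2 : ℝ → ℝ := fun x => 2 * (BB T K (dx (dx u) x) (u x) + BB T K (dx u x) (dx u x)) with hA2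
  have hd1 : ∀ x, HasDerivAt M1 (M2 x) x := by
    intro x
    refine hasDerivAt_param (f := fun y t => 2 * (u y t * dx u y t))
      (f' := fun x t => 2 * (dx u x t ^ 2 + u x t * dx (dx u) x t))
      (by fun_prop) (by fun_prop) (fun x t => ?_) 0 T x
    refine (((w.hx x t).fun_mul (w.hxx x t)).const_mul 2).congr_deriv ?_
    ring
  have ha1 : ∀ x, HasDerivAt A1 (A2 x) x := by
    intro x
    exact (BB_deriv (T := T) cK cux cuxx cu cux w.hxx w.hx x).const_mul 2
  set F1 : ℝ → ℝ := fun x => M1 x + η * A1 x with hF1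
  set F2 : ℝ → ℝ := fun x => M2 x + η * A2 x with hF2
  have hf1 : ∀ x, HasDerivAt F1 (F2 x) x := fun x => (hd1 x).add ((ha1 x).const_mul η)
  have hM2e : ∀ x, M2 x = ∫ t in (0 : ℝ)..T, (2 * (2 * dx u x t ^ 2 +
        (u x t * gg N c (u x t) - 2 * GG N c (u x t)))) := by
    intro x
    have e1 : ∫ t in (0 : ℝ)..T, (dt u x t * dt u x t + u x t * dt (dt u) x t) = 0 := by
      refine int_deriv_zero (fun t => (w.ht x t).fun_mul (w.htt x t)) ?_ ?_
      · exact ((cont_t cut x).mul (cont_t cut x)).add ((cont_t cu x).mul (cont_t cutt x))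
      · rw [h.zero, h.zero_T, zero_mul, zero_mul]
    have e2 := h.energy hT x
    have ix : ∀ f : ℝ → ℝ → ℝ, Continuous (fun p : ℝ × ℝ => f p.1 p.2) →
        IntervalIntegrable (fun t => f x t) volume 0 T := fun f hf => ii_t hf x 0 T
    have e3 : M2 x = ∫ t in (0 : ℝ)..T, (2 * (2 * dx u x t ^ 2 +
        (u x t * gg N c (u x t) - 2 * GG N c (u x t))) +
        2 * (dt u x t * dt u x t + u x t * dt (dt u) x t) -
        4 * (dx u x t ^ 2 / 2 + dt u x t ^ 2 / 2 - GG N c (u x t))) := by
      simp only [hM2]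
      refine intervalIntegral.integral_congr fun t _ => ?_
      have hw := h.wave x t
      have e : dx (dx u) x t = dt (dt u) x t + gg N c (u x t) := by rw [hw]; ring
      rw [e]
      ring
    rw [e3, intervalIntegral.integral_sub, intervalIntegral.integral_add,
      intervalIntegral.integral_const_mul 2 (fun t => dt u x t * dt u x t + u x t * dt (dt u) x t),
      intervalIntegral.integral_const_mul 4, e1, e2, mul_zero, mul_zero, add_zero, sub_zero]
    · exact ix (fun x t => 2 * (2 * dx u x t ^ 2 + (u x t * gg N c (u x t) -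
        2 * GG N c (u x t)))) (by fun_prop)
    · exact ix (fun x t => 2 * (dt u x t * dt u x t + u x t * dt (dt u) x t)) (by fun_prop)
    · exact (ix (fun x t => 2 * (2 * dx u x t ^ 2 + (u x t * gg N c (u x t) -
        2 * GG N c (u x t)))) (by fun_prop)).add
        (ix (fun x t => 2 * (dt u x t * dt u x t + u x t * dt (dt u) x t)) (by fun_prop))
    · exact ix (fun x t => 4 * (dx u x t ^ 2 / 2 + dt u x t ^ 2 / 2 - GG N c (u x t)))
        (by fun_prop)
  -- the quadratic form
  have hB : ∀ x, BB T K (dx (dx u) x) (u x) = (∫ t in (0 : ℝ)..T, u x t ^ 2) +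
      BB T K (fun t => gg N c (u x t) - c 1 * u x t) (u x) := by
    intro x
    have cux' := cont_t cu x
    have cutt' := cont_t cutt x
    have e1 : dx (dx u) x = fun t => (fun t => dt (dt u) x t + μ ^ 2 * u x t) t +
        (fun t => gg N c (u x t) - c 1 * u x t) t := by
      funext t
      simp only
      rw [h.wave x t, hμ2]
      ring
    have c1 : Continuous fun t => dt (dt u) x t + μ ^ 2 * u x t := by fun_prop
    have c2 : Continuous fun t => gg N c (u x t) - c 1 * u x t := by fun_prop
    rw [e1, BB_add cK c1 c2 cux',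
      BB_kernel hμ hs (w.ht x) (w.htt x) cutt' (p x) (pt x) ?_ cux' (mean_zero hN h hT x)]
    · congr 1
      refine intervalIntegral.integral_congr fun t _ => ?_
      ring
    · intro t
      have e2 := h.wave x t
      have e3 := h.wave x (t + T)
      rw [e3, e2, pxx, p]
  have hF2n : ∀ x, 2 * (2 - η * κ) * (∫ t in (0 : ℝ)..T, dx u x t ^ 2) ≤ F2 x := by
    intro x
    have cu' := cont_t cu x
    have cux' := cont_t cux x
    have c2 : Continuous fun t => gg N c (u x t) - c 1 * u x t := by fun_prop
    have b1 := BB_self_le cK cux' (px x) hT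
    have b2 := BB_mono_le cK sK c2 cu' hh0 hm (p x) hT (hr x)
    rw [← hκd] at b1 b2
    have b1' := (abs_le.1 b1).1
    have b2' := (abs_le.1 b2).1
    have i1 : ∫ t in (0 : ℝ)..T, η * κ * (|u x t| * hh |u x t|) ≤
        ∫ t in (0 : ℝ)..T, (η * u x t ^ 2 + (u x t * gg N c (u x t) - 2 * GG N c (u x t))) := by
      refine intervalIntegral.integral_mono_on hT.le ?_ ?_ fun t _ => hcrit x t
      · exact Continuous.intervalIntegrable (by fun_prop) _ _
      · exact Continuous.intervalIntegrable (by fun_prop) _ _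
    rw [intervalIntegral.integral_const_mul, intervalIntegral.integral_add,
      intervalIntegral.integral_const_mul] at i1
    rotate_left
    · exact Continuous.intervalIntegrable (by fun_prop) _ _
    · exact Continuous.intervalIntegrable (by fun_prop) _ _
    have e4 : M2 x = 4 * (∫ t in (0 : ℝ)..T, dx u x t ^ 2) +
        2 * ∫ t in (0 : ℝ)..T, (u x t * gg N c (u x t) - 2 * GG N c (u x t)) := by
      rw [hM2e x, ← intervalIntegral.integral_const_mul, ← intervalIntegral.integral_const_mul,
        ← intervalIntegral.integral_add]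
      · refine intervalIntegral.integral_congr fun t _ => ?_
        ring
      · exact Continuous.intervalIntegrable (by fun_prop) _ _
      · exact Continuous.intervalIntegrable (by fun_prop) _ _
    have e5 : A2 x = 2 * ((∫ t in (0 : ℝ)..T, u x t ^ 2) +
      BB T K (fun t => gg N c (u x t) - c 1 * u x t) (u x) + BB T K (dx u x) (dx u x)) := by
      simp only [hA2]
      rw [hB x]
    simp only [hF2]
    rw [e4, e5]
    have k1 := mul_le_mul_of_nonneg_left b1' hη
    have k2 := mul_le_mul_of_nonneg_left b2' hη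
    nlinarith [k1, k2, i1]
  have hpos : 0 < 2 - η * κ := by linarith
  have hI0 : ∀ x, 0 ≤ ∫ t in (0 : ℝ)..T, dx u x t ^ 2 := fun x =>
    intervalIntegral.integral_nonneg hT.le fun t _ => sq_nonneg _
  have hmono : Monotone F1 := by
    apply monotone_of_deriv_nonneg
    · intro x; exact (hf1 x).differentiableAt
    · intro x; rw [(hf1 x).deriv]
      exact le_trans (mul_nonneg (by linarith) (hI0 x)) (hF2n x)
  have hsm : ∀ ε > 0, ∃ X, 1 ≤ X ∧ ∀ x, X ≤ |x| → |F1 x| ≤ ε := by
    intro ε hε
    have hq : 0 < 2 * T * (1 + η * κ) := by positivity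
    set d := min 1 (ε / (2 * T * (1 + η * κ))) with hdd
    have hd0 : 0 < d := by positivity
    obtain ⟨X, hX1, hX⟩ := h.small hT hd0
    refine ⟨X, hX1, fun x hx => ?_⟩
    have h5 : d ≤ 1 := min_le_left _ _
    have h6 : d ≤ ε / (2 * T * (1 + η * κ)) := min_le_right _ _
    have h7 : d * (2 * T * (1 + η * κ)) ≤ ε := (le_div_iff₀ hq).1 h6
    have h8 : d * d ≤ d := by nlinarith
    have m1 : |M1 x| ≤ 2 * d * T := by
      apply abs_int_le hT
      intro t
      obtain ⟨h1, h2, h3⟩ := hX x t hx
      rw [abs_mul, abs_mul, abs_two]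
      have h9 : |u x t| * |dx u x t| ≤ d * d := mul_le_mul h1 h2 (abs_nonneg _) hd0.le
      linarith
    have m2 : |BB T K (dx u x) (u x)| ≤ κ * (d * T) := by
      refine BB_le cK (cont_t cux x) (cont_t cu x) hT fun s => ?_
      unfold cor
      apply abs_int_le hT
      intro t
      rw [abs_mul]
      have h9 : |dx u x (t - s)| * |u x t| ≤ d * d :=
        mul_le_mul (hX x (t - s) hx).2.1 (hX x t hx).1 (abs_nonneg _) hd0.le
      linarith
    have m3 : |F1 x| ≤ |M1 x| + η * (2 * |BB T K (dx u x) (u x)|) := by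
      simp only [hF1, hA1]
      refine (abs_add_le _ _).trans ?_
      rw [abs_mul, abs_mul, abs_of_nonneg hη, abs_two]
    have m4 := mul_le_mul_of_nonneg_left m2 hη
    nlinarith [m1, m3, m4, h7]
  have hF10 : ∀ x, F1 x = 0 := by
    intro x
    apply le_antisymm
    · refine le_of_forall_pos_le_add fun ε hε => ?_
      obtain ⟨X, hX1, hX⟩ := hsm ε hε
      have h1 : x ≤ max x X := le_max_left _ _
      have h2 : X ≤ |max x X| := (le_max_right x X).trans (le_abs_self _)
      have h3 := hmono h1
      have h4 := hX _ h2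
      linarith [le_abs_self (F1 (max x X))]
    · refine le_of_forall_pos_le_add fun ε hε => ?_
      obtain ⟨X, hX1, hX⟩ := hsm ε hε
      have h1 : min x (-X) ≤ x := min_le_left _ _
      have h2 : X ≤ |min x (-X)| := by
        have h3 : min x (-X) ≤ -X := min_le_right _ _
        rw [abs_of_nonpos (by linarith)]
        linarith
      have h3 := hmono h1
      have h4 := hX _ h2
      linarith [neg_abs_le (F1 (min x (-X)))]
  have hF20 : ∀ x, F2 x = 0 := by
    intro x
    have e1 : F1 = fun _ => (0 : ℝ) := by funext x; exact hF10 x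
    have e2 := (hf1 x).deriv
    rw [e1] at e2
    simpa using e2.symm
  have hux : ∀ x t, dx u x t = 0 := by
    intro x t
    have h1 := hF2n x
    rw [hF20 x] at h1
    have h2 : (∫ t in (0 : ℝ)..T, dx u x t ^ 2) ≤ 0 := by
      by_contra hcon
      push Not at hcon
      have := mul_pos (mul_pos two_pos hpos) hcon
      linarith
    have h3 : ∀ s ∈ Icc 0 T, dx u x s ^ 2 = 0 :=
      zero_of_int ((cont_t cux x).pow 2) (fun s => sq_nonneg _) hT h2
    have hper : Function.Periodic (fun s => dx u x s) T := fun s => px x s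
    obtain ⟨y, hy, hy2⟩ := hper.exists_mem_Ico₀ hT t
    have := h3 y ⟨hy.1, hy.2.le⟩
    exact hy2.trans ((pow_eq_zero_iff two_ne_zero).1 this)
  intro x t
  have hcst : ∀ x y, u x t = u y t := by
    apply is_const_of_deriv_eq_zero
    · intro x; exact (w.hx x t).differentiableAt
    · intro x; rw [(w.hx x t).deriv, hux]
  have h0 : |u x t| ≤ 0 := by
    refine le_of_forall_pos_le_add fun ε hε => ?_
    obtain ⟨X, hX1, hX⟩ := h.small hT hε
    rw [hcst x X]
    have := (hX X t (le_abs_self X)).1
    linarith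
  exact abs_nonpos_iff.1 h0

end IsBreather

end H53.Br
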