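import Mathlib
import Pool.Agent.H53.Br.Det2

open MeasureTheory Set Filter Topology Real

namespace H53.Br

variable {N : ℕ} {c : ℕ → ℝ} {T : ℝ} {u v : ℝ → ℝ → ℝ}

/-! ### Transformations of breathers -/

section

variable {w wx wt wxx wxt wtt : ℝ → ℝ → ℝ}

lemma IsW.eqs (h : IsW w wx wt wxx wxt wtt) :
    dx w = wx ∧ dt w = wt ∧ dx (dx w) = wxx ∧ dt (dx w) = wxt ∧ dt (dt w) = wtt := by
  have e1 : dx w = wx := by funext x t; exact (h.hx x t).deriv
  have e2 : dt w = wt := by funext x t; exact (h.ht x t).deriv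
  refine ⟨e1, e2, ?_, ?_, ?_⟩
  · rw [e1]; funext x t; exact (h.hxx x t).deriv
  · rw [e1]; funext x t; exact (h.hxt x t).deriv
  · rw [e2]; funext x t; exact (h.htt x t).deriv

lemma aff_x {f : ℝ → ℝ} {f' : ℝ} {σ s x : ℝ} (h : HasDerivAt f f' (σ * x + s)) (e : ℝ) :
    HasDerivAt (fun y => e * f (σ * y + s)) (e * σ * f') x := by
  have h1 : HasDerivAt (fun y => σ * y + s) σ x := by
    simpa using ((hasDerivAt_id x).const_mul σ).add_const s
  refine ((h.comp x h1).const_mul e).congr_deriv ?_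
  ring

lemma aff_t {f : ℝ → ℝ} {f' : ℝ} {τ t : ℝ} (h : HasDerivAt f f' (t + τ)) (e : ℝ) :
    HasDerivAt (fun y => e * f (y + τ)) (e * f') t := by
  have h1 : HasDerivAt (fun y => y + τ) 1 t := by
    simpa using (hasDerivAt_id t).add_const τ
  refine ((h.comp t h1).const_mul e).congr_deriv ?_
  ring

lemma IsW.aff (h : IsW w wx wt wxx wxt wtt) (e σ s τ : ℝ) (hσ : σ * σ = 1) :
    IsW (fun x t => e * w (σ * x + s) (t + τ)) (fun x t => e * σ * wx (σ * x + s) (t + τ))
      (fun x t => e * wt (σ * x + s) (t + τ)) (fun x t => e * wxx (σ * x + s) (t + τ))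
      (fun x t => e * σ * wxt (σ * x + s) (t + τ)) (fun x t => e * wtt (σ * x + s) (t + τ)) := by
  have hc : ∀ f : ℝ → ℝ → ℝ, Continuous (fun p : ℝ × ℝ => f p.1 p.2) → ∀ d : ℝ,
      Continuous (fun p : ℝ × ℝ => d * f (σ * p.1 + s) (p.2 + τ)) := by
    intro f hf d
    exact continuous_const.mul (hf.comp
      (by fun_prop : Continuous fun p : ℝ × ℝ => ((σ * p.1 + s, p.2 + τ) : ℝ × ℝ)))
  refine ⟨hc _ h.cu _, hc _ h.cux _, hc _ h.cut _, hc _ h.cuxx _, hc _ h.cuxt _, hc _ h.cutt _,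
    ?_, ?_, ?_, ?_, ?_, ?_⟩
  · intro x t
    exact aff_x (f := fun y => w y (t + τ)) (h.hx _ _) e
  · intro x t
    exact aff_t (f := fun y => w (σ * x + s) y) (h.ht _ _) e
  · intro x t
    refine (aff_x (f := fun y => wx y (t + τ)) (h.hxx _ _) (e * σ)).congr_deriv ?_
    rw [mul_assoc e, hσ, mul_one]
  · intro x t
    exact aff_t (f := fun y => wx (σ * x + s) y) (h.hxt _ _) (e * σ)
  · intro x t
    exact aff_x (f := fun y => wt y (t + τ)) (h.htx _ _) e
  · intro x t
    exact aff_t (f := fun y => wt (σ * x + s) y) (h.htt _ _) e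

end

lemma per_dx {w : ℝ → ℝ → ℝ} (hp : ∀ x t, w x (t + T) = w x t) (x t : ℝ) :
    dx w x (t + T) = dx w x t := by
  unfold dx
  congr 1
  funext y
  exact hp y t

lemma per_dt {w : ℝ → ℝ → ℝ} (hp : ∀ x t, w x (t + T) = w x t) (x t : ℝ) :
    dt w x (t + T) = dt w x t := by
  unfold dt
  have h1 := deriv_comp_add_const (f := fun s => w x s) T t
  rw [← h1]
  congr 1
  funext s
  exact hp x s

lemma pow_add_le (m : ℕ) (hm : m ≤ 2) {a b : ℝ} (ha : 0 ≤ a) (hb : 0 ≤ b) :
    (a + b) ^ m ≤ 2 * (a ^ m + b ^ m) := by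
  interval_cases m
  · norm_num
  · simp; linarith
  · nlinarith [sq_nonneg (a - b)]

/-- The symmetries of the set of breathers. -/
theorem IsBreather.aff (h : IsBreather N c T u) (hT : 0 < T) {e σ : ℝ} (s τ : ℝ)
    (he : e = 1 ∨ e = -1) (hσ : σ = 1 ∨ σ = -1) (h0 : ∀ x, u x τ = 0) :
    IsBreather N c T (fun x t => e * u (σ * x + s) (t + τ)) := by
  have hσ2 : σ * σ = 1 := by rcases hσ with rfl | rfl <;> norm_num
  have hw := h.w.aff e σ s τ hσ2
  obtain ⟨e1, e2, e3, e4, e5⟩ := hw.eqs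
  refine ⟨?_, ?_, ?_, ?_, ?_⟩
  · have h1 : ContDiff ℝ 2 (fun p : ℝ × ℝ => ((σ * p.1 + s, p.2 + τ) : ℝ × ℝ)) := by fun_prop
    exact contDiff_const.mul (h.smooth.comp h1)
  · intro x t
    rw [e5, e3]
    have h1 := h.wave (σ * x + s) (t + τ)
    have h2 : gg N c (e * u (σ * x + s) (t + τ)) = e * gg N c (u (σ * x + s) (t + τ)) := by
      rcases he with rfl | rfl
      · rw [one_mul, one_mul]
      · rw [neg_one_mul, gg_neg, neg_one_mul]
    simp only
    rw [h1, h2]; ring
  · intro x t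
    have := h.periodic (σ * x + s) (t + τ)
    rw [← this]
    congr 2
    ring
  · intro x
    rw [zero_add, h0, mul_zero]
  · -- decay
    have key : ∀ m : ℕ, m ≤ 2 → ∀ w ∈ ({u, dx u, dt u, dx (dx u), dt (dx u)} : Set (ℝ → ℝ → ℝ)),
        ∀ d : ℝ, |d| ≤ 1 → ∃ C, ∀ x t, |x| ^ m * |d * w (σ * x + s) (t + τ)| ≤ C := by
      intro m hm w hwm d hd
      have hper : ∀ x t, w x (t + T) = w x t := by
        simp only [Set.mem_insert_iff, Set.mem_singleton_iff] at hwm
        rcases hwm with rfl | rfl | rfl | rfl | rfl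
        · exact h.periodic
        · exact per_dx h.periodic
        · exact per_dt h.periodic
        · exact per_dx (per_dx h.periodic)
        · exact per_dt (per_dx h.periodic)
      have hb : ∀ j : ℕ, j ≤ 2 → ∃ C, ∀ x t, |x| ^ j * |w x t| ≤ C := by
        intro j hj
        obtain ⟨C, hC⟩ := h.decay j hj w hwm
        refine ⟨C, fun x t => ?_⟩
        have hp : Function.Periodic (fun s => w x s) T := fun s => hper x s
        obtain ⟨y, hy, hy2⟩ := hp.exists_mem_Ico₀ hT t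
        have h2 : w x t = w x y := hy2
        rw [h2]
        exact hC x y ⟨hy.1, hy.2.le⟩
      obtain ⟨C0, hC0⟩ := hb 0 (by norm_num)
      obtain ⟨Cm, hCm⟩ := hb m hm
      refine ⟨2 * (Cm + |s| ^ m * C0), fun x t => ?_⟩
      set y := σ * x + s with hy
      have h1 : |x| ≤ |y| + |s| := by
        have h2 : |x| = |y - s| := by
          rw [hy, add_sub_cancel_right, abs_mul]
          rcases hσ with rfl | rfl <;> simp
        rw [h2]
        exact abs_sub _ _
      have h2 : |x| ^ m ≤ 2 * (|y| ^ m + |s| ^ m) :=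
        (pow_le_pow_left₀ (abs_nonneg x) h1 m).trans (pow_add_le m hm (abs_nonneg _) (abs_nonneg _))
      have h3 := hCm y (t + τ)
      have h4 := hC0 y (t + τ)
      rw [pow_zero, one_mul] at h4
      have h5 : |d * w y (t + τ)| ≤ |w y (t + τ)| := by
        rw [abs_mul]
        have := abs_nonneg (w y (t + τ))
        nlinarith
      calc |x| ^ m * |d * w y (t + τ)| ≤ (2 * (|y| ^ m + |s| ^ m)) * |w y (t + τ)| := by gcongr
        _ = 2 * (|y| ^ m * |w y (t + τ)| + |s| ^ m * |w y (t + τ)|) := by ring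
        _ ≤ 2 * (Cm + |s| ^ m * C0) := by gcongr
    have he1 : |e| ≤ 1 := by rcases he with rfl | rfl <;> simp
    have he2 : |e * σ| ≤ 1 := by
      rcases he with rfl | rfl <;> rcases hσ with rfl | rfl <;> simp
    intro m hm w hwm
    rw [e1, e2] at hwm
    have e3' : dx (fun x t => e * σ * dx u (σ * x + s) (t + τ)) =
        fun x t => e * dx (dx u) (σ * x + s) (t + τ) := by rw [← e3, e1]
    have e4' : dt (fun x t => e * σ * dx u (σ * x + s) (t + τ)) =
        fun x t => e * σ * dt (dx u) (σ * x + s) (t + τ) := by rw [← e4, e1]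
    rw [e3', e4'] at hwm
    simp only [Set.mem_insert_iff, Set.mem_singleton_iff] at hwm
    rcases hwm with rfl | rfl | rfl | rfl | rfl
    · obtain ⟨C, hC⟩ := key m hm u (by simp) e he1
      exact ⟨C, fun x t _ => hC x t⟩
    · obtain ⟨C, hC⟩ := key m hm (dx u) (by simp) (e * σ) he2
      exact ⟨C, fun x t _ => hC x t⟩
    · obtain ⟨C, hC⟩ := key m hm (dt u) (by simp) e he1
      exact ⟨C, fun x t _ => hC x t⟩
    · obtain ⟨C, hC⟩ := key m hm (dx (dx u)) (by simp) e he1
      exact ⟨C, fun x t _ => hC x t⟩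
    · obtain ⟨C, hC⟩ := key m hm (dt (dx u)) (by simp) (e * σ) he2
      exact ⟨C, fun x t _ => hC x t⟩

/-- the zero function is a breather -/
lemma isBreather_zero (N : ℕ) (c : ℕ → ℝ) (T : ℝ) : IsBreather N c T (fun _ _ => 0) := by
  have e1 : dx (fun _ _ => (0 : ℝ)) = fun _ _ => 0 := by
    funext x t; unfold dx; simp
  have e2 : dt (fun _ _ => (0 : ℝ)) = fun _ _ => 0 := by
    funext x t; unfold dt; simp
  refine ⟨contDiff_const, ?_, ?_, ?_, ?_⟩
  · intro x t
    rw [e2, e2, e1, e1, gg_zero]; simp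
  · intro x t; rfl
  · intro x; rfl
  · intro m _ w hw
    rw [e1, e2, e1] at hw
    simp only [Set.mem_insert_iff, Set.mem_singleton_iff, or_self] at hw
    refine ⟨0, fun x t _ => ?_⟩
    rw [hw]
    simp

end H53.Br
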