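import Mathlib
import Pool.Agent.H53.Br.Struct

open MeasureTheory Set Filter Topology Real

namespace H53.Br

variable {N : ℕ} {c : ℕ → ℝ} {T : ℝ} {u v : ℝ → ℝ → ℝ}

lemma IsBreather.shift (h : IsBreather N c T u) (hT : 0 < T) (s : ℝ) :
    IsBreather N c T (fun x t => u (x + s) t) := by
  have := h.aff hT (e := 1) (σ := 1) s 0 (Or.inl rfl) (Or.inl rfl) h.zero
  simpa using this

lemma IsBreather.neg (h : IsBreather N c T u) (hT : 0 < T) :
    IsBreather N c T (fun x t => - u x t) := by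
  have := h.aff hT (e := -1) (σ := 1) 0 0 (Or.inr rfl) (Or.inl rfl) h.zero
  simpa using this

lemma IsBreather.reflect (h : IsBreather N c T u) (hT : 0 < T) :
    IsBreather N c T (fun x t => u (-x) t) := by
  have := h.aff hT (e := 1) (σ := -1) 0 0 (Or.inl rfl) (Or.inr rfl) h.zero
  simpa using this

lemma IsBreather.half_zero (hN : 1 ≤ N) (h : IsBreather N c T u) (hT : 0 < T) (x : ℝ) :
    u x (T / 2) = 0 := by
  have h1 := h.odd hN hT x (T / 2)
  have h2 := h.periodic x (-(T / 2))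
  rw [show -(T / 2) + T = T / 2 by ring] at h2
  linarith

lemma IsBreather.halfshift (hN : 1 ≤ N) (h : IsBreather N c T u) (hT : 0 < T) :
    IsBreather N c T (fun x t => u x (t + T / 2)) := by
  have := h.aff hT (e := 1) (σ := 1) 0 (T / 2) (Or.inl rfl) (Or.inl rfl) (h.half_zero hN hT)
  simpa using this

/-! ### Sine coefficients -/

lemma sc_neg (T : ℝ) (f : ℝ → ℝ) (k : ℤ) : sc T (fun t => - f t) k = - sc T f k := by
  unfold sc
  rw [← intervalIntegral.integral_neg]
  refine intervalIntegral.integral_congr fun t _ => ?_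
  ring

lemma sc_halfshift (hT : 0 < T) {f : ℝ → ℝ} (hp : ∀ t, f (t + T) = f t) :
    sc T (fun t => f (t + T / 2)) 1 = - sc T f 1 := by
  unfold sc
  set g : ℝ → ℝ := fun s => f s * Real.sin (2 * π * s / T) with hg
  have hgp : Function.Periodic g T := by
    intro s
    simp only [hg]
    rw [hp]
    congr 1
    rw [show 2 * π * (s + T) / T = 2 * π * s / T + 2 * π by field_simp, Real.sin_add_two_pi]
  have h1 : ∫ t in (0 : ℝ)..T, f (t + T / 2) * Real.sin (2 * π * ((1 : ℤ) : ℝ) * t / T) =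
      ∫ t in (0 : ℝ)..T, - g (t + T / 2) := by
    refine intervalIntegral.integral_congr fun t _ => ?_
    simp only [hg]
    rw [show 2 * π * (t + T / 2) / T = 2 * π * ((1 : ℤ) : ℝ) * t / T + π by
      push_cast; field_simp, Real.sin_add_pi]
    ring
  rw [h1, intervalIntegral.integral_neg, intervalIntegral.integral_comp_add_right (fun s => g s)]
  congr 1
  have h2 := hgp.intervalIntegral_add_eq (0 + T / 2) 0
  rw [show T + T / 2 = 0 + T / 2 + T by ring, h2, zero_add]
  refine intervalIntegral.integral_congr fun t _ => ?_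
  simp [hg]

lemma IsBreather.sc_deriv (h : IsBreather N c T u) (k : ℤ) (x : ℝ) :
    HasDerivAt (fun y => sc T (u y) k) (sc T (dx u x) k) x := by
  have cu := h.w.cu
  have cux := h.w.cux
  unfold sc
  exact hasDerivAt_param (f := fun y t => u y t * Real.sin (2 * π * k * t / T))
    (f' := fun x t => dx u x t * Real.sin (2 * π * k * t / T)) (by fun_prop) (by fun_prop)
    (fun x t => (h.w.hx x t).mul_const _) 0 T x

lemma IsBreather.sc_cont (h : IsBreather N c T u) (k : ℤ) :
    Continuous fun y => sc T (u y) k :=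
  continuous_iff_continuousAt.2 fun x => (h.sc_deriv k x).continuousAt

lemma IsBreather.sc_lim (h : IsBreather N c T u) (hT : 0 < T) (k : ℤ) :
    Tendsto (fun y => sc T (u y) k) atTop (𝓝 0) := by
  refine tendsto_int (f := fun x t => u x t * Real.sin (2 * π * k * t / T)) hT fun ε hε => ?_
  obtain ⟨X, -, hX⟩ := h.small hT hε
  refine ⟨X, fun x t hx => ?_⟩
  have h1 := (hX x t (hx.trans (le_abs_self x))).1
  rw [abs_mul]
  have h2 := Real.abs_sin_le_one (2 * π * k * t / T)
  nlinarith [abs_nonneg (u x t), abs_nonneg (Real.sin (2 * π * k * t / T))]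

/-- only the first mode is compared -/
lemma one_mode (hT : 0 < T) (hc : c 1 ≤ (4 * π / T) ^ 2) {f g : ℝ → ℝ}
    (h : sc T f 1 = sc T g 1) :
    ∀ k : ℕ, 1 ≤ k → (k * (2 * π / T)) ^ 2 < c 1 → sc T f k = sc T g k := by
  intro k hk1 hk2
  by_cases h2 : k = 1
  · rw [h2]; exact_mod_cast h
  · exfalso
    have h3 : (2 : ℝ) ≤ k := by
      have : 2 ≤ k := by omega
      exact_mod_cast this
    have h4 : (4 * π / T) ^ 2 ≤ (k * (2 * π / T)) ^ 2 := by
      apply pow_le_pow_left₀ (by positivity)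
      have h5 : 0 < 2 * π / T := by positivity
      calc 4 * π / T = 2 * (2 * π / T) := by ring
        _ ≤ k * (2 * π / T) := by gcongr
    linarith

/-- matching of the first coefficients by a translation -/
lemma match_le (hT : 0 < T) (hc : c 1 ≤ (4 * π / T) ^ 2) {C X : ℝ}
    (hX : 1 ≤ X)
    (hdet : ∀ u v : ℝ → ℝ → ℝ, IsBreather N c T u → IsBreather N c T v → ∀ x₀, X ≤ x₀ →
      (∀ x t, x₀ ≤ x → x ^ 2 * |u x t| ≤ C) → (∀ x t, x₀ ≤ x → x ^ 2 * |v x t| ≤ C) →
      (∀ k : ℕ, 1 ≤ k → (k * (2 * π / T)) ^ 2 < c 1 → sc T (u x₀) k = sc T (v x₀) k) →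
      ∀ x t, u x t = v x t)
    (hu : IsBreather N c T u) (hv : IsBreather N c T v) (hub : ∀ x t, |x| ^ 2 * |u x t| ≤ C)
    (hvb : ∀ x t, |x| ^ 2 * |v x t| ≤ C) (h0 : 0 < sc T (u X) 1) (h1 : sc T (u X) 1 ≤ sc T (v X) 1) :
    ∃ s, ∀ x t, u x t = v (x + s) t := by
  -- find the translation
  obtain ⟨x₁, hx₁, he⟩ : ∃ x₁, X ≤ x₁ ∧ sc T (v x₁) 1 = sc T (u X) 1 := by
    have h2 : ∀ᶠ y in atTop, sc T (v y) 1 < sc T (u X) 1 :=
      (hv.sc_lim hT 1).eventually (gt_mem_nhds h0)
    obtain ⟨Y, hY⟩ := eventually_atTop.1 h2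
    have h3 : X ≤ max X Y := le_max_left _ _
    have h4 := hY (max X Y) (le_max_right _ _)
    obtain ⟨x₁, hx₁, he⟩ := intermediate_value_Icc' h3 (hv.sc_cont 1).continuousOn
      ⟨h4.le, h1⟩
    exact ⟨x₁, hx₁.1, he⟩
  refine ⟨x₁ - X, hdet u (fun x t => v (x + (x₁ - X)) t) hu (hv.shift hT _) X le_rfl ?_ ?_ ?_⟩
  · intro x t hx
    have := hub x t
    rwa [sq_abs] at this
  · intro x t hx
    have h2 := hvb (x + (x₁ - X)) t
    rw [sq_abs] at h2
    have h3 : x ^ 2 ≤ (x + (x₁ - X)) ^ 2 := by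
      apply pow_le_pow_left₀ (by linarith)
      linarith
    refine le_trans ?_ h2
    gcongr
  · apply one_mode hT hc
    simp only [add_sub_cancel]
    exact he.symm

/-- a common form: same breather up to sign and translation -/
def Rel (u v : ℝ → ℝ → ℝ) : Prop := ∃ e s : ℝ, (e = 1 ∨ e = -1) ∧ ∀ x t, v x t = e * u (x + s) t

/-- Two nonzero breathers agree up to sign and translation. -/
theorem rel_of_ne (hN : 1 ≤ N) (hT : 0 < T) (hc : c 1 ≤ (4 * π / T) ^ 2)
    (hu : IsBreather N c T u) (hv : IsBreather N c T v) (hu0 : ∃ x t, u x t ≠ 0)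
    (hv0 : ∃ x t, v x t ≠ 0) : Rel u v := by
  obtain ⟨C1, hC10, hC1⟩ := hu.bound hT
  obtain ⟨C2, hC20, hC2⟩ := hv.bound hT
  set C := C1 + C2 with hC
  obtain ⟨X, hX, hdet⟩ := finite_det hN c hT C
  have hub : ∀ x t, |x| ^ 2 * |u x t| ≤ C := fun x t => by linarith [(hC1 x t).2.1]
  have hvb : ∀ x t, |x| ^ 2 * |v x t| ≤ C := fun x t => by linarith [(hC2 x t).2.1]
  -- nonzero first coefficients
  have hne : ∀ w : ℝ → ℝ → ℝ, IsBreather N c T w → (∀ x t, |x| ^ 2 * |w x t| ≤ C) →
      (∃ x t, w x t ≠ 0) → sc T (w X) 1 ≠ 0 := by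
    intro w hw hwb ⟨x, t, hxt⟩ h0
    apply hxt
    refine hdet w (fun _ _ => 0) hw (isBreather_zero N c T) X le_rfl
      (fun x t _ => by have := hwb x t; rwa [sq_abs] at this) (fun x t _ => by simp; positivity)
      (one_mode hT hc ?_) x t
    rw [h0]
    unfold sc
    simp
  -- normalise the signs
  have hsgn : ∀ w : ℝ → ℝ → ℝ, IsBreather N c T w → (∀ x t, |x| ^ 2 * |w x t| ≤ C) →
      (∃ x t, w x t ≠ 0) → ∃ e : ℝ, (e = 1 ∨ e = -1) ∧ IsBreather N c T (fun x t => e * w x t) ∧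
        (∀ x t, |x| ^ 2 * |e * w x t| ≤ C) ∧ 0 < sc T (fun t => e * w X t) 1 := by
    intro w hw hwb hw0
    rcases lt_or_gt_of_ne (hne w hw hwb hw0) with h | h
    · refine ⟨-1, Or.inr rfl, ?_, ?_, ?_⟩
      · have := hw.neg hT
        simpa using this
      · intro x t
        rw [neg_one_mul, abs_neg]; exact hwb x t
      · have := sc_neg T (w X) 1
        simp only [neg_one_mul]
        rw [this]; linarith
    · refine ⟨1, Or.inl rfl, ?_, ?_, ?_⟩
      · simpa using hw
      · intro x t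
        rw [one_mul]; exact hwb x t
      · simp only [one_mul]; exact h
  obtain ⟨e, he, hue, hube, hue0⟩ := hsgn u hu hub hu0
  obtain ⟨f, hf, hvf, hvbf, hvf0⟩ := hsgn v hv hvb hv0
  have he2 : e * e = 1 := by rcases he with rfl | rfl <;> norm_num
  have hf2 : f * f = 1 := by rcases hf with rfl | rfl <;> norm_num
  have hef : e * f = 1 ∨ e * f = -1 := by
    rcases he with rfl | rfl <;> rcases hf with rfl | rfl <;> norm_num
  rcases le_total (sc T (fun t => e * u X t) 1) (sc T (fun t => f * v X t) 1) with h | h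
  · obtain ⟨s, hs⟩ := match_le hT hc hX hdet hue hvf hube hvbf hue0 h
    refine ⟨e * f, -s, hef, fun x t => ?_⟩
    have h1 := hs (x + -s) t
    rw [neg_add_cancel_right] at h1
    calc v x t = f * f * v x t := by rw [hf2, one_mul]
      _ = f * (f * v x t) := by ring
      _ = f * (e * u (x + -s) t) := by rw [h1]
      _ = _ := by ring
  · obtain ⟨s, hs⟩ := match_le hT hc hX hdet hvf hue hvbf hube hvf0 h
    refine ⟨e * f, s, hef, fun x t => ?_⟩
    have h1 := hs x t
    calc v x t = f * f * v x t := by rw [hf2, one_mul]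
      _ = f * (f * v x t) := by ring
      _ = f * (e * u (x + s) t) := by rw [h1]
      _ = _ := by ring

/-- a breather that vanishes on a line `x = x₀` is zero -/
theorem zero_of_line (hN : 1 ≤ N) (hT : 0 < T) (hu : IsBreather N c T u) {x₀ : ℝ}
    (h0 : ∀ t, u x₀ t = 0) : ∀ x t, u x t = 0 := by
  have hw := hu.w
  have ht0 : ∀ t, dt u x₀ t = 0 := by
    intro t
    have h1 := hw.ht x₀ t
    have e : (fun s => u x₀ s) = fun _ => 0 := by funext s; exact h0 s
    rw [e] at h1
    exact h1.unique (hasDerivAt_const t 0)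
  have hE := hu.energy hT x₀
  simp only [h0, ht0, GG_zero] at hE
  have hE' : ∫ t in (0 : ℝ)..T, dx u x₀ t ^ 2 / 2 ≤ 0 := by
    refine le_of_eq (Eq.trans ?_ hE)
    refine intervalIntegral.integral_congr fun t _ => ?_
    simp
  have h1 := zero_of_int (f := fun t => dx u x₀ t ^ 2 / 2)
    (((cont_t hw.cux x₀).pow 2).div_const 2) (fun t => by positivity) hT hE'
  have hx0 : ∀ t, dx u x₀ t = 0 := by
    intro t
    have hp : Function.Periodic (fun s => dx u x₀ s) T := fun s => hw.per_x hu.periodic x₀ s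
    obtain ⟨y, hy, hy2⟩ := hp.exists_mem_Ico₀ hT t
    have h2 := h1 y ⟨hy.1, hy.2.le⟩
    have h3 : dx u x₀ t = dx u x₀ y := hy2
    rw [h3]
    have h4 : dx u x₀ y ^ 2 / 2 = 0 := h2
    exact (pow_eq_zero_iff two_ne_zero).1 (by linarith)
  obtain ⟨C, hC0, hC⟩ := hu.bound hT
  obtain ⟨L, hL0, hL⟩ := gg_lip hN c hC0
  refine uniq_x hw hT hL0 hu.periodic (fun x t => ?_) h0 hx0
  have h2 := hL (u x t) 0 (hC x t).1 (by simpa using hC0)
  rw [gg_zero, sub_zero, sub_zero] at h2
  have h3 : dx (dx u) x t - dt (dt u) x t = gg N c (u x t) := by rw [hu.wave x t]; ring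
  rw [h3]
  exact h2

/-- **The set of breathers for `T ≤ 4π/√c₁`.** -/
theorem short (hN : 1 ≤ N) (hT : 0 < T) (hc : c 1 ≤ (4 * π / T) ^ 2) :
    (∀ u, IsBreather N c T u → ∀ x t, u x t = 0) ∨
    ∃ U, IsBreather N c T U ∧ (∃ x t, U x t ≠ 0) ∧ (∀ x t, U (-x) t = U x t) ∧
      (∀ x t, U x (t + T / 2) = - U x t) ∧
      ∀ u, IsBreather N c T u ↔ (∀ x t, u x t = 0) ∨
        ∃ s, (∀ x t, u x t = U (x - s) t) ∨ (∀ x t, u x t = - U (x - s) t) := by
  by_cases hall : ∀ u, IsBreather N c T u → ∀ x t, u x t = 0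
  · exact Or.inl hall
  right
  push Not at hall
  obtain ⟨u, hu, x, t, hxt⟩ := hall
  have hu0 : ∃ x t, u x t ≠ 0 := ⟨x, t, hxt⟩
  -- evenness
  obtain ⟨e, s, he, hes⟩ := rel_of_ne hN hT hc hu (hu.reflect hT) hu0
    ⟨-x, t, by simpa using hxt⟩
  set U : ℝ → ℝ → ℝ := fun x t => u (x + s / 2) t with hU
  have hUb : IsBreather N c T U := hu.shift hT _
  have hU0 : ∃ x t, U x t ≠ 0 := ⟨x - s / 2, t, by simp only [hU]; rwa [sub_add_cancel]⟩
  have hUe : ∀ x t, U (-x) t = e * U x t := by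
    intro x t
    simp only [hU]
    have h1 := hes (x - s / 2) t
    simp only at h1
    rw [show -x + s / 2 = -(x - s / 2) by ring, h1]
    congr 2
    ring
  have he1 : e = 1 := by
    rcases he with h | h
    · exact h
    · exfalso
      obtain ⟨y, r, hyr⟩ := hU0
      apply hyr
      refine zero_of_line hN hT hUb (x₀ := 0) (fun t => ?_) y r
      have := hUe 0 t
      rw [h, neg_zero] at this
      linarith
  -- antiperiodicity
  have hUa : ∀ x t, U x (t + T / 2) = - U x t := by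
    obtain ⟨C, hC0, hC⟩ := hUb.bound hT
    obtain ⟨X, hX, hdet⟩ := finite_det hN c hT C
    refine hdet (fun x t => U x (t + T / 2)) (fun x t => - U x t) (hUb.halfshift hN hT)
      (hUb.neg hT) X le_rfl ?_ ?_ (one_mode hT hc ?_)
    · intro x t _
      have := (hC x (t + T / 2)).2.1
      rwa [sq_abs] at this
    · intro x t _
      have := (hC x t).2.1
      rw [abs_neg]
      rwa [sq_abs] at this
    · rw [sc_halfshift hT (hUb.periodic X), sc_neg]
  refine ⟨U, hUb, hU0, fun x t => by rw [hUe, he1, one_mul], hUa, fun v => ⟨fun hv => ?_, ?_⟩⟩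
  · by_cases hv0 : ∃ x t, v x t ≠ 0
    · right
      obtain ⟨f, r, hf, hfr⟩ := rel_of_ne hN hT hc hUb hv hU0 hv0
      refine ⟨-r, ?_⟩
      rcases hf with rfl | rfl
      · left
        intro x t
        rw [hfr, one_mul, sub_neg_eq_add]
      · right
        intro x t
        rw [hfr, neg_one_mul, sub_neg_eq_add]
    · left
      push Not at hv0
      exact hv0
  · rintro (h | ⟨r, h | h⟩)
    · have e : v = fun _ _ => 0 := by funext x t; exact h x t
      rw [e]; exact isBreather_zero N c T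
    · have e : v = fun x t => U (x + -r) t := by funext x t; rw [h, sub_eq_add_neg]
      rw [e]; exact hUb.shift hT _
    · have e : v = fun x t => - U (x + -r) t := by funext x t; rw [h, sub_eq_add_neg]
      rw [e]; exact (hUb.shift hT _).neg hT

end H53.Br
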