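import Mathlib
import Pool.Agent.H53.Br.Kern

/-!
Breathers of small amplitude do not exist, for every period.
-/

open MeasureTheory Set Filter Topology

namespace H53.Br

variable {T : ℝ}

/-- the mean of a correlation -/
lemma int_cor' {f g : ℝ → ℝ} (hf : Continuous f) (hper : ∀ t, f (t + T) = f t)
    (hg : Continuous g) :
    ∫ s in (0 : ℝ)..T, cor T f g s = (∫ t in (0 : ℝ)..T, f t) * ∫ t in (0 : ℝ)..T, g t := by
  set P : ℝ → ℝ := fun s => ∫ t in (0 : ℝ)..s, f t with hP
  have hPd : ∀ t, HasDerivAt P (f t) t := fun t =>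
    intervalIntegral.integral_hasDerivAt_right (hf.intervalIntegrable _ _)
      (hf.stronglyMeasurableAtFilter _ _) hf.continuousAt
  have hPc : Continuous P := continuous_iff_continuousAt.2 fun t => (hPd t).continuousAt
  have h1 : ∀ s, HasDerivAt (fun s => - cor T P g s) (cor T f g s) s := by
    intro s
    have := (cor_deriv (T := T) hPd hPc hf hg s).neg
    rw [neg_neg] at this
    exact this
  rw [intervalIntegral.integral_eq_sub_of_hasDerivAt (fun s _ => h1 s)
    ((cor_cont hf hg).intervalIntegrable _ _)]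
  have h2 : ∀ t, P t - P (t - T) = ∫ t in (0 : ℝ)..T, f t := by
    intro t
    simp only [hP]
    rw [intervalIntegral.integral_interval_sub_left (hf.intervalIntegrable _ _)
      (hf.intervalIntegrable _ _)]
    have hp : Function.Periodic f T := hper
    have := hp.intervalIntegral_add_eq (t - T) 0
    rw [zero_add, sub_add_cancel] at this
    exact this
  have h3 : cor T P g 0 - cor T P g T = (∫ t in (0 : ℝ)..T, f t) * ∫ t in (0 : ℝ)..T, g t := by
    unfold cor
    rw [← intervalIntegral.integral_sub, ← intervalIntegral.integral_const_mul]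
    · refine intervalIntegral.integral_congr fun t _ => ?_
      rw [← h2 t, sub_zero]
      ring
    · exact Continuous.intervalIntegrable (by fun_prop) _ _
    · exact Continuous.intervalIntegrable (by fun_prop) _ _
  linarith

lemma BB_cos {μ : ℝ} (hc : Real.cos (μ * T) = 1) (hs : Real.sin (μ * T) = 0) {f g : ℝ → ℝ}
    (hf : Continuous f) (hg : Continuous g) (pf : ∀ t, f (t + T) = f t) :
    BB T (fun s => Real.cos (μ * s)) f g =
      (∫ t in (0 : ℝ)..T, f t * Real.cos (μ * t)) * (∫ t in (0 : ℝ)..T, g t * Real.cos (μ * t)) +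
      (∫ t in (0 : ℝ)..T, f t * Real.sin (μ * t)) * ∫ t in (0 : ℝ)..T, g t * Real.sin (μ * t) := by
  have c1 : Continuous fun t => f t * Real.cos (μ * t) := by fun_prop
  have c2 : Continuous fun t => f t * Real.sin (μ * t) := by fun_prop
  have c3 : Continuous fun t => g t * Real.cos (μ * t) := by fun_prop
  have c4 : Continuous fun t => g t * Real.sin (μ * t) := by fun_prop
  have p1 : ∀ t, f (t + T) * Real.cos (μ * (t + T)) = f t * Real.cos (μ * t) := by
    intro t
    rw [pf, mul_add, Real.cos_add, hc, hs]; ring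
  have p2 : ∀ t, f (t + T) * Real.sin (μ * (t + T)) = f t * Real.sin (μ * t) := by
    intro t
    rw [pf, mul_add, Real.sin_add, hc, hs]; ring
  rw [← int_cor' c1 p1 c3, ← int_cor' c2 p2 c4, ← intervalIntegral.integral_add
    ((cor_cont c1 c3).intervalIntegrable _ _) ((cor_cont c2 c4).intervalIntegrable _ _)]
  unfold BB
  refine intervalIntegral.integral_congr fun s _ => ?_
  unfold cor
  rw [← intervalIntegral.integral_add, ← intervalIntegral.integral_const_mul]
  · refine intervalIntegral.integral_congr fun t _ => ?_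
    simp only
    have e : Real.cos (μ * s) = Real.cos (μ * t) * Real.cos (μ * (t - s)) +
        Real.sin (μ * t) * Real.sin (μ * (t - s)) := by
      rw [← Real.cos_sub]
      congr 1
      ring
    rw [e]
    ring
  · exact Continuous.intervalIntegrable (by fun_prop) _ _
  · exact Continuous.intervalIntegrable (by fun_prop) _ _

/-- the kernel in the resonant case -/
noncomputable def Kr (T μ s : ℝ) : ℝ := -((s - T / 2) * Real.sin (μ * s)) / (μ * T)

lemma Kr_cont (T μ : ℝ) : Continuous (Kr T μ) := by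
  unfold Kr
  fun_prop

lemma Kr_symm {μ : ℝ} (hc : Real.cos (μ * T) = 1) (hs : Real.sin (μ * T) = 0) (s : ℝ) :
    Kr T μ (T - s) = Kr T μ s := by
  unfold Kr
  have : Real.sin (μ * (T - s)) = - Real.sin (μ * s) := by
    rw [mul_sub, Real.sin_sub, hc, hs]; ring
  rw [this]
  ring

/-- the resonant kernel inverts `d²/dt² + μ²` off the resonant mode -/
theorem BB_Kr {μ : ℝ} (hμ : μ ≠ 0) (hT : 0 < T) (hc : Real.cos (μ * T) = 1)
    (hs : Real.sin (μ * T) = 0)
    {f f1 f2 g : ℝ → ℝ} (hf : ∀ t, HasDerivAt f (f1 t) t) (hf1 : ∀ t, HasDerivAt f1 (f2 t) t)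
    (cf2 : Continuous f2) (p : ∀ t, f (t + T) = f t) (cg : Continuous g) :
    BB T (Kr T μ) (fun t => f2 t + μ ^ 2 * f t) g = (∫ t in (0 : ℝ)..T, f t * g t) -
      2 / T * BB T (fun s => Real.cos (μ * s)) f g := by
  have cf : Continuous f := continuous_iff_continuousAt.2 fun t => (hf t).continuousAt
  have cf1 : Continuous f1 := continuous_iff_continuousAt.2 fun t => (hf1 t).continuousAt
  have cF : Continuous (fun t => f2 t + μ ^ 2 * f t) := by fun_prop
  have hTne : T ≠ 0 := hT.ne'
  set K0 : ℝ → ℝ := Kr T μ with hK0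
  set K1 : ℝ → ℝ := fun s =>
    -(1 * Real.sin (μ * s) + (s - T / 2) * (Real.cos (μ * s) * μ)) / (μ * T) with hK1
  have hin : ∀ s, HasDerivAt (fun s : ℝ => μ * s) μ s := by
    intro s
    simpa using (hasDerivAt_id s).const_mul μ
  have hin2 : ∀ s, HasDerivAt (fun s : ℝ => s - T / 2) 1 s := by
    intro s
    simpa using (hasDerivAt_id s).sub_const (T / 2)
  have dS : ∀ s, HasDerivAt (fun s => Real.sin (μ * s)) (Real.cos (μ * s) * μ) s := fun s =>
    (Real.hasDerivAt_sin (μ * s)).comp s (hin s)
  have dC : ∀ s, HasDerivAt (fun s => Real.cos (μ * s)) (- Real.sin (μ * s) * μ) s := fun s =>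
    (Real.hasDerivAt_cos (μ * s)).comp s (hin s)
  have dK0 : ∀ s, HasDerivAt K0 (K1 s) s := fun s =>
    (((hin2 s).mul (dS s)).neg).div_const (μ * T)
  have dK1 : ∀ s, HasDerivAt K1 (- (μ ^ 2 * K0 s + 2 / T * Real.cos (μ * s))) s := by
    intro s
    have h1 := ((((dS s).const_mul 1).add ((hin2 s).mul ((dC s).mul_const μ))).neg).div_const
      (μ * T)
    refine h1.congr_deriv ?_
    simp only [hK0, Kr]
    field_simp
    ring
  have cK0 : Continuous K0 := Kr_cont T μ
  have cC : Continuous fun s => Real.cos (μ * s) := by fun_prop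
  have hW : ∀ s, HasDerivAt (fun s => - (K0 s * cor T f1 g s) - K1 s * cor T f g s)
      (K0 s * cor T (fun t => f2 t + μ ^ 2 * f t) g s +
        2 / T * (Real.cos (μ * s) * cor T f g s)) s := by
    intro s
    have d0 := cor_deriv (T := T) hf cf cf1 cg s
    have d1 := cor_deriv (T := T) hf1 cf1 cf2 cg s
    have h1 := ((dK0 s).mul d1).neg.sub ((dK1 s).mul d0)
    refine h1.congr_deriv ?_
    rw [cor_add cf2 (by fun_prop) cg, cor_smul]
    ring
  have i1 : IntervalIntegrable (fun s => K0 s * cor T (fun t => f2 t + μ ^ 2 * f t) g s) volume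
      0 T := (cK0.mul (cor_cont cF cg)).intervalIntegrable _ _
  have i2 : IntervalIntegrable (fun s => 2 / T * (Real.cos (μ * s) * cor T f g s)) volume 0 T :=
    ((cC.mul (cor_cont cf cg)).const_mul _).intervalIntegrable _ _
  have h2 := intervalIntegral.integral_eq_sub_of_hasDerivAt (fun s _ => hW s) (i1.add i2)
  rw [intervalIntegral.integral_add i1 i2, intervalIntegral.integral_const_mul] at h2
  have c0 : cor T f g T = cor T f g 0 := by
    unfold cor
    refine intervalIntegral.integral_congr fun t _ => ?_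
    rw [per_sub p, sub_zero]
  have k0 : K0 T = 0 := by
    simp only [hK0, Kr, hs]
    ring
  have k00 : K0 0 = 0 := by
    simp only [hK0, Kr, mul_zero, Real.sin_zero]
    ring
  have k1 : K1 0 - K1 T = 1 := by
    simp only [hK1, hs, hc, mul_zero, Real.sin_zero, Real.cos_zero]
    field_simp
    ring
  have c2 : cor T f g 0 = ∫ t in (0 : ℝ)..T, f t * g t := by
    unfold cor
    refine intervalIntegral.integral_congr fun t _ => ?_
    rw [sub_zero]
  rw [c0, k0, k00] at h2
  rw [← c2]
  unfold BB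
  linear_combination h2 + (cor T f g 0) * k1

/-- pairing with the resonant mode -/
lemma BB_sin {μ : ℝ} (hc : Real.cos (μ * T) = 1) (hs : Real.sin (μ * T) = 0) {K r : ℝ → ℝ}
    (hK : Continuous K) (hKs : ∀ s, K (T - s) = K s)
    (hr : Continuous r) (pr : ∀ t, r (t + T) = r t) :
    BB T K r (fun t => Real.sin (μ * t)) = (∫ s in (0 : ℝ)..T, K s * Real.cos (μ * s)) *
      ∫ t in (0 : ℝ)..T, r t * Real.sin (μ * t) := by
  have p1 : ∀ t, r (t + T) * Real.sin (μ * (t + T)) = r t * Real.sin (μ * t) := by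
    intro t
    rw [pr, mul_add, Real.sin_add, hc, hs]; ring
  have p2 : ∀ t, r (t + T) * Real.cos (μ * (t + T)) = r t * Real.cos (μ * t) := by
    intro t
    rw [pr, mul_add, Real.cos_add, hc, hs]; ring
  set A := ∫ t in (0 : ℝ)..T, r t * Real.sin (μ * t) with hA
  set B := ∫ t in (0 : ℝ)..T, r t * Real.cos (μ * t) with hB
  have h1 : ∀ s, cor T r (fun t => Real.sin (μ * t)) s = Real.cos (μ * s) * A +
      Real.sin (μ * s) * B := by
    intro s
    have e1 := int_shift (T := T) (F := fun t => r t * Real.sin (μ * t)) p1 (-s)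
    have e2 := int_shift (T := T) (F := fun t => r t * Real.cos (μ * t)) p2 (-s)
    rw [hA, hB, ← e1, ← e2, ← intervalIntegral.integral_const_mul,
      ← intervalIntegral.integral_const_mul, ← intervalIntegral.integral_add]
    · unfold cor
      refine intervalIntegral.integral_congr fun t _ => ?_
      simp only
      have e3 : t + -s = t - s := by ring
      rw [e3]
      have e : Real.sin (μ * t) = Real.sin (μ * (t - s)) * Real.cos (μ * s) +
          Real.cos (μ * (t - s)) * Real.sin (μ * s) := by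
        rw [← Real.sin_add]
        congr 1
        ring
      rw [e]
      ring
    · exact Continuous.intervalIntegrable (by fun_prop) _ _
    · exact Continuous.intervalIntegrable (by fun_prop) _ _
  have h2 : ∫ s in (0 : ℝ)..T, K s * Real.sin (μ * s) = 0 := by
    have h3 := intervalIntegral.integral_comp_sub_left (a := 0) (b := T)
      (fun s => K s * Real.sin (μ * s)) T
    rw [sub_self, sub_zero] at h3
    have h4 : (fun s => K (T - s) * Real.sin (μ * (T - s))) = fun s =>
        - (K s * Real.sin (μ * s)) := by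
      funext s
      rw [hKs, mul_sub, Real.sin_sub, hc, hs]; ring
    rw [h4, intervalIntegral.integral_neg] at h3
    linarith
  unfold BB
  simp only [h1]
  have e4 : ∀ s, K s * (Real.cos (μ * s) * A + Real.sin (μ * s) * B) =
      K s * Real.cos (μ * s) * A + K s * Real.sin (μ * s) * B := by intro s; ring
  simp only [e4]
  rw [intervalIntegral.integral_add, intervalIntegral.integral_mul_const,
    intervalIntegral.integral_mul_const, h2]
  · ring
  · exact Continuous.intervalIntegrable (by fun_prop) _ _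
  · exact Continuous.intervalIntegrable (by fun_prop) _ _

lemma cor_young {f g : ℝ → ℝ} (hf : Continuous f) (hg : Continuous g)
    (pf : ∀ t, f (t + T) = f t) (hT : 0 < T) {p : ℝ} (hp : 0 < p) (s : ℝ) :
    |cor T f g s| ≤ p / 2 * (∫ t in (0 : ℝ)..T, f t ^ 2) +
      1 / (2 * p) * ∫ t in (0 : ℝ)..T, g t ^ 2 := by
  have e1 : ∫ t in (0 : ℝ)..T, f (t - s) ^ 2 = ∫ t in (0 : ℝ)..T, f t ^ 2 := by
    have := int_shift (T := T) (F := fun t => f t ^ 2) (fun t => by simp only [pf]) (-s)
    simpa [sub_eq_add_neg] using this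
  rw [← e1, ← intervalIntegral.integral_const_mul, ← intervalIntegral.integral_const_mul,
    ← intervalIntegral.integral_add]
  · unfold cor
    refine (intervalIntegral.abs_integral_le_integral_abs hT.le).trans ?_
    refine intervalIntegral.integral_mono_on hT.le ?_ ?_ fun t _ => ?_
    · exact Continuous.intervalIntegrable (by fun_prop) _ _
    · exact Continuous.intervalIntegrable (by fun_prop) _ _
    · have h1 : ∀ a b : ℝ, a * b ≤ p / 2 * a ^ 2 + 1 / (2 * p) * b ^ 2 := by
        intro a b
        have h2 : 0 ≤ (p * a - b) ^ 2 / (2 * p) := by positivity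
        have h3 : (p * a - b) ^ 2 / (2 * p) = p / 2 * a ^ 2 + 1 / (2 * p) * b ^ 2 - a * b := by
          field_simp
          ring
        linarith
      rw [abs_le]
      constructor
      · have := h1 (-(f (t - s))) (g t)
        have e : (-(f (t - s))) ^ 2 = f (t - s) ^ 2 := by ring
        rw [e] at this
        linarith
      · exact h1 _ _
  · exact Continuous.intervalIntegrable (by fun_prop) _ _
  · exact Continuous.intervalIntegrable (by fun_prop) _ _

/-! ### Facts at a resonant period -/

lemma res_facts {μ T : ℝ} (hμ : 0 < μ) (hT : 0 < T) (hs : Real.sin (μ * T / 2) = 0) :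
    Real.cos (μ * T) = 1 ∧ Real.sin (μ * T) = 0 ∧
    (∫ t in (0 : ℝ)..T, Real.sin (μ * t) ^ 2 = T / 2) ∧
    (∫ t in (0 : ℝ)..T, |Real.sin (μ * t)| = 2 * T / Real.pi) := by
  have e1 : μ * T = 2 * (μ * T / 2) := by ring
  have hc : Real.cos (μ * T) = 1 := by
    rw [e1, Real.cos_two_mul, Real.cos_sq', hs]; norm_num
  have hsn : Real.sin (μ * T) = 0 := by
    rw [e1, Real.sin_two_mul, hs]; ring
  have hin : ∀ s, HasDerivAt (fun s : ℝ => μ * s) μ s := by
    intro s
    simpa using (hasDerivAt_id s).const_mul μ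
  have dS : ∀ s, HasDerivAt (fun s => Real.sin (μ * s)) (Real.cos (μ * s) * μ) s := fun s =>
    (Real.hasDerivAt_sin (μ * s)).comp s (hin s)
  have dC : ∀ s, HasDerivAt (fun s => Real.cos (μ * s)) (- Real.sin (μ * s) * μ) s := fun s =>
    (Real.hasDerivAt_cos (μ * s)).comp s (hin s)
  refine ⟨hc, hsn, ?_, ?_⟩
  · have h1 : ∀ s, HasDerivAt (fun s => (s - (Real.sin (μ * s) * Real.cos (μ * s)) / μ) / 2)
        (Real.sin (μ * s) ^ 2) s := by
      intro s
      refine (((hasDerivAt_id s).sub (((dS s).mul (dC s)).div_const μ)).div_const 2).congr_deriv ?_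
      have := Real.sin_sq_add_cos_sq (μ * s)
      field_simp
      linear_combination (-1) * this
    rw [intervalIntegral.integral_eq_sub_of_hasDerivAt (fun s _ => h1 s)
      (Continuous.intervalIntegrable (by fun_prop) _ _)]
    simp only [hsn, hc, mul_zero, Real.sin_zero]
    ring
  · obtain ⟨n, hn⟩ := Real.sin_eq_zero_iff.1 hs
    have hper : Function.Periodic (fun t => |Real.sin (μ * t)|) (Real.pi / μ) := by
      intro t
      simp only
      have : μ * (t + Real.pi / μ) = μ * t + Real.pi := by field_simp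
      rw [this, Real.sin_add_pi, abs_neg]
    have hint : ∀ t₁ t₂, IntervalIntegrable (fun t => |Real.sin (μ * t)|) volume t₁ t₂ :=
      fun t₁ t₂ => Continuous.intervalIntegrable (by fun_prop) _ _
    have h1 := hper.intervalIntegral_add_zsmul_eq (2 * n) 0 hint
    have hTe : (0 : ℝ) + (2 * n) • (Real.pi / μ) = T := by
      rw [zsmul_eq_mul]
      push_cast
      have h2 : (n : ℝ) * Real.pi = μ * T / 2 := hn
      have h3 : 0 + 2 * (n : ℝ) * (Real.pi / μ) = 2 * ((n : ℝ) * Real.pi) / μ := by ring
      rw [h3, h2]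
      field_simp
    rw [hTe] at h1
    rw [h1, zero_add]
    have h4 : ∫ t in (0 : ℝ)..(Real.pi / μ), |Real.sin (μ * t)| = 2 / μ := by
      have h5 : ∫ t in (0 : ℝ)..(Real.pi / μ), |Real.sin (μ * t)| =
          ∫ t in (0 : ℝ)..(Real.pi / μ), Real.sin (μ * t) := by
        refine intervalIntegral.integral_congr fun t ht => ?_
        rw [uIcc_of_le (by positivity)] at ht
        refine abs_of_nonneg (Real.sin_nonneg_of_nonneg_of_le_pi (mul_nonneg hμ.le ht.1) ?_)
        calc μ * t ≤ μ * (Real.pi / μ) := mul_le_mul_of_nonneg_left ht.2 hμ.le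
          _ = Real.pi := by field_simp
      rw [h5]
      have h6 : ∀ s, HasDerivAt (fun s => - Real.cos (μ * s) / μ) (Real.sin (μ * s)) s := by
        intro s
        refine ((dC s).neg.div_const μ).congr_deriv ?_
        field_simp
      rw [intervalIntegral.integral_eq_sub_of_hasDerivAt (fun s _ => h6 s)
        (Continuous.intervalIntegrable (by fun_prop) _ _)]
      have h7 : μ * (Real.pi / μ) = Real.pi := by field_simp
      simp only [h7, Real.cos_pi, mul_zero, Real.cos_zero]
      ring
    rw [h4, zsmul_eq_mul]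
    push_cast
    have h2 : (n : ℝ) * Real.pi = μ * T / 2 := hn
    have hpi := Real.pi_pos
    have h8 : (n : ℝ) = μ * T / 2 / Real.pi := by rw [← h2]; field_simp
    rw [h8]
    field_simp

/-! ### The nonlinear part -/

lemma rr_eq {N : ℕ} (hN : 1 ≤ N) (c : ℕ → ℝ) (y : ℝ) :
    gg N c y - c 1 * y = ∑ j ∈ Finset.Icc 2 N, c j * y ^ (2 * j - 1) := by
  unfold gg
  rw [← Finset.add_sum_Ioc_eq_sum_Icc hN]
  have : Finset.Ioc 1 N = Finset.Icc 2 N := by
    ext j; simp only [Finset.mem_Ioc, Finset.mem_Icc]; omega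
  rw [this]
  simp

lemma dd_eq {N : ℕ} (hN : 1 ≤ N) (c : ℕ → ℝ) (y : ℝ) :
    y * gg N c y - 2 * GG N c y =
      ∑ j ∈ Finset.Icc 2 N, (((j : ℝ) - 1) / j * c j) * y ^ (2 * j) := by
  have h1 : y * gg N c y - 2 * GG N c y =
      ∑ j ∈ Finset.Icc 1 N, (((j : ℝ) - 1) / j * c j) * y ^ (2 * j) := by
    unfold gg GG
    rw [Finset.mul_sum, Finset.mul_sum, ← Finset.sum_sub_distrib]
    refine Finset.sum_congr rfl fun j hj => ?_
    have hj1 : 1 ≤ j := (Finset.mem_Icc.1 hj).1
    have hj0 : (j : ℝ) ≠ 0 := by positivity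
    obtain ⟨i, rfl⟩ : ∃ i, j = i + 1 := ⟨j - 1, by omega⟩
    have e1 : 2 * (i + 1) - 1 = 2 * i + 1 := by omega
    have e2 : 2 * (i + 1) = 2 * i + 1 + 1 := by omega
    rw [e1, e2, pow_succ y (2 * i + 1)]
    field_simp
  rw [h1, ← Finset.add_sum_Ioc_eq_sum_Icc hN]
  have : Finset.Ioc 1 N = Finset.Icc 2 N := by
    ext j; simp only [Finset.mem_Ioc, Finset.mem_Icc]; omega
  rw [this]
  simp


namespace IsBreather

variable {N : ℕ} {c : ℕ → ℝ} {u : ℝ → ℝ → ℝ}

/-- the coefficient of the resonant mode -/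
noncomputable def bb (u : ℝ → ℝ → ℝ) (T μ x : ℝ) : ℝ := ∫ t in (0 : ℝ)..T, u x t * Real.sin (μ * t)

/-- the part of `u` orthogonal to the resonant mode -/
noncomputable def ww (u : ℝ → ℝ → ℝ) (T μ x t : ℝ) : ℝ :=
  u x t - 2 / T * bb u T μ x * Real.sin (μ * t)

lemma bb_deriv {μ : ℝ} {u ux : ℝ → ℝ → ℝ} (cu : Continuous fun p : ℝ × ℝ => u p.1 p.2)
    (cux : Continuous fun p : ℝ × ℝ => ux p.1 p.2)
    (hu : ∀ x t, HasDerivAt (fun y => u y t) (ux x t) x) (x : ℝ) :
    HasDerivAt (fun y => bb u T μ y) (bb ux T μ x) x := by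
  unfold bb
  exact hasDerivAt_param (f := fun y t => u y t * Real.sin (μ * t))
    (f' := fun y t => ux y t * Real.sin (μ * t)) (by fun_prop) (by fun_prop)
    (fun x t => (hu x t).mul_const _) 0 T x

/-- **The convexity argument at a resonant period.** -/
theorem res_core (hN : 1 ≤ N) (h : IsBreather N c T u) (hT : 0 < T) (hc1 : 0 < c 1)
    (hcT : Real.cos (√(c 1) * T) = 1) (hsT : Real.sin (√(c 1) * T) = 0)
    (hS2 : ∫ t in (0 : ℝ)..T, Real.sin (√(c 1) * t) ^ 2 = T / 2) {η θ m : ℝ} (hη : 0 ≤ η)
    (hm : m + η * (∫ s in (0 : ℝ)..T, Kr T √(c 1) s * Real.cos (√(c 1) * s)) = -θ)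
    (hκ : |m| + η * (∫ s in (0 : ℝ)..T, |Kr T √(c 1) s|) < 2)
    (hrest : ∀ x, 0 ≤ (∫ t in (0 : ℝ)..T, (u x t * gg N c (u x t) - 2 * GG N c (u x t))) +
      η * (∫ t in (0 : ℝ)..T, ww u T √(c 1) x t ^ 2) +
      η * BB T (Kr T √(c 1)) (fun t => gg N c (u x t) - c 1 * u x t) (ww u T √(c 1) x) -
      θ * (2 / T * bb u T √(c 1) x *
        ∫ t in (0 : ℝ)..T, (gg N c (u x t) - c 1 * u x t) * Real.sin (√(c 1) * t))) :
    ∀ x t, u x t = 0 := by
  set μ := √(c 1) with hμd
  have hμ2 : μ ^ 2 = c 1 := Real.sq_sqrt hc1.le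
  have hμ : μ ≠ 0 := by
    intro h0
    rw [h0] at hμ2
    have : (0 : ℝ) ^ 2 = 0 := by norm_num
    linarith
  set K : ℝ → ℝ := Kr T μ with hK
  set κ := ∫ s in (0 : ℝ)..T, |K s| with hκd
  set kc := ∫ s in (0 : ℝ)..T, K s * Real.cos (μ * s) with hkc
  have cK : Continuous K := Kr_cont T μ
  have sK : ∀ s, K (T - s) = K s := Kr_symm hcT hsT
  have hκ0 : 0 ≤ κ := intervalIntegral.integral_nonneg hT.le fun s _ => abs_nonneg _
  have w := h.w
  have cu := w.cu
  have cux := w.cux
  have cut := w.cut
  have cuxx := w.cuxx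
  have cuxt := w.cuxt
  have cutt := w.cutt
  have cg := continuous_gg N c
  have cG := continuous_GG N c
  have p := h.periodic
  have px := w.per_x p
  have pt := w.per_t p
  have pxx : ∀ x t, dx (dx u) x (t + T) = dx (dx u) x t := by
    intro x t
    have e : (fun y => dx u y (t + T)) = fun y => dx u y t := by funext y; exact px y t
    unfold dx at e ⊢
    exact congrArg (fun f => deriv f x) e
  have hodd := odd hN h hT
  have hcos : ∀ x, ∫ t in (0 : ℝ)..T, u x t * Real.cos (μ * t) = 0 := by
    intro x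
    have h1 := intervalIntegral.integral_comp_sub_left (a := 0) (b := T)
      (fun t => u x t * Real.cos (μ * t)) T
    rw [sub_self, sub_zero] at h1
    have h2 : (fun t => u x (T - t) * Real.cos (μ * (T - t))) =
        fun t => - (u x t * Real.cos (μ * t)) := by
      funext t
      have : T - t = -t + T := by ring
      rw [this, h.periodic, hodd, mul_add, Real.cos_add, hcT, hsT, mul_neg, Real.cos_neg]
      ring
    rw [h2, intervalIntegral.integral_neg] at h1
    linarith
  set M1 : ℝ → ℝ := fun x => ∫ t in (0 : ℝ)..T, 2 * (u x t * dx u x t) with hM1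
  set M2 : ℝ → ℝ := fun x => ∫ t in (0 : ℝ)..T, 2 * (dx u x t ^ 2 + u x t * dx (dx u) x t) with hM2
  set A1 : ℝ → ℝ := fun x => 2 * BB T K (dx u x) (u x) with hA1
  set A2 : ℝ → ℝ := fun x => 2 * (BB T K (dx (dx u) x) (u x) + BB T K (dx u x) (dx u x)) with hA2
  set b0 : ℝ → ℝ := fun x => bb u T μ x with hb0
  set b1 : ℝ → ℝ := fun x => bb (dx u) T μ x with hb1
  set b2 : ℝ → ℝ := fun x => bb (dx (dx u)) T μ x with hb2
  have db0 : ∀ x, HasDerivAt b0 (b1 x) x := bb_deriv cu cux w.hx
  have db1 : ∀ x, HasDerivAt b1 (b2 x) x := bb_deriv cux cuxx w.hxx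
  have hd1 : ∀ x, HasDerivAt M1 (M2 x) x := by
    intro x
    refine hasDerivAt_param (f := fun y t => 2 * (u y t * dx u y t))
      (f' := fun x t => 2 * (dx u x t ^ 2 + u x t * dx (dx u) x t))
      (by fun_prop) (by fun_prop) (fun x t => ?_) 0 T x
    refine (((w.hx x t).fun_mul (w.hxx x t)).const_mul 2).congr_deriv ?_
    ring
  have ha1 : ∀ x, HasDerivAt A1 (A2 x) x := by
    intro x
    exact (BB_deriv (T := T) cK cux cuxx cu cux w.hxx w.hx x).const_mul 2
  set F1 : ℝ → ℝ := fun x => M1 x + η * A1 x + 4 * m / T * (b0 x * b1 x) with hF1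
  set F2 : ℝ → ℝ := fun x => M2 x + η * A2 x + 4 * m / T * (b1 x * b1 x + b0 x * b2 x) with hF2
  have hf1 : ∀ x, HasDerivAt F1 (F2 x) x := fun x =>
    ((hd1 x).add ((ha1 x).const_mul η)).add (((db0 x).mul (db1 x)).const_mul (4 * m / T))
  have hM2e : ∀ x, M2 x = ∫ t in (0 : ℝ)..T, (2 * (2 * dx u x t ^ 2 +
        (u x t * gg N c (u x t) - 2 * GG N c (u x t)))) := by
    intro x
    have e1 : ∫ t in (0 : ℝ)..T, (dt u x t * dt u x t + u x t * dt (dt u) x t) = 0 := by
      refine int_deriv_zero (fun t => (w.ht x t).fun_mul (w.htt x t)) ?_ ?_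
      · exact ((cont_t cut x).mul (cont_t cut x)).add ((cont_t cu x).mul (cont_t cutt x))
      · rw [h.zero, h.zero_T, zero_mul, zero_mul]
    have e2 := h.energy hT x
    have ix : ∀ f : ℝ → ℝ → ℝ, Continuous (fun p : ℝ × ℝ => f p.1 p.2) →
        IntervalIntegrable (fun t => f x t) volume 0 T := fun f hf => ii_t hf x 0 T
    have e3 : M2 x = ∫ t in (0 : ℝ)..T, (2 * (2 * dx u x t ^ 2 +
        (u x t * gg N c (u x t) - 2 * GG N c (u x t))) +
        2 * (dt u x t * dt u x t + u x t * dt (dt u) x t) -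
        4 * (dx u x t ^ 2 / 2 + dt u x t ^ 2 / 2 - GG N c (u x t))) := by
      simp only [hM2]
      refine intervalIntegral.integral_congr fun t _ => ?_
      have hw := h.wave x t
      have e : dx (dx u) x t = dt (dt u) x t + gg N c (u x t) := by rw [hw]; ring
      rw [e]
      ring
    rw [e3, intervalIntegral.integral_sub, intervalIntegral.integral_add,
      intervalIntegral.integral_const_mul 2 (fun t => dt u x t * dt u x t + u x t * dt (dt u) x t),
      intervalIntegral.integral_const_mul 4, e1, e2, mul_zero, mul_zero, add_zero, sub_zero]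
    · exact ix (fun x t => 2 * (2 * dx u x t ^ 2 + (u x t * gg N c (u x t) -
        2 * GG N c (u x t)))) (by fun_prop)
    · exact ix (fun x t => 2 * (dt u x t * dt u x t + u x t * dt (dt u) x t)) (by fun_prop)
    · exact (ix (fun x t => 2 * (2 * dx u x t ^ 2 + (u x t * gg N c (u x t) -
        2 * GG N c (u x t)))) (by fun_prop)).add
        (ix (fun x t => 2 * (dt u x t * dt u x t + u x t * dt (dt u) x t)) (by fun_prop))
    · exact ix (fun x t => 4 * (dx u x t ^ 2 / 2 + dt u x t ^ 2 / 2 - GG N c (u x t)))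
        (by fun_prop)
  set r : ℝ → ℝ → ℝ := fun x t => gg N c (u x t) - c 1 * u x t with hrdef
  set R : ℝ → ℝ := fun x => ∫ t in (0 : ℝ)..T, r x t * Real.sin (μ * t) with hR
  have cr : ∀ x, Continuous (r x) := by
    intro x
    have cu' := cont_t cu x
    simp only [hrdef]
    fun_prop
  have pr : ∀ x t, r x (t + T) = r x t := by
    intro x t
    simp only [hrdef, p]
  have cww : ∀ x, Continuous (ww u T μ x) := by
    intro x
    have cu' := cont_t cu x
    unfold ww
    fun_prop
  -- the second derivative of the resonant coefficient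
  have hb2e : ∀ x, b2 x = R x := by
    intro x
    have cu' := cont_t cu x
    have cut' := cont_t cut x
    have cutt' := cont_t cutt x
    have hin : ∀ s, HasDerivAt (fun s : ℝ => μ * s) μ s := by
      intro s
      simpa using (hasDerivAt_id s).const_mul μ
    have dS : ∀ s, HasDerivAt (fun s => Real.sin (μ * s)) (Real.cos (μ * s) * μ) s := fun s =>
      (Real.hasDerivAt_sin (μ * s)).comp s (hin s)
    have dC : ∀ s, HasDerivAt (fun s => Real.cos (μ * s)) (- Real.sin (μ * s) * μ) s := fun s =>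
      (Real.hasDerivAt_cos (μ * s)).comp s (hin s)
    have e1 : ∫ t in (0 : ℝ)..T, (dt (dt u) x t + μ ^ 2 * u x t) * Real.sin (μ * t) = 0 := by
      refine int_deriv_zero (f := fun t => dt u x t * Real.sin (μ * t) -
        μ * (u x t * Real.cos (μ * t))) (fun t => ?_) (by fun_prop) ?_
      · refine (((w.htt x t).fun_mul (dS t)).sub
          (((w.ht x t).fun_mul (dC t)).const_mul μ)).congr_deriv ?_
        ring
      · simp only [h.zero, h.zero_T, hsT, mul_zero, Real.sin_zero, zero_mul]
    have e2 : b2 x - R x = ∫ t in (0 : ℝ)..T, (dt (dt u) x t + μ ^ 2 * u x t) *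
        Real.sin (μ * t) := by
      simp only [hb2, hR, bb]
      have cuxx' := cont_t cuxx x
      have cr' := cr x
      rw [← intervalIntegral.integral_sub]
      · refine intervalIntegral.integral_congr fun t _ => ?_
        simp only [hrdef]
        rw [h.wave x t, hμ2]
        ring
      · exact Continuous.intervalIntegrable (by fun_prop) _ _
      · exact Continuous.intervalIntegrable (by fun_prop) _ _
    linarith
  -- Parseval for one mode
  have hw2 : ∀ x, ∫ t in (0 : ℝ)..T, ww u T μ x t ^ 2 = (∫ t in (0 : ℝ)..T, u x t ^ 2) -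
      2 / T * b0 x ^ 2 := by
    intro x
    have cu' := cont_t cu x
    have e1 : ∀ t, ww u T μ x t ^ 2 = u x t ^ 2 - 2 * (2 / T * b0 x) * (u x t * Real.sin (μ * t)) +
        (2 / T * b0 x) ^ 2 * Real.sin (μ * t) ^ 2 := by
      intro t
      simp only [ww, hb0]
      ring
    simp only [e1]
    rw [intervalIntegral.integral_add, intervalIntegral.integral_sub,
      intervalIntegral.integral_const_mul, intervalIntegral.integral_const_mul, hS2]
    · have e2 : ∫ t in (0 : ℝ)..T, u x t * Real.sin (μ * t) = b0 x := rfl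
      rw [e2]
      field_simp
      ring
    · exact Continuous.intervalIntegrable (by fun_prop) _ _
    · exact Continuous.intervalIntegrable (by fun_prop) _ _
    · exact Continuous.intervalIntegrable (by fun_prop) _ _
    · exact Continuous.intervalIntegrable (by fun_prop) _ _
  -- the quadratic form
  have hB : ∀ x, BB T K (dx (dx u) x) (u x) = (∫ t in (0 : ℝ)..T, ww u T μ x t ^ 2) +
      BB T K (r x) (ww u T μ x) + 2 / T * b0 x * (kc * R x) := by
    intro x
    have cux' := cont_t cu x
    have cutt' := cont_t cutt x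
    have cr' := cr x
    have e1 : dx (dx u) x = fun t => (fun t => dt (dt u) x t + μ ^ 2 * u x t) t + r x t := by
      funext t
      simp only [hrdef]
      rw [h.wave x t, hμ2]
      ring
    have c1 : Continuous fun t => dt (dt u) x t + μ ^ 2 * u x t := by fun_prop
    have e2 : u x = fun t => ww u T μ x t + (fun t => (2 / T * b0 x) * Real.sin (μ * t)) t := by
      funext t
      simp only [ww, hb0]
      ring
    have cS : Continuous fun t => (2 / T * b0 x) * Real.sin (μ * t) := by fun_prop
    have pS : ∀ t, (fun t => (2 / T * b0 x) * Real.sin (μ * t)) (t + T) =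
        (fun t => (2 / T * b0 x) * Real.sin (μ * t)) t := by
      intro t
      simp only
      rw [mul_add, Real.sin_add, hcT, hsT]
      ring
    have pw : ∀ t, ww u T μ x (t + T) = ww u T μ x t := by
      intro t
      have := pS t
      simp only at this
      simp only [ww]
      rw [p]
      simp only [hb0] at this
      linarith
    have e3 : BB T K (r x) (u x) = BB T K (r x) (ww u T μ x) + 2 / T * b0 x * (kc * R x) := by
      have s1 : BB T K (r x) (u x) = BB T K (u x) (r x) := BB_symm sK (pr x) (p x)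
      rw [s1]
      conv_lhs => rw [e2]
      rw [BB_add cK (cww x) cS cr', BB_symm sK pw (pr x), BB_symm sK pS (pr x)]
      congr 1
      have e4 : BB T K (r x) (fun t => (2 / T * b0 x) * Real.sin (μ * t)) =
          2 / T * b0 x * BB T K (r x) (fun t => Real.sin (μ * t)) := by
        unfold BB cor
        rw [← intervalIntegral.integral_const_mul]
        refine intervalIntegral.integral_congr fun s _ => ?_
        simp only
        have : ∀ t, r x (t - s) * ((2 / T * b0 x) * Real.sin (μ * t)) =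
            (2 / T * b0 x) * (r x (t - s) * Real.sin (μ * t)) := by intro t; ring
        simp only [this]
        rw [intervalIntegral.integral_const_mul]
        ring
      rw [e4, BB_sin hcT hsT cK sK cr' (pr x)]
    rw [e1, BB_add cK c1 cr' cux',
      BB_Kr hμ hT hcT hsT (w.ht x) (w.htt x) cutt' (p x) cux',
      BB_cos hcT hsT cux' cux' (p x), hcos, e3, hw2]
    have e5 : ∫ t in (0 : ℝ)..T, u x t * Real.sin (μ * t) = b0 x := rfl
    have e6 : ∫ t in (0 : ℝ)..T, u x t * u x t = ∫ t in (0 : ℝ)..T, u x t ^ 2 := by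
      refine intervalIntegral.integral_congr fun t _ => ?_
      ring
    rw [e5, e6]
    ring
  have hb1 : ∀ x, 2 / T * (b1 x * b1 x) ≤ ∫ t in (0 : ℝ)..T, dx u x t ^ 2 := by
    intro x
    have h1 := cs (f := fun t => dx u x t) (g := fun t => Real.sin (μ * t)) (cont_t cux x)
      (by fun_prop) hT.le
    rw [hS2] at h1
    have h2 : ∫ t in (0 : ℝ)..T, dx u x t * Real.sin (μ * t) = b1 x := rfl
    rw [h2] at h1
    have h3 : 2 / T * (b1 x * b1 x) = 2 / T * b1 x ^ 2 := by ring
    rw [h3]
    calc 2 / T * b1 x ^ 2 ≤ 2 / T * ((∫ t in (0 : ℝ)..T, dx u x t ^ 2) * (T / 2)) :=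
          mul_le_mul_of_nonneg_left h1 (by positivity)
      _ = _ := by field_simp
  have hF2n : ∀ x, 2 * (2 - |m| - η * κ) * (∫ t in (0 : ℝ)..T, dx u x t ^ 2) ≤ F2 x := by
    intro x
    have cu' := cont_t cu x
    have cux' := cont_t cux x
    have b1' := (abs_le.1 (BB_self_le cK cux' (px x) hT)).1
    rw [← hκd] at b1'
    have e4 : M2 x = 4 * (∫ t in (0 : ℝ)..T, dx u x t ^ 2) +
        2 * ∫ t in (0 : ℝ)..T, (u x t * gg N c (u x t) - 2 * GG N c (u x t)) := by
      rw [hM2e x, ← intervalIntegral.integral_const_mul, ← intervalIntegral.integral_const_mul,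
        ← intervalIntegral.integral_add]
      · refine intervalIntegral.integral_congr fun t _ => ?_
        ring
      · exact Continuous.intervalIntegrable (by fun_prop) _ _
      · exact Continuous.intervalIntegrable (by fun_prop) _ _
    have e5 : A2 x = 2 * (((∫ t in (0 : ℝ)..T, ww u T μ x t ^ 2) +
      BB T K (r x) (ww u T μ x) + 2 / T * b0 x * (kc * R x)) + BB T K (dx u x) (dx u x)) := by
      simp only [hA2]
      rw [hB x]
    have e6 : 4 * m / T * (b1 x * b1 x + b0 x * b2 x) =
        2 * (m * (2 / T * (b1 x * b1 x))) + 2 * m * (2 / T * b0 x * R x) := by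
      rw [hb2e x]; ring
    simp only [hF2]
    rw [e4, e5, e6]
    have k1 := mul_le_mul_of_nonneg_left b1' hη
    have k2 : - (|m| * ∫ t in (0 : ℝ)..T, dx u x t ^ 2) ≤ m * (2 / T * (b1 x * b1 x)) := by
      have a1 : 0 ≤ 2 / T * (b1 x * b1 x) := mul_nonneg (by positivity) (mul_self_nonneg _)
      have a2 := mul_le_mul_of_nonneg_left (hb1 x) (abs_nonneg m)
      have a3 : - (|m| * (2 / T * (b1 x * b1 x))) ≤ m * (2 / T * (b1 x * b1 x)) := by
        have := mul_le_mul_of_nonneg_right (neg_abs_le m) a1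
        linarith
      linarith
    have k3 := hrest x
    have k4 : θ = - (m + η * kc) := by linarith
    rw [k4] at k3
    have e7 : (∫ t in (0 : ℝ)..T, (gg N c (u x t) - c 1 * u x t) * Real.sin (μ * t)) = R x := rfl
    have e8 : bb u T μ x = b0 x := rfl
    rw [e7, e8] at k3
    have e9 : BB T K (fun t => gg N c (u x t) - c 1 * u x t) (ww u T μ x) =
        BB T K (r x) (ww u T μ x) := rfl
    rw [e9] at k3
    nlinarith [k1, k2, k3]
  have hpos : 0 < 2 - |m| - η * κ := by linarith
  have hI0 : ∀ x, 0 ≤ ∫ t in (0 : ℝ)..T, dx u x t ^ 2 := fun x =>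
    intervalIntegral.integral_nonneg hT.le fun t _ => sq_nonneg _
  have hmono : Monotone F1 := by
    apply monotone_of_deriv_nonneg
    · intro x; exact (hf1 x).differentiableAt
    · intro x; rw [(hf1 x).deriv]
      exact le_trans (mul_nonneg (by linarith) (hI0 x)) (hF2n x)
  have hsm : ∀ ε > 0, ∃ X, 1 ≤ X ∧ ∀ x, X ≤ |x| → |F1 x| ≤ ε := by
    intro ε hε
    have hq : 0 < 2 * T * (1 + η * κ + 2 * |m|) := by positivity
    set d := min 1 (ε / (2 * T * (1 + η * κ + 2 * |m|))) with hdd
    have hd0 : 0 < d := by positivity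
    obtain ⟨X, hX1, hX⟩ := h.small hT hd0
    refine ⟨X, hX1, fun x hx => ?_⟩
    have h5 : d ≤ 1 := min_le_left _ _
    have h6 : d ≤ ε / (2 * T * (1 + η * κ + 2 * |m|)) := min_le_right _ _
    have h7 : d * (2 * T * (1 + η * κ + 2 * |m|)) ≤ ε := (le_div_iff₀ hq).1 h6
    have h8 : d * d ≤ d := by nlinarith
    have m1 : |M1 x| ≤ 2 * d * T := by
      apply abs_int_le hT
      intro t
      obtain ⟨h1, h2, h3⟩ := hX x t hx
      rw [abs_mul, abs_mul, abs_two]
      have h9 : |u x t| * |dx u x t| ≤ d * d := mul_le_mul h1 h2 (abs_nonneg _) hd0.le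
      linarith
    have m2 : |BB T K (dx u x) (u x)| ≤ κ * (d * T) := by
      refine BB_le cK (cont_t cux x) (cont_t cu x) hT fun s => ?_
      unfold cor
      apply abs_int_le hT
      intro t
      rw [abs_mul]
      have h9 : |dx u x (t - s)| * |u x t| ≤ d * d :=
        mul_le_mul (hX x (t - s) hx).2.1 (hX x t hx).1 (abs_nonneg _) hd0.le
      linarith
    have m5 : |b0 x| ≤ d * T := by
      apply abs_int_le hT
      intro t
      rw [abs_mul]
      have := (hX x t hx).1
      have h10 := Real.abs_sin_le_one (μ * t)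
      calc |u x t| * |Real.sin (μ * t)| ≤ d * 1 :=
            mul_le_mul this h10 (abs_nonneg _) hd0.le
        _ = d := mul_one d
    have m6 : |b1 x| ≤ d * T := by
      apply abs_int_le hT
      intro t
      rw [abs_mul]
      have := (hX x t hx).2.1
      have h10 := Real.abs_sin_le_one (μ * t)
      calc |dx u x t| * |Real.sin (μ * t)| ≤ d * 1 :=
            mul_le_mul this h10 (abs_nonneg _) hd0.le
        _ = d := mul_one d
    have m7 : |4 * m / T * (b0 x * b1 x)| ≤ 4 * |m| * (d * T) := by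
      rw [abs_mul, abs_div, abs_mul, abs_mul, abs_of_pos hT]
      have h11 : |b0 x| * |b1 x| ≤ (d * T) * (d * T) :=
        mul_le_mul m5 m6 (abs_nonneg _) (by positivity)
      have h12 : (d * T) * (d * T) ≤ d * T * T := by nlinarith [mul_pos hT hT]
      have h13 : |(4 : ℝ)| = 4 := by norm_num
      rw [h13]
      calc 4 * |m| / T * (|b0 x| * |b1 x|) ≤ 4 * |m| / T * (d * T * T) :=
            mul_le_mul_of_nonneg_left (h11.trans h12) (by positivity)
        _ = 4 * |m| * (d * T) := by field_simp
    have m3 : |F1 x| ≤ |M1 x| + η * (2 * |BB T K (dx u x) (u x)|) +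
        |4 * m / T * (b0 x * b1 x)| := by
      simp only [hF1, hA1]
      refine (abs_add_le _ _).trans ?_
      gcongr
      refine (abs_add_le _ _).trans ?_
      rw [abs_mul, abs_mul, abs_of_nonneg hη, abs_two]
    have m4 := mul_le_mul_of_nonneg_left m2 hη
    linarith [m1, m3, m4, m7, h7]
  have hF10 : ∀ x, F1 x = 0 := by
    intro x
    apply le_antisymm
    · refine le_of_forall_pos_le_add fun ε hε => ?_
      obtain ⟨X, hX1, hX⟩ := hsm ε hε
      have h1 : x ≤ max x X := le_max_left _ _
      have h2 : X ≤ |max x X| := (le_max_right x X).trans (le_abs_self _)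
      have h3 := hmono h1
      have h4 := hX _ h2
      linarith [le_abs_self (F1 (max x X))]
    · refine le_of_forall_pos_le_add fun ε hε => ?_
      obtain ⟨X, hX1, hX⟩ := hsm ε hε
      have h1 : min x (-X) ≤ x := min_le_left _ _
      have h2 : X ≤ |min x (-X)| := by
        have h3 : min x (-X) ≤ -X := min_le_right _ _
        rw [abs_of_nonpos (by linarith)]
        linarith
      have h3 := hmono h1
      have h4 := hX _ h2
      linarith [neg_abs_le (F1 (min x (-X)))]
  have hF20 : ∀ x, F2 x = 0 := by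
    intro x
    have e1 : F1 = fun _ => (0 : ℝ) := by funext x; exact hF10 x
    have e2 := (hf1 x).deriv
    rw [e1] at e2
    simpa using e2.symm
  have hux : ∀ x t, dx u x t = 0 := by
    intro x t
    have h1 := hF2n x
    rw [hF20 x] at h1
    have h2 : (∫ t in (0 : ℝ)..T, dx u x t ^ 2) ≤ 0 := by
      by_contra hcon
      push Not at hcon
      have := mul_pos (mul_pos two_pos hpos) hcon
      linarith
    have h3 : ∀ s ∈ Icc 0 T, dx u x s ^ 2 = 0 :=
      zero_of_int ((cont_t cux x).pow 2) (fun s => sq_nonneg _) hT h2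
    have hper : Function.Periodic (fun s => dx u x s) T := fun s => px x s
    obtain ⟨y, hy, hy2⟩ := hper.exists_mem_Ico₀ hT t
    have := h3 y ⟨hy.1, hy.2.le⟩
    exact hy2.trans ((pow_eq_zero_iff two_ne_zero).1 this)
  intro x t
  have hcst : ∀ x y, u x t = u y t := by
    apply is_const_of_deriv_eq_zero
    · intro x; exact (w.hx x t).differentiableAt
    · intro x; rw [(w.hx x t).deriv, hux]
  have h0 : |u x t| ≤ 0 := by
    refine le_of_forall_pos_le_add fun ε hε => ?_
    obtain ⟨X, hX1, hX⟩ := h.small hT hε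
    rw [hcst x X]
    have := (hX X t (le_abs_self X)).1
    linarith
  exact abs_nonpos_iff.1 h0

end IsBreather

end H53.Br

namespace H53.Br

namespace IsBreather

variable {N : ℕ} {c : ℕ → ℝ} {T : ℝ} {u : ℝ → ℝ → ℝ}

/-- the pairing with the resonant mode, in terms of `u - w` -/
lemma bb_mul {μ : ℝ} {q : ℝ → ℝ} (hq : Continuous q) (hu : ∀ x, Continuous (u x)) (x : ℝ) :
    2 / T * bb u T μ x * (∫ t in (0 : ℝ)..T, q t * Real.sin (μ * t)) =
      (∫ t in (0 : ℝ)..T, u x t * q t) - ∫ t in (0 : ℝ)..T, ww u T μ x t * q t := by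
  have hux := hu x
  have cw : Continuous (ww u T μ x) := by unfold ww; fun_prop
  rw [← intervalIntegral.integral_sub, ← intervalIntegral.integral_const_mul]
  · refine intervalIntegral.integral_congr fun t _ => ?_
    simp only [ww]
    ring
  · exact Continuous.intervalIntegrable (by fun_prop) _ _
  · exact Continuous.intervalIntegrable (by fun_prop) _ _

lemma int_young {f g : ℝ → ℝ} (hf : Continuous f) (hg : Continuous g) (hT : 0 < T) {p : ℝ}
    (hp : 0 < p) : |∫ t in (0 : ℝ)..T, f t * g t| ≤ p / 2 * (∫ t in (0 : ℝ)..T, f t ^ 2) +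
      1 / (2 * p) * ∫ t in (0 : ℝ)..T, g t ^ 2 := by
  rw [← intervalIntegral.integral_const_mul, ← intervalIntegral.integral_const_mul,
    ← intervalIntegral.integral_add]
  · refine (intervalIntegral.abs_integral_le_integral_abs hT.le).trans ?_
    refine intervalIntegral.integral_mono_on hT.le ?_ ?_ fun t _ => ?_
    · exact Continuous.intervalIntegrable (by fun_prop) _ _
    · exact Continuous.intervalIntegrable (by fun_prop) _ _
    · have h1 : ∀ a b : ℝ, a * b ≤ p / 2 * a ^ 2 + 1 / (2 * p) * b ^ 2 := by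
        intro a b
        have h2 : 0 ≤ (p * a - b) ^ 2 / (2 * p) := by positivity
        have h3 : (p * a - b) ^ 2 / (2 * p) = p / 2 * a ^ 2 + 1 / (2 * p) * b ^ 2 - a * b := by
          field_simp
          ring
        linarith
      rw [abs_le]
      constructor
      · have := h1 (-(f t)) (g t)
        have e : (-(f t)) ^ 2 = f t ^ 2 := by ring
        rw [e] at this
        linarith
      · exact h1 _ _
  · exact Continuous.intervalIntegrable (by fun_prop) _ _
  · exact Continuous.intervalIntegrable (by fun_prop) _ _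

/-- **A pointwise criterion at a resonant period.** -/
theorem res_pointwise (hN : 1 ≤ N) (h : IsBreather N c T u) (hT : 0 < T) (hc1 : 0 < c 1)
    (hs : Real.sin (√(c 1) * T / 2) = 0) {η θ : ℝ} (hη : 0 < η) (hθ0 : 0 ≤ θ) (hθ1 : θ ≤ 1)
    (hκ : η * ((∫ s in (0 : ℝ)..T, |Kr T √(c 1) s|) +
      |∫ s in (0 : ℝ)..T, Kr T √(c 1) s * Real.cos (√(c 1) * s)|) < 1)
    (hcrit : ∀ x t, (η * (∫ s in (0 : ℝ)..T, |Kr T √(c 1) s|) *
        ((∫ s in (0 : ℝ)..T, |Kr T √(c 1) s|) + 1) / 2 + 1 / (2 * η)) *
        (gg N c (u x t) - c 1 * u x t) ^ 2 ≤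
      (u x t * gg N c (u x t) - 2 * GG N c (u x t)) -
        θ * (u x t * (gg N c (u x t) - c 1 * u x t))) :
    ∀ x t, u x t = 0 := by
  have hμ : 0 < √(c 1) := Real.sqrt_pos.2 hc1
  obtain ⟨hcT, hsT, hS2, -⟩ := res_facts hμ hT hs
  set μ := √(c 1) with hμd
  set κ := ∫ s in (0 : ℝ)..T, |Kr T μ s| with hκd
  set kc := ∫ s in (0 : ℝ)..T, Kr T μ s * Real.cos (μ * s) with hkc
  have hκ0 : 0 ≤ κ := intervalIntegral.integral_nonneg hT.le fun s _ => abs_nonneg _
  have cg := continuous_gg N c
  have cG := continuous_GG N c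
  have cK : Continuous (Kr T μ) := Kr_cont T μ
  refine res_core hN h hT hc1 hcT hsT hS2 (η := η) (θ := θ) (m := -θ - η * kc) hη.le (by ring)
    ?_ fun x => ?_
  · have h1 : |-θ - η * kc| ≤ θ + η * |kc| := by
      rw [abs_le]
      have h2 := neg_abs_le kc
      have h3 := le_abs_self kc
      constructor
      · nlinarith
      · nlinarith
    rw [← hκd]
    linarith
  · have cu' := cont_t h.w.cu x
    have cr : Continuous fun t => gg N c (u x t) - c 1 * u x t := by fun_prop
    have cw : Continuous (ww u T μ x) := by unfold ww; fun_prop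
    have pr : ∀ t, (fun t => gg N c (u x t) - c 1 * u x t) (t + T) =
        (fun t => gg N c (u x t) - c 1 * u x t) t := by
      intro t; simp only [h.periodic]
    have e1 := bb_mul (T := T) (μ := μ) (q := fun t => gg N c (u x t) - c 1 * u x t) cr
      (fun x => cont_t h.w.cu x) x
    rw [e1]
    set Ir := ∫ t in (0 : ℝ)..T, (gg N c (u x t) - c 1 * u x t) ^ 2 with hIr
    set Iw := ∫ t in (0 : ℝ)..T, ww u T μ x t ^ 2 with hIw
    have hIr0 : 0 ≤ Ir := intervalIntegral.integral_nonneg hT.le fun s _ => sq_nonneg _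
    have hIw0 : 0 ≤ Iw := intervalIntegral.integral_nonneg hT.le fun s _ => sq_nonneg _
    have b1 : |BB T (Kr T μ) (fun t => gg N c (u x t) - c 1 * u x t) (ww u T μ x)| ≤
        κ * ((κ + 1) / 2 * Ir + 1 / (2 * (κ + 1)) * Iw) :=
      BB_le cK cr cw hT fun s => cor_young cr cw pr hT (by linarith) s
    have b2 : |∫ t in (0 : ℝ)..T, ww u T μ x t * (gg N c (u x t) - c 1 * u x t)| ≤
        η / 2 * Iw + 1 / (2 * η) * Ir := int_young cw cr hT hη
    have b1' := (abs_le.1 b1).1
    have b2' := (abs_le.1 b2).1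
    have i1 : ∫ t in (0 : ℝ)..T, (η * κ * (κ + 1) / 2 + 1 / (2 * η)) *
        (gg N c (u x t) - c 1 * u x t) ^ 2 ≤
        ∫ t in (0 : ℝ)..T, ((u x t * gg N c (u x t) - 2 * GG N c (u x t)) -
        θ * (u x t * (gg N c (u x t) - c 1 * u x t))) := by
      refine intervalIntegral.integral_mono_on hT.le ?_ ?_ fun t _ => hcrit x t
      · exact Continuous.intervalIntegrable (by fun_prop) _ _
      · exact Continuous.intervalIntegrable (by fun_prop) _ _
    rw [intervalIntegral.integral_const_mul, intervalIntegral.integral_sub,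
      intervalIntegral.integral_const_mul] at i1
    rotate_left
    · exact Continuous.intervalIntegrable (by fun_prop) _ _
    · exact Continuous.intervalIntegrable (by fun_prop) _ _
    rw [← hIr] at i1
    have k1 := mul_le_mul_of_nonneg_left b1' hη.le
    have k2 := mul_le_mul_of_nonneg_left b2' hθ0
    have k3 : η * (κ * (1 / (2 * (κ + 1)) * Iw)) ≤ η / 2 * Iw := by
      have : κ * (1 / (2 * (κ + 1))) ≤ 1 / 2 := by
        rw [mul_one_div, div_le_div_iff₀ (by positivity) (by norm_num)]
        linarith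
      have h2 := mul_le_mul_of_nonneg_right this (mul_nonneg hη.le hIw0)
      linarith
    have k4 : θ * (η / 2 * Iw + 1 / (2 * η) * Ir) ≤ η / 2 * Iw + 1 / (2 * η) * Ir := by
      have : 0 ≤ η / 2 * Iw + 1 / (2 * η) * Ir := by positivity
      nlinarith
    have k5 : η * (κ * ((κ + 1) / 2 * Ir)) = η * κ * (κ + 1) / 2 * Ir := by ring
    linarith

/-- **No small breathers, for every period.** -/
theorem no_small {N : ℕ} (hN : 1 ≤ N) (c : ℕ → ℝ) (hc1 : 0 < c 1) {T : ℝ} (hT : 0 < T) :
    ∃ δ : ℝ, 0 < δ ∧ ∀ u : ℝ → ℝ → ℝ, IsBreather N c T u → (∀ x t, |u x t| ≤ δ) →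
      ∀ x t, u x t = 0 := by
  by_cases hs : Real.sin (√(c 1) * T / 2) = 0
  · -- resonant
    set κ := ∫ s in (0 : ℝ)..T, |Kr T √(c 1) s| with hκd
    set kc := ∫ s in (0 : ℝ)..T, Kr T √(c 1) s * Real.cos (√(c 1) * s) with hkc
    have hκ0 : 0 ≤ κ := intervalIntegral.integral_nonneg hT.le fun s _ => abs_nonneg _
    set η := 1 / (κ + |kc| + 1) with hηd
    have hη : 0 < η := by positivity
    have hηκ : η * (κ + |kc|) < 1 := by
      rw [hηd, one_div_mul_eq_div, div_lt_one (by positivity)]
      linarith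
    set C2 := η * κ * (κ + 1) / 2 + 1 / (2 * η) with hC2
    have main : ∃ θ : ℝ, 0 ≤ θ ∧ θ ≤ 1 ∧ ∃ δ : ℝ, 0 < δ ∧ ∀ y : ℝ, |y| ≤ δ →
        C2 * (gg N c y - c 1 * y) ^ 2 ≤ (y * gg N c y - 2 * GG N c y) -
          θ * (y * (gg N c y - c 1 * y)) := by
      simp only [rr_eq hN, dd_eq hN]
      by_cases hex : ∃ p, 2 ≤ p ∧ p ≤ N ∧ c p ≠ 0
      · classical
        set p := Nat.find hex with hp
        obtain ⟨hp2, hpN, hpc⟩ := Nat.find_spec hex
        rw [← hp] at hp2 hpN hpc
        have hlow : ∀ j, 2 ≤ j → j < p → c j = 0 := by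
          intro j hj2 hjp
          by_contra hne
          exact Nat.find_min hex hjp ⟨hj2, by omega, hne⟩
        obtain ⟨θ, hθ0, hθ1, hθ⟩ : ∃ θ : ℝ, 0 ≤ θ ∧ θ ≤ 1 ∧
            0 < (((p : ℝ) - 1) / p - θ) * c p := by
          have hp0 : (0 : ℝ) < p := by positivity
          rcases lt_or_gt_of_ne hpc with hneg | hpos
          · refine ⟨1, zero_le_one, le_rfl, ?_⟩
            have : ((p : ℝ) - 1) / p - 1 = - (1 / p) := by field_simp; ring
            rw [this]
            have : 0 < 1 / (p : ℝ) := by positivity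
            nlinarith
          · refine ⟨0, le_rfl, zero_le_one, ?_⟩
            have h2 : (2 : ℝ) ≤ p := by exact_mod_cast hp2
            have : 0 < ((p : ℝ) - 1) / p := div_pos (by linarith) hp0
            rw [sub_zero]
            exact mul_pos this hpos
        refine ⟨θ, hθ0, hθ1, ?_⟩
        set ρ : ℝ → ℝ := fun y => ∑ j ∈ Finset.Icc 2 N, c j * y ^ (2 * (j - p)) with hρ
        set σ : ℝ → ℝ := fun y => ∑ j ∈ Finset.Icc 2 N,
          ((((j : ℝ) - 1) / j - θ) * c j) * y ^ (2 * (j - p)) with hσ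
        have e1 : ∀ y : ℝ, ∑ j ∈ Finset.Icc 2 N, c j * y ^ (2 * j - 1) =
            y ^ (2 * p - 1) * ρ y := by
          intro y
          simp only [hρ]
          rw [Finset.mul_sum]
          refine Finset.sum_congr rfl fun j hj => ?_
          have hj2 := (Finset.mem_Icc.1 hj).1
          rcases lt_or_ge j p with hlt | hge
          · rw [hlow j hj2 hlt]; ring
          · have : 2 * j - 1 = (2 * p - 1) + 2 * (j - p) := by omega
            rw [this, pow_add]; ring
        have e2 : ∀ y : ℝ, (∑ j ∈ Finset.Icc 2 N, (((j : ℝ) - 1) / j * c j) * y ^ (2 * j)) -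
            θ * (y * ∑ j ∈ Finset.Icc 2 N, c j * y ^ (2 * j - 1)) = y ^ (2 * p) * σ y := by
          intro y
          simp only [hσ]
          rw [Finset.mul_sum, Finset.mul_sum, Finset.mul_sum, ← Finset.sum_sub_distrib]
          refine Finset.sum_congr rfl fun j hj => ?_
          have hj2 := (Finset.mem_Icc.1 hj).1
          rcases lt_or_ge j p with hlt | hge
          · rw [hlow j hj2 hlt]; ring
          · have h3 : 2 * j = 2 * p + 2 * (j - p) := by omega
            have h4 : y * y ^ (2 * j - 1) = y ^ (2 * p + 2 * (j - p)) := by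
              rw [← pow_succ']
              congr 1
              omega
            have h5 : θ * (y * (c j * y ^ (2 * j - 1))) = θ * c j * (y * y ^ (2 * j - 1)) := by ring
            rw [h5, h4, h3, pow_add]
            have h6 : (2 * p + 2 * (j - p)) - 0 = 2 * p + 2 * (j - p) := rfl
            ring
        have σ0 : σ 0 = (((p : ℝ) - 1) / p - θ) * c p := by
          simp only [hσ]
          rw [Finset.sum_eq_single p]
          · simp
          · intro j hj hjp
            have hj2 := (Finset.mem_Icc.1 hj).1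
            rcases lt_or_ge j p with hlt | hge
            · rw [hlow j hj2 hlt]; ring
            · have : 2 * (j - p) ≠ 0 := by omega
              rw [zero_pow this]; ring
          · intro hnot
            exact absurd (Finset.mem_Icc.2 ⟨hp2, hpN⟩) hnot
        have cσ : Continuous σ := by simp only [hσ]; fun_prop
        have cρ : Continuous ρ := by simp only [hρ]; fun_prop
        have cf : Continuous fun y => σ y - C2 * (y ^ (2 * p - 2) * ρ y ^ 2) := by fun_prop
        have f0 : 0 < σ 0 - C2 * ((0 : ℝ) ^ (2 * p - 2) * ρ 0 ^ 2) := by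
          have : 2 * p - 2 ≠ 0 := by omega
          rw [zero_pow this, σ0]
          simpa using hθ
        have hev : ∀ᶠ y in 𝓝 (0 : ℝ), 0 < σ y - C2 * (y ^ (2 * p - 2) * ρ y ^ 2) :=
          cf.continuousAt.eventually (lt_mem_nhds f0)
        obtain ⟨δ, hδ, hδ2⟩ := Metric.eventually_nhds_iff.1 hev
        refine ⟨δ / 2, by positivity, fun y hy => ?_⟩
        have hyd : dist y 0 < δ := by
          rw [Real.dist_eq, sub_zero]
          linarith
        have hfy := hδ2 hyd
        rw [e2 y, e1 y]
        have h7 : C2 * (y ^ (2 * p - 1) * ρ y) ^ 2 =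
            y ^ (2 * p) * (C2 * (y ^ (2 * p - 2) * ρ y ^ 2)) := by
          have : (y ^ (2 * p - 1)) ^ 2 = y ^ (2 * p) * y ^ (2 * p - 2) := by
            rw [← pow_mul, ← pow_add]
            congr 1
            omega
          rw [mul_pow, this]; ring
        rw [h7]
        refine mul_le_mul_of_nonneg_left (by linarith) ?_
        rw [pow_mul]
        positivity
      · push Not at hex
        refine ⟨0, le_rfl, zero_le_one, 1, one_pos, fun y _ => ?_⟩
        have e1 : ∑ j ∈ Finset.Icc 2 N, c j * y ^ (2 * j - 1) = 0 :=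
          Finset.sum_eq_zero fun j hj => by
            rw [hex j (Finset.mem_Icc.1 hj).1 (Finset.mem_Icc.1 hj).2]; ring
        have e2 : ∑ j ∈ Finset.Icc 2 N, (((j : ℝ) - 1) / j * c j) * y ^ (2 * j) = 0 :=
          Finset.sum_eq_zero fun j hj => by
            rw [hex j (Finset.mem_Icc.1 hj).1 (Finset.mem_Icc.1 hj).2]; ring
        rw [e1, e2]
        simp
    obtain ⟨θ, hθ0, hθ1, δ, hδ, hmain⟩ := main
    exact ⟨δ, hδ, fun u hu hb => res_pointwise hN hu hT hc1 hs hη hθ0 hθ1 hηκ
      fun x t => hmain _ (hb x t)⟩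
  · -- non resonant
    set κ := ∫ s in (0 : ℝ)..T, |KK T √(c 1) 0 s| with hκd
    have hκ0 : 0 ≤ κ := intervalIntegral.integral_nonneg hT.le fun s _ => abs_nonneg _
    set η := 1 / (κ + 1) with hηd
    have hη : 0 < η := by positivity
    have hηκ : η * κ < 2 := by
      have : η * κ < 1 := by
        rw [hηd, one_div_mul_eq_div, div_lt_one (by positivity)]
        linarith
      linarith
    have hηκ1 : η * κ ≤ 1 := by
      rw [hηd, one_div_mul_eq_div, div_le_one (by positivity)]
      linarith
    set ρ : ℝ → ℝ := fun y => ∑ j ∈ Finset.Icc 2 N, c j * y ^ (2 * j - 2) with hρ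
    set σ : ℝ → ℝ := fun y => ∑ j ∈ Finset.Icc 2 N,
      (((j : ℝ) - 1) / j * c j) * y ^ (2 * j - 2) with hσ
    have e1 : ∀ y : ℝ, gg N c y - c 1 * y = y * ρ y := by
      intro y
      rw [rr_eq hN]
      simp only [hρ]
      rw [Finset.mul_sum]
      refine Finset.sum_congr rfl fun j hj => ?_
      have hj2 := (Finset.mem_Icc.1 hj).1
      have : 2 * j - 1 = (2 * j - 2) + 1 := by omega
      rw [this, pow_succ]; ring
    have e2 : ∀ y : ℝ, y * gg N c y - 2 * GG N c y = y ^ 2 * σ y := by
      intro y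
      rw [dd_eq hN]
      simp only [hσ]
      rw [Finset.mul_sum]
      refine Finset.sum_congr rfl fun j hj => ?_
      have hj2 := (Finset.mem_Icc.1 hj).1
      have h3 : y ^ (2 * j) = y ^ (2 * j - 2) * y ^ 2 := by
        rw [← pow_add]
        congr 1
        omega
      rw [h3]; ring
    have ρ0 : ρ 0 = 0 := by
      simp only [hρ]
      refine Finset.sum_eq_zero fun j hj => ?_
      have hj2 := (Finset.mem_Icc.1 hj).1
      have : 2 * j - 2 ≠ 0 := by omega
      rw [zero_pow this]; ring
    have σ0 : σ 0 = 0 := by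
      simp only [hσ]
      refine Finset.sum_eq_zero fun j hj => ?_
      have hj2 := (Finset.mem_Icc.1 hj).1
      have : 2 * j - 2 ≠ 0 := by omega
      rw [zero_pow this]; ring
    have cσ : Continuous σ := by simp only [hσ]; fun_prop
    have cρ : Continuous ρ := by simp only [hρ]; fun_prop
    have h1 : ∀ᶠ y in 𝓝 (0 : ℝ), |ρ y| < η / 2 := by
      have : Continuous fun y => |ρ y| := cρ.abs
      refine this.continuousAt.eventually (gt_mem_nhds ?_)
      simp only [ρ0, abs_zero]
      positivity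
    have h2 : ∀ᶠ y in 𝓝 (0 : ℝ), |σ y| < η / 2 := by
      have : Continuous fun y => |σ y| := cσ.abs
      refine this.continuousAt.eventually (gt_mem_nhds ?_)
      simp only [σ0, abs_zero]
      positivity
    obtain ⟨δ, hδ, hδ2⟩ := Metric.eventually_nhds_iff.1 (h1.and h2)
    refine ⟨δ / 2, by positivity, fun u hu hb => ?_⟩
    have hy : ∀ x t, |ρ (u x t)| < η / 2 ∧ |σ (u x t)| < η / 2 := by
      intro x t
      apply hδ2
      rw [Real.dist_eq, sub_zero]
      have := hb x t
      linarith
    refine kernel_star hN hu hT hc1 hs 0 hη.le hηκ (hh := fun y => η / 2 * y) (by fun_prop)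
      ?_ ?_ ?_
    · intro a _ b _ hab
      exact mul_le_mul_of_nonneg_left hab (by positivity)
    · intro x t
      rw [e1, abs_mul]
      have := mul_le_mul_of_nonneg_left (hy x t).1.le (abs_nonneg (u x t))
      linarith
    · intro x t
      rw [e2]
      have h3 := (abs_le.1 (hy x t).2.le).1
      have h4 : |u x t| * |u x t| = u x t ^ 2 := by rw [← sq, sq_abs]
      have h5 : 0 ≤ u x t ^ 2 := sq_nonneg _
      have h6 := mul_le_mul_of_nonneg_left h3 h5
      have h7 : η * κ * (|u x t| * (η / 2 * |u x t|)) = η * κ * (η / 2 * u x t ^ 2) := by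
        rw [← h4]; ring
      rw [← hκd, h7]
      have h8 : η * κ * (η / 2 * u x t ^ 2) ≤ 1 * (η / 2 * u x t ^ 2) :=
        mul_le_mul_of_nonneg_right hηκ1 (by positivity)
      linarith

end IsBreather

end H53.Br

namespace H53.Br

/-- Chebyshev's inequality with a weight -/
lemma cheb {T : ℝ} (hT : 0 < T) {f h s : ℝ → ℝ} (hf : Continuous f) (hh : Continuous h)
    (hs : Continuous s) (hs0 : ∀ t, 0 ≤ s t) (hfh : ∀ t τ, 0 ≤ (f t - f τ) * (h t - h τ)) :
    (∫ t in (0 : ℝ)..T, f t * s t) * (∫ t in (0 : ℝ)..T, h t * s t) ≤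
      (∫ t in (0 : ℝ)..T, s t) * ∫ t in (0 : ℝ)..T, f t * h t * s t := by
  set A := ∫ t in (0 : ℝ)..T, f t * s t with hA
  set H := ∫ t in (0 : ℝ)..T, h t * s t with hH
  set I := ∫ t in (0 : ℝ)..T, s t with hI
  set C := ∫ t in (0 : ℝ)..T, f t * h t * s t with hC
  have h1 : ∀ τ, 0 ≤ C - h τ * A - f τ * H + f τ * h τ * I := by
    intro τ
    have h2 : 0 ≤ ∫ t in (0 : ℝ)..T, (f t - f τ) * (h t - h τ) * s t :=
      intervalIntegral.integral_nonneg hT.le fun t _ => mul_nonneg (hfh t τ) (hs0 t)
    have h3 : ∫ t in (0 : ℝ)..T, (f t - f τ) * (h t - h τ) * s t =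
        C - h τ * A - f τ * H + f τ * h τ * I := by
      have e : ∀ t, (f t - f τ) * (h t - h τ) * s t =
          f t * h t * s t - h τ * (f t * s t) - f τ * (h t * s t) + f τ * h τ * s t := by
        intro t; ring
      simp only [e]
      rw [intervalIntegral.integral_add, intervalIntegral.integral_sub,
        intervalIntegral.integral_sub, intervalIntegral.integral_const_mul,
        intervalIntegral.integral_const_mul, intervalIntegral.integral_const_mul]
      all_goals exact Continuous.intervalIntegrable (by fun_prop) _ _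
    rw [← h3]
    exact h2
  have h4 : 0 ≤ ∫ τ in (0 : ℝ)..T, (C - h τ * A - f τ * H + f τ * h τ * I) * s τ :=
    intervalIntegral.integral_nonneg hT.le fun t _ => mul_nonneg (h1 t) (hs0 t)
  have h5 : ∫ τ in (0 : ℝ)..T, (C - h τ * A - f τ * H + f τ * h τ * I) * s τ =
      C * I - A * H - H * A + I * C := by
    have e : ∀ τ, (C - h τ * A - f τ * H + f τ * h τ * I) * s τ =
        C * s τ - A * (h τ * s τ) - H * (f τ * s τ) + I * (f τ * h τ * s τ) := by
      intro τ; ring
    simp only [e]
    rw [intervalIntegral.integral_add, intervalIntegral.integral_sub,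
      intervalIntegral.integral_sub, intervalIntegral.integral_const_mul,
      intervalIntegral.integral_const_mul, intervalIntegral.integral_const_mul,
      intervalIntegral.integral_const_mul]
    all_goals exact Continuous.intervalIntegrable (by fun_prop) _ _
  rw [h5] at h4
  linarith

namespace IsBreather

variable {N : ℕ} {c : ℕ → ℝ} {T : ℝ} {u : ℝ → ℝ → ℝ}

/-- the resonant mode against a monotone nonlinearity -/
lemma mode_le {μ : ℝ} (hT : 0 < T)
    (habs : ∫ t in (0 : ℝ)..T, |Real.sin (μ * t)| = 2 * T / Real.pi) {hh : ℝ → ℝ}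
    (hh0 : Continuous hh) (hm : MonotoneOn hh (Ici 0)) (hhn : ∀ y, 0 ≤ y → 0 ≤ hh y)
    {q : ℝ → ℝ} (cq : Continuous q) (x : ℝ) (cu : Continuous (u x))
    (hq : ∀ t, |q t| ≤ hh |u x t|) :
    |2 / T * bb u T μ x * ∫ t in (0 : ℝ)..T, q t * Real.sin (μ * t)| ≤
      4 / Real.pi * ∫ t in (0 : ℝ)..T, |u x t| * hh |u x t| := by
  have hpi := Real.pi_pos
  set s : ℝ → ℝ := fun t => |Real.sin (μ * t)| with hs
  have cs : Continuous s := by simp only [hs]; fun_prop
  have cH : Continuous fun t => hh |u x t| := hh0.comp cu.abs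
  have hs1 : ∀ t, s t ≤ 1 := fun t => Real.abs_sin_le_one _
  have hs0 : ∀ t, 0 ≤ s t := fun t => abs_nonneg _
  have h1 : |bb u T μ x| ≤ ∫ t in (0 : ℝ)..T, |u x t| * s t := by
    unfold bb
    refine (intervalIntegral.abs_integral_le_integral_abs hT.le).trans (le_of_eq ?_)
    refine intervalIntegral.integral_congr fun t _ => ?_
    simp only [abs_mul, hs]
  have h2 : |∫ t in (0 : ℝ)..T, q t * Real.sin (μ * t)| ≤ ∫ t in (0 : ℝ)..T, hh |u x t| * s t := by
    refine (intervalIntegral.abs_integral_le_integral_abs hT.le).trans ?_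
    refine intervalIntegral.integral_mono_on hT.le ?_ ?_ fun t _ => ?_
    · exact Continuous.intervalIntegrable (by fun_prop) _ _
    · exact Continuous.intervalIntegrable (by fun_prop) _ _
    · rw [abs_mul]
      exact mul_le_mul_of_nonneg_right (hq t) (abs_nonneg _)
  have h3 := cheb (T := T) hT (f := fun t => |u x t|) (h := fun t => hh |u x t|) (s := s)
    cu.abs cH cs hs0 (fun t τ => by
      rcases le_total (|u x t|) (|u x τ|) with hle | hle
      · have := hm (Set.mem_Ici.2 (abs_nonneg _)) (Set.mem_Ici.2 (abs_nonneg _)) hle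
        exact mul_nonneg_of_nonpos_of_nonpos (by linarith) (by linarith)
      · have := hm (Set.mem_Ici.2 (abs_nonneg _)) (Set.mem_Ici.2 (abs_nonneg _)) hle
        exact mul_nonneg (by linarith) (by linarith))
  have h4 : ∫ t in (0 : ℝ)..T, |u x t| * hh |u x t| * s t ≤
      ∫ t in (0 : ℝ)..T, |u x t| * hh |u x t| := by
    refine intervalIntegral.integral_mono_on hT.le ?_ ?_ fun t _ => ?_
    · exact Continuous.intervalIntegrable (by fun_prop) _ _
    · exact Continuous.intervalIntegrable (by fun_prop) _ _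
    · exact mul_le_of_le_one_right (mul_nonneg (abs_nonneg _) (hhn _ (abs_nonneg _))) (hs1 t)
  have h5 : ∫ t in (0 : ℝ)..T, s t = 2 * T / Real.pi := habs
  rw [h5] at h3
  have h6 : 0 ≤ ∫ t in (0 : ℝ)..T, hh |u x t| * s t :=
    intervalIntegral.integral_nonneg hT.le fun t _ => mul_nonneg (hhn _ (abs_nonneg _)) (hs0 t)
  rw [abs_mul, abs_mul, abs_of_pos (by positivity : 0 < 2 / T)]
  calc 2 / T * |bb u T μ x| * |∫ t in (0 : ℝ)..T, q t * Real.sin (μ * t)|
      ≤ 2 / T * ((∫ t in (0 : ℝ)..T, |u x t| * s t) * ∫ t in (0 : ℝ)..T, hh |u x t| * s t) := by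
        rw [mul_assoc]
        refine mul_le_mul_of_nonneg_left ?_ (by positivity)
        exact mul_le_mul h1 h2 (abs_nonneg _) ((abs_nonneg _).trans h1)
    _ ≤ 2 / T * (2 * T / Real.pi * ∫ t in (0 : ℝ)..T, |u x t| * hh |u x t|) := by
        refine mul_le_mul_of_nonneg_left (h3.trans ?_) (by positivity)
        exact mul_le_mul_of_nonneg_left h4 (by positivity)
    _ = _ := by field_simp; ring

/-- splitting off the resonant mode in the second slot -/
lemma BB_ww {μ : ℝ} (hcT : Real.cos (μ * T) = 1) (hsT : Real.sin (μ * T) = 0) {K r : ℝ → ℝ}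
    (cK : Continuous K) (sK : ∀ s, K (T - s) = K s) (cr : Continuous r)
    (pr : ∀ t, r (t + T) = r t) (x : ℝ) (cu : Continuous (u x)) (pu : ∀ t, u x (t + T) = u x t) :
    BB T K r (u x) = BB T K r (ww u T μ x) + 2 / T * bb u T μ x *
      ((∫ s in (0 : ℝ)..T, K s * Real.cos (μ * s)) *
        ∫ t in (0 : ℝ)..T, r t * Real.sin (μ * t)) := by
  have cw : Continuous (ww u T μ x) := by unfold ww; fun_prop
  have e2 : u x = fun t => ww u T μ x t + (fun t => (2 / T * bb u T μ x) * Real.sin (μ * t)) t := by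
    funext t
    simp only [ww]
    ring
  have cS : Continuous fun t => (2 / T * bb u T μ x) * Real.sin (μ * t) := by fun_prop
  have pS : ∀ t, (fun t => (2 / T * bb u T μ x) * Real.sin (μ * t)) (t + T) =
      (fun t => (2 / T * bb u T μ x) * Real.sin (μ * t)) t := by
    intro t
    simp only
    rw [mul_add, Real.sin_add, hcT, hsT]
    ring
  have pw : ∀ t, ww u T μ x (t + T) = ww u T μ x t := by
    intro t
    have := pS t
    simp only at this
    simp only [ww]
    rw [pu]
    linarith
  have s1 : BB T K r (u x) = BB T K (u x) r := BB_symm sK pr pu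
  rw [s1]
  conv_lhs => rw [e2]
  rw [BB_add cK cw cS cr, BB_symm sK pw pr, BB_symm sK pS pr]
  congr 1
  have e4 : BB T K r (fun t => (2 / T * bb u T μ x) * Real.sin (μ * t)) =
      2 / T * bb u T μ x * BB T K r (fun t => Real.sin (μ * t)) := by
    unfold BB cor
    rw [← intervalIntegral.integral_const_mul]
    refine intervalIntegral.integral_congr fun s _ => ?_
    simp only
    have : ∀ t, r (t - s) * ((2 / T * bb u T μ x) * Real.sin (μ * t)) =
        (2 / T * bb u T μ x) * (r (t - s) * Real.sin (μ * t)) := by intro t; ring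
    simp only [this]
    rw [intervalIntegral.integral_const_mul]
    ring
  rw [e4, BB_sin hcT hsT cK sK cr pr]

/-- the part of the nonlinearity of degree at least `5` -/
noncomputable def qq (N : ℕ) (c : ℕ → ℝ) (y : ℝ) : ℝ := ∑ j ∈ Finset.Icc 3 N, c j * y ^ (2 * j - 1)

lemma qq_cont (N : ℕ) (c : ℕ → ℝ) : Continuous (qq N c) := by unfold qq; fun_prop

lemma qq_nonneg (hc : ∀ j, 3 ≤ j → j ≤ N → 0 ≤ c j) {y : ℝ} (hy : 0 ≤ y) : 0 ≤ qq N c y :=
  Finset.sum_nonneg fun j hj => mul_nonneg (hc j (Finset.mem_Icc.1 hj).1 (Finset.mem_Icc.1 hj).2)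
    (pow_nonneg hy _)

lemma qq_mono (hc : ∀ j, 3 ≤ j → j ≤ N → 0 ≤ c j) : MonotoneOn (qq N c) (Ici 0) := by
  intro a ha b _ hab
  refine Finset.sum_le_sum fun j hj => ?_
  exact mul_le_mul_of_nonneg_left (pow_le_pow_left₀ ha hab _)
    (hc j (Finset.mem_Icc.1 hj).1 (Finset.mem_Icc.1 hj).2)

lemma qq_neg (N : ℕ) (c : ℕ → ℝ) (y : ℝ) : qq N c (-y) = - qq N c y := by
  unfold qq
  rw [← Finset.sum_neg_distrib]
  refine Finset.sum_congr rfl fun j hj => ?_
  have hj3 := (Finset.mem_Icc.1 hj).1
  have : Odd (2 * j - 1) := ⟨j - 1, by omega⟩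
  rw [this.neg_pow]; ring

lemma qq_abs (hc : ∀ j, 3 ≤ j → j ≤ N → 0 ≤ c j) (y : ℝ) :
    |qq N c y| = qq N c |y| ∧ |y| * qq N c |y| = y * qq N c y := by
  rcases le_total 0 y with h | h
  · rw [abs_of_nonneg h, abs_of_nonneg (qq_nonneg hc h)]
    exact ⟨rfl, rfl⟩
  · rw [abs_of_nonpos h, qq_neg, abs_of_nonpos]
    · exact ⟨rfl, by ring⟩
    · have := qq_nonneg (N := N) hc (y := -y) (by linarith)
      rw [qq_neg] at this
      linarith

lemma qq_ge (hN : 3 ≤ N) (hc : ∀ j, 3 ≤ j → j ≤ N → 0 ≤ c j) (y : ℝ) :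
    c N * (y ^ 2) ^ N ≤ y * qq N c y := by
  unfold qq
  rw [Finset.mul_sum]
  have h1 : ∀ j ∈ Finset.Icc 3 N, 0 ≤ y * (c j * y ^ (2 * j - 1)) := by
    intro j hj
    have hj3 := (Finset.mem_Icc.1 hj).1
    have : y * (c j * y ^ (2 * j - 1)) = c j * (y ^ 2) ^ j := by
      have h2 : (y ^ 2) ^ j = y * y ^ (2 * j - 1) := by
        rw [← pow_mul, ← pow_succ']
        congr 1
        omega
      rw [h2]; ring
    rw [this]
    exact mul_nonneg (hc j hj3 (Finset.mem_Icc.1 hj).2) (by positivity)
  have h3 := Finset.single_le_sum h1 (Finset.mem_Icc.2 ⟨hN, le_rfl⟩)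
  refine le_trans (le_of_eq ?_) h3
  have h2 : (y ^ 2) ^ N = y * y ^ (2 * N - 1) := by
    rw [← pow_mul, ← pow_succ']
    congr 1
    omega
  rw [h2]; ring

lemma rr_qq (hN : 3 ≤ N) (c : ℕ → ℝ) (y : ℝ) :
    gg N c y - c 1 * y = c 2 * y ^ 3 + qq N c y := by
  rw [rr_eq (by omega), ← Finset.add_sum_Ioc_eq_sum_Icc (by omega : 2 ≤ N)]
  have : Finset.Ioc 2 N = Finset.Icc 3 N := by
    ext j; simp only [Finset.mem_Ioc, Finset.mem_Icc]; omega
  rw [this]
  rfl

lemma dd_qq (hN : 3 ≤ N) (hc : ∀ j, 3 ≤ j → j ≤ N → 0 ≤ c j) (y : ℝ) :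
    c 2 / 2 * y ^ 4 + 2 / 3 * (y * qq N c y) ≤ y * gg N c y - 2 * GG N c y := by
  rw [dd_eq (by omega), ← Finset.add_sum_Ioc_eq_sum_Icc (by omega : 2 ≤ N)]
  have : Finset.Ioc 2 N = Finset.Icc 3 N := by
    ext j; simp only [Finset.mem_Ioc, Finset.mem_Icc]; omega
  rw [this]
  have e1 : (((2 : ℕ) : ℝ) - 1) / (2 : ℕ) * c 2 * y ^ (2 * 2) = c 2 / 2 * y ^ 4 := by
    push_cast; ring
  rw [e1]
  have h1 : 2 / 3 * (y * qq N c y) ≤
      ∑ j ∈ Finset.Icc 3 N, (((j : ℝ) - 1) / j * c j) * y ^ (2 * j) := by
    unfold qq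
    rw [Finset.mul_sum, Finset.mul_sum]
    refine Finset.sum_le_sum fun j hj => ?_
    have hj3 := (Finset.mem_Icc.1 hj).1
    have hjN := (Finset.mem_Icc.1 hj).2
    have h2 : y * (c j * y ^ (2 * j - 1)) = c j * (y ^ 2) ^ j := by
      have h2 : (y ^ 2) ^ j = y * y ^ (2 * j - 1) := by
        rw [← pow_mul, ← pow_succ']
        congr 1
        omega
      rw [h2]; ring
    rw [h2, pow_mul]
    have h3 : 0 ≤ c j * (y ^ 2) ^ j := mul_nonneg (hc j hj3 hjN) (by positivity)
    have h4 : (2 : ℝ) / 3 ≤ ((j : ℝ) - 1) / j := by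
      have : (3 : ℝ) ≤ j := by exact_mod_cast hj3
      rw [div_le_div_iff₀ (by norm_num) (by linarith)]
      linarith
    have h5 := mul_le_mul_of_nonneg_right h4 h3
    linarith
  linarith

/-- **Stability of nonexistence.** For every period `T > 0` and `c₁ > 0`, `N ≥ 3`, `γ > 0` there is
`ε > 0` such that the equation has no nonzero breather if `c_N ≥ γ`, `c₃, …, c_{N-1} ≥ 0` and
`c₂ ≥ -ε`. -/
theorem stab {N : ℕ} (hN : 3 ≤ N) {c₁ γ T : ℝ} (hc1 : 0 < c₁) (hγ : 0 < γ) (hT : 0 < T) :
    ∃ ε : ℝ, 0 < ε ∧ ∀ c : ℕ → ℝ, c 1 = c₁ → γ ≤ c N → (∀ j, 3 ≤ j → j ≤ N → 0 ≤ c j) →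
      -ε ≤ c 2 → ∀ u : ℝ → ℝ → ℝ, IsBreather N c T u → ∀ x t, u x t = 0 := by
  have hpos2 : ∀ c : ℕ → ℝ, (∀ j, 3 ≤ j → j ≤ N → 0 ≤ c j) → 0 ≤ c 2 →
      ∀ u : ℝ → ℝ → ℝ, IsBreather N c T u → ∀ x t, u x t = 0 := by
    intro c hc h2 u hu
    refine hu.star hT fun x t => ?_
    have h1 := dd_qq hN hc (u x t)
    have h3 : 0 ≤ c 2 / 2 * u x t ^ 4 := by positivity
    have h4 : 0 ≤ u x t * qq N c (u x t) := by
      rw [← (qq_abs hc (u x t)).2]
      exact mul_nonneg (abs_nonneg _) (qq_nonneg hc (abs_nonneg _))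
    linarith
  by_cases hs : Real.sin (√c₁ * T / 2) = 0
  · -- resonant
    obtain ⟨hcT, hsT, hS2, habs⟩ := res_facts (Real.sqrt_pos.2 hc1) hT hs
    have hpi := Real.pi_pos
    have hpi3 := Real.pi_gt_d2
    set κ := ∫ s in (0 : ℝ)..T, |Kr T √c₁ s| with hκd
    set kc := ∫ s in (0 : ℝ)..T, Kr T √c₁ s * Real.cos (√c₁ * s) with hkc
    have hκ0 : 0 ≤ κ := intervalIntegral.integral_nonneg hT.le fun s _ => abs_nonneg _
    have hkc0 : 0 ≤ |kc| := abs_nonneg _
    set η := (6 / 1000) / (κ + 2 * |kc| + 1) with hηd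
    have hη : 0 < η := by positivity
    have hηκ : η * (κ + 2 * |kc|) ≤ 6 / 1000 := by
      rw [hηd, div_mul_eq_mul_div, div_le_iff₀ (by positivity)]
      nlinarith
    set C3 := η * κ * (κ + 1) / 2 + 1 / (2 * η) with hC3
    have hC30 : 0 < C3 := by positivity
    set y0 := (1 / 100) / C3 with hy0
    have hy00 : 0 < y0 := by positivity
    set ε := min 1 (1 / 100 * γ * y0 ^ (N - 3) / C3) with hε
    have hε0 : 0 < ε := by positivity
    refine ⟨ε, hε0, fun c hcc hcN hc hc2 u hu => ?_⟩
    rcases le_total 0 (c 2) with h2 | h2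
    · exact hpos2 c hc h2 u hu
    set e := - c 2 with hed
    have he0 : 0 ≤ e := by linarith
    have heε : e ≤ ε := by linarith
    have he1 : e ≤ 1 := heε.trans (min_le_left _ _)
    have heC : e * C3 ≤ 1 / 100 * γ * y0 ^ (N - 3) := by
      have := heε.trans (min_le_right _ _)
      rwa [le_div_iff₀ hC30] at this
    have he2 : e ^ 2 ≤ e := by nlinarith
    subst hcc
    have cK : Continuous (Kr T √(c 1)) := Kr_cont T _
    have sK : ∀ s, Kr T √(c 1) (T - s) = Kr T √(c 1) s := Kr_symm hcT hsT
    set μ := √(c 1) with hμd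
    refine res_core (by omega) hu hT hc1 hcT hsT hS2 (η := η) (θ := 51 / 100)
      (m := -(51 / 100) - η * kc) hη.le (by ring) ?_ fun x => ?_
    · have h1 : |-(51 / 100) - η * kc| ≤ 51 / 100 + η * |kc| := by
        rw [abs_le]
        have h2 := neg_abs_le kc
        have h3 := le_abs_self kc
        constructor
        · nlinarith
        · nlinarith
      rw [← hκd]
      nlinarith
    · have cg := continuous_gg N c
      have cG := continuous_GG N c
      have cq0 := qq_cont N c
      have cu' := cont_t hu.w.cu x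
      have pu := hu.periodic x
      have cq : Continuous fun t => qq N c (u x t) := cq0.comp cu'
      have c3 : Continuous fun t => c 2 * u x t ^ 3 := by fun_prop
      have cw : Continuous (ww u T μ x) := by unfold ww; fun_prop
      have pq : ∀ t, (fun t => qq N c (u x t)) (t + T) = (fun t => qq N c (u x t)) t := by
        intro t; simp only [pu]
      have p3 : ∀ t, (fun t => c 2 * u x t ^ 3) (t + T) = (fun t => c 2 * u x t ^ 3) t := by
        intro t; simp only [pu]
      set Iw := ∫ t in (0 : ℝ)..T, ww u T μ x t ^ 2 with hIw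
      set I3 := ∫ t in (0 : ℝ)..T, (c 2 * u x t ^ 3) ^ 2 with hI3
      set Iq := ∫ t in (0 : ℝ)..T, |u x t| * qq N c |u x t| with hIq
      have hIw0 : 0 ≤ Iw := intervalIntegral.integral_nonneg hT.le fun s _ => sq_nonneg _
      have hI30 : 0 ≤ I3 := intervalIntegral.integral_nonneg hT.le fun s _ => sq_nonneg _
      have hIq0 : 0 ≤ Iq := intervalIntegral.integral_nonneg hT.le fun s _ =>
        mul_nonneg (abs_nonneg _) (qq_nonneg hc (abs_nonneg _))
      -- splitting of the nonlinearity
      have er : (fun t => gg N c (u x t) - c 1 * u x t) =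
          fun t => (fun t => c 2 * u x t ^ 3) t + (fun t => qq N c (u x t)) t := by
        funext t
        exact rr_qq hN c (u x t)
      have s1 : BB T (Kr T μ) (fun t => gg N c (u x t) - c 1 * u x t) (ww u T μ x) =
          BB T (Kr T μ) (fun t => c 2 * u x t ^ 3) (ww u T μ x) +
          BB T (Kr T μ) (fun t => qq N c (u x t)) (ww u T μ x) := by
        rw [er, BB_add cK c3 cq cw]
      have s2 : (∫ t in (0 : ℝ)..T, (gg N c (u x t) - c 1 * u x t) * Real.sin (μ * t)) =
          (∫ t in (0 : ℝ)..T, (c 2 * u x t ^ 3) * Real.sin (μ * t)) +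
          ∫ t in (0 : ℝ)..T, qq N c (u x t) * Real.sin (μ * t) := by
        rw [← intervalIntegral.integral_add]
        · refine intervalIntegral.integral_congr fun t _ => ?_
          have := rr_qq hN c (u x t)
          rw [this]
          ring
        · exact Continuous.intervalIntegrable (by fun_prop) _ _
        · exact Continuous.intervalIntegrable (by fun_prop) _ _
      have s3 := bb_mul (T := T) (μ := μ) (q := fun t => c 2 * u x t ^ 3) c3
        (fun x => cont_t hu.w.cu x) x
      have s4 := BB_ww (T := T) hcT hsT cK sK cq pq x cu' pu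
      rw [← hkc] at s4
      have b1 : |BB T (Kr T μ) (fun t => c 2 * u x t ^ 3) (ww u T μ x)| ≤
          κ * ((κ + 1) / 2 * I3 + 1 / (2 * (κ + 1)) * Iw) :=
        BB_le cK c3 cw hT fun s => cor_young c3 cw p3 hT (by linarith) s
      have b2 : |∫ t in (0 : ℝ)..T, ww u T μ x t * (c 2 * u x t ^ 3)| ≤
          η / 2 * Iw + 1 / (2 * η) * I3 := int_young cw c3 hT hη
      have b3 : |BB T (Kr T μ) (fun t => qq N c (u x t)) (u x)| ≤ κ * Iq :=
        BB_mono_le cK sK cq cu' cq0 (qq_mono hc) pu hT fun t => (qq_abs hc (u x t)).1.le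
      have b4 : |2 / T * bb u T μ x * ∫ t in (0 : ℝ)..T, qq N c (u x t) * Real.sin (μ * t)| ≤
          4 / Real.pi * Iq :=
        mode_le hT habs cq0 (qq_mono hc) (fun y hy => qq_nonneg hc hy) cq x cu'
          fun t => (qq_abs hc (u x t)).1.le
      set B1 := BB T (Kr T μ) (fun t => c 2 * u x t ^ 3) (ww u T μ x) with hB1
      set B2 := BB T (Kr T μ) (fun t => qq N c (u x t)) (ww u T μ x) with hB2
      set B3 := BB T (Kr T μ) (fun t => qq N c (u x t)) (u x) with hB3
      set Q := 2 / T * bb u T μ x * ∫ t in (0 : ℝ)..T, qq N c (u x t) * Real.sin (μ * t) with hQ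
      set W3 := ∫ t in (0 : ℝ)..T, ww u T μ x t * (c 2 * u x t ^ 3) with hW3
      set U4 := ∫ t in (0 : ℝ)..T, u x t * (c 2 * u x t ^ 3) with hU4
      have s4' : B2 = B3 - kc * Q := by
        rw [hQ]
        linarith
      have s5 : 2 / T * bb u T μ x * (∫ t in (0 : ℝ)..T,
          (gg N c (u x t) - c 1 * u x t) * Real.sin (μ * t)) = (U4 - W3) + Q := by
        rw [s2, mul_add]
        rw [s3]
      -- the pointwise inequality
      have hpt : ∀ y : ℝ, C3 * (c 2 * y ^ 3) ^ 2 ≤
          (1 / 100) * (-(y * (c 2 * y ^ 3))) + (1 / 100) * (|y| * qq N c |y|) := by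
        intro y
        rw [(qq_abs hc y).2]
        have h1 := qq_ge hN hc y
        set z := y ^ 2 with hz
        have hz0 : 0 ≤ z := sq_nonneg _
        have e1 : (c 2 * y ^ 3) ^ 2 = e ^ 2 * z ^ 3 := by rw [hed, hz]; ring
        have e2 : -(y * (c 2 * y ^ 3)) = e * z ^ 2 := by rw [hed, hz]; ring
        rw [e1, e2]
        have h3 : γ * z ^ N ≤ c N * z ^ N := mul_le_mul_of_nonneg_right hcN (by positivity)
        have h4 : C3 * (e ^ 2 * z ^ 3) ≤ C3 * (e * z ^ 3) := by
          refine mul_le_mul_of_nonneg_left ?_ hC30.le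
          exact mul_le_mul_of_nonneg_right he2 (by positivity)
        rcases le_total z y0 with hle | hle
        · have h5 : C3 * z ≤ 1 / 100 := by
            rw [hy0, le_div_iff₀ hC30] at hle
            linarith
          have h6 : C3 * (e * z ^ 3) ≤ 1 / 100 * (e * z ^ 2) := by
            have : C3 * (e * z ^ 3) = (C3 * z) * (e * z ^ 2) := by ring
            rw [this]
            exact mul_le_mul_of_nonneg_right h5 (by positivity)
          have h7 : 0 ≤ γ * z ^ N := by positivity
          linarith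
        · have h5 : y0 ^ (N - 3) ≤ z ^ (N - 3) := pow_le_pow_left₀ hy00.le hle _
          have h6 : C3 * (e * z ^ 3) ≤ 1 / 100 * (γ * z ^ N) := by
            have e3 : z ^ N = z ^ (N - 3) * z ^ 3 := by
              rw [← pow_add]
              congr 1
              omega
            have e4 : C3 * (e * z ^ 3) = (e * C3) * z ^ 3 := by ring
            rw [e3, e4]
            have h8 : e * C3 ≤ 1 / 100 * γ * z ^ (N - 3) :=
              heC.trans (mul_le_mul_of_nonneg_left h5 (by positivity))
            have h9 := mul_le_mul_of_nonneg_right h8 (pow_nonneg hz0 3)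
            linarith
          have h7 : 0 ≤ e * z ^ 2 := by positivity
          linarith
      have i1 : ∫ t in (0 : ℝ)..T, C3 * (c 2 * u x t ^ 3) ^ 2 ≤
          ∫ t in (0 : ℝ)..T, ((1 / 100) * (-(u x t * (c 2 * u x t ^ 3))) +
            (1 / 100) * (|u x t| * qq N c |u x t|)) := by
        refine intervalIntegral.integral_mono_on hT.le ?_ ?_ fun t _ => hpt (u x t)
        · exact Continuous.intervalIntegrable (by fun_prop) _ _
        · exact Continuous.intervalIntegrable (by fun_prop) _ _
      rw [intervalIntegral.integral_const_mul, intervalIntegral.integral_add,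
        intervalIntegral.integral_const_mul, intervalIntegral.integral_const_mul,
        intervalIntegral.integral_neg] at i1
      rotate_left
      · exact Continuous.intervalIntegrable (by fun_prop) _ _
      · exact Continuous.intervalIntegrable (by fun_prop) _ _
      rw [← hI3, ← hU4, ← hIq] at i1
      have i2 : ∫ t in (0 : ℝ)..T, ((1 / 2) * (u x t * (c 2 * u x t ^ 3)) +
            (2 / 3) * (|u x t| * qq N c |u x t|)) ≤
          ∫ t in (0 : ℝ)..T, (u x t * gg N c (u x t) - 2 * GG N c (u x t)) := by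
        refine intervalIntegral.integral_mono_on hT.le ?_ ?_ fun t _ => ?_
        · exact Continuous.intervalIntegrable (by fun_prop) _ _
        · exact Continuous.intervalIntegrable (by fun_prop) _ _
        · have := dd_qq hN hc (u x t)
          rw [(qq_abs hc (u x t)).2]
          linarith
      rw [intervalIntegral.integral_add, intervalIntegral.integral_const_mul,
        intervalIntegral.integral_const_mul] at i2
      rotate_left
      · exact Continuous.intervalIntegrable (by fun_prop) _ _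
      · exact Continuous.intervalIntegrable (by fun_prop) _ _
      rw [← hU4, ← hIq] at i2
      rw [s1, s5, s4']
      have b1' := (abs_le.1 b1).1
      have b2' := abs_le.1 b2
      have b3' := (abs_le.1 b3).1
      have b4' := abs_le.1 b4
      -- numerical facts
      have hρ : 4 / Real.pi ≤ 12739 / 10000 := by
        rw [div_le_div_iff₀ hpi (by norm_num)]
        linarith
      have hρ2 : 4 / Real.pi * Iq ≤ 12739 / 10000 * Iq := mul_le_mul_of_nonneg_right hρ hIq0
      have k1 : -(η * κ * (κ + 1) / 2 * I3 + η / 2 * Iw) ≤ η * B1 := by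
        have h1 := mul_le_mul_of_nonneg_left b1' hη.le
        have k3 : η * (κ * (1 / (2 * (κ + 1)) * Iw)) ≤ η / 2 * Iw := by
          have : κ * (1 / (2 * (κ + 1))) ≤ 1 / 2 := by
            rw [mul_one_div, div_le_div_iff₀ (by positivity) (by norm_num)]
            linarith
          have h2 := mul_le_mul_of_nonneg_right this (mul_nonneg hη.le hIw0)
          linarith
        have k5 : η * (κ * ((κ + 1) / 2 * I3)) = η * κ * (κ + 1) / 2 * I3 := by ring
        linarith
      have k2 : -(η * κ * Iq) ≤ η * B3 := by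
        have h1 := mul_le_mul_of_nonneg_left b3' hη.le
        linarith
      have k3 : η * (kc * Q) ≤ η * (2 * |kc|) * Iq := by
        have h1 : kc * Q ≤ |kc| * (12739 / 10000 * Iq) := by
          refine (le_abs_self _).trans ?_
          rw [abs_mul]
          exact mul_le_mul_of_nonneg_left (b4.trans hρ2) hkc0
        have h2 : |kc| * (12739 / 10000 * Iq) ≤ 2 * |kc| * Iq := by
          have : 0 ≤ |kc| * Iq := mul_nonneg hkc0 hIq0
          linarith
        have h3 := mul_le_mul_of_nonneg_left (h1.trans h2) hη.le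
        linarith
      have k4 : η * (κ + 2 * |kc|) * Iq ≤ 6 / 1000 * Iq := mul_le_mul_of_nonneg_right hηκ hIq0
      have k5 : 0 ≤ η / 2 * Iw + 1 / (2 * η) * I3 := by positivity
      have k6 : C3 * I3 = η * κ * (κ + 1) / 2 * I3 + 1 / (2 * η) * I3 := by rw [hC3]; ring
      have k7 : η * (B1 + (B3 - kc * Q)) = η * B1 + η * B3 - η * (kc * Q) := by ring
      have k8 : η * (κ + 2 * |kc|) * Iq = η * κ * Iq + η * (2 * |kc|) * Iq := by ring
      rw [k7]
      have k9 : (0 : ℝ) ≤ Iq := hIq0
      linarith [b2'.1, b2'.2, b4'.1, b4'.2]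
  · -- non resonant
    set κ := ∫ s in (0 : ℝ)..T, |KK T √c₁ 0 s| with hκd
    have hκ0 : 0 ≤ κ := intervalIntegral.integral_nonneg hT.le fun s _ => abs_nonneg _
    set η := 1 / (4 * (κ + 1)) with hηd
    have hη : 0 < η := by positivity
    have hηκ : η * κ ≤ 1 / 4 := by
      rw [hηd, one_div_mul_eq_div, div_le_iff₀ (by positivity)]
      linarith
    refine ⟨min η (γ / 2), by positivity, fun c hcc hcN hc hc2 u hu => ?_⟩
    rcases le_total 0 (c 2) with h2 | h2
    · exact hpos2 c hc h2 u hu
    set e := - c 2 with hed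
    have he0 : 0 ≤ e := by linarith
    have heε : e ≤ min η (γ / 2) := by linarith
    have he1 : e ≤ η := heε.trans (min_le_left _ _)
    have he2 : e ≤ γ / 2 := heε.trans (min_le_right _ _)
    subst hcc
    refine kernel_star (by omega) hu hT hc1 hs 0 hη.le (by rw [← hκd]; linarith)
      (hh := fun y => e * y ^ 3 + qq N c y) ?_ ?_ ?_ ?_
    · have := qq_cont N c
      fun_prop
    · intro a ha b hb hab
      have h1 := qq_mono hc ha hb hab
      have h3 : a ^ 3 ≤ b ^ 3 := pow_le_pow_left₀ ha hab 3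
      have h4 := mul_le_mul_of_nonneg_left h3 he0
      simp only
      linarith
    · intro x t
      rw [rr_qq hN]
      refine (abs_add_le _ _).trans ?_
      rw [(qq_abs hc (u x t)).1, abs_mul, abs_pow, abs_of_nonpos h2]
    · intro x t
      rw [← hκd]
      have h1 := dd_qq hN hc (u x t)
      have h3 := qq_ge hN hc (u x t)
      have h4 := (qq_abs hc (u x t)).2
      set y := u x t with hy
      set z := y ^ 2 with hz
      have hz0 : 0 ≤ z := sq_nonneg _
      have e1 : |y| * (e * |y| ^ 3 + qq N c |y|) = e * z ^ 2 + y * qq N c y := by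
        have : |y| ^ 4 = z ^ 2 := by
          have h5 : |y| ^ 2 = y ^ 2 := sq_abs y
          have : |y| ^ 4 = (|y| ^ 2) ^ 2 := by ring
          rw [this, h5]
        have h6 : |y| * (e * |y| ^ 3 + qq N c |y|) = e * |y| ^ 4 + |y| * qq N c |y| := by ring
        rw [h6, this, h4]
      have e2 : c 2 / 2 * y ^ 4 = -(e / 2 * z ^ 2) := by rw [hed, hz]; ring
      rw [e2] at h1
      rw [e1]
      have h5 : 0 ≤ y * qq N c y := by
        rw [← h4]
        exact mul_nonneg (abs_nonneg _) (qq_nonneg hc (abs_nonneg _))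
      have h6 : η * κ * (e * z ^ 2 + y * qq N c y) ≤ 1 / 4 * (e * z ^ 2 + y * qq N c y) :=
        mul_le_mul_of_nonneg_right hηκ (by positivity)
      have h7 : γ * z ^ N ≤ y * qq N c y :=
        (mul_le_mul_of_nonneg_right hcN (by positivity)).trans h3
      have h8 : 3 / 4 * (e * z ^ 2) ≤ η * z + 5 / 12 * (y * qq N c y) := by
        rcases le_total z 1 with hle | hle
        · have h9 : e * z ^ 2 ≤ η * z := by
            have : z ^ 2 ≤ z := by nlinarith
            calc e * z ^ 2 ≤ e * z := mul_le_mul_of_nonneg_left this he0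
              _ ≤ η * z := mul_le_mul_of_nonneg_right he1 hz0
          have : 0 ≤ e * z ^ 2 := by positivity
          linarith
        · have h9 : z ^ 2 ≤ z ^ N := pow_le_pow_right₀ hle (by omega)
          have h10 : e * z ^ 2 ≤ γ / 2 * z ^ N :=
            mul_le_mul he2 h9 (by positivity) (by positivity)
          have : 0 ≤ η * z := by positivity
          have h11 : 0 ≤ γ * z ^ N := by positivity
          linarith
      linarith

end IsBreather

end H53.Br
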