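import Mathlib
import Pool.Agent.H53.Br.Conv

open MeasureTheory Set Filter Topology

namespace H53.Br

/-- The function `H(y) = ∑_{j=1}^N c_j/(2j) y^j`, so that `G(v) = H(v^2)`. -/
noncomputable def HH (N : ℕ) (c : ℕ → ℝ) (y : ℝ) : ℝ :=
  ∑ j ∈ Finset.Icc 1 N, c j / (2 * j) * y ^ j

lemma GG_eq (N : ℕ) (c : ℕ → ℝ) (v : ℝ) : GG N c v = HH N c (v ^ 2) := by
  unfold GG HH
  refine Finset.sum_congr rfl fun j _ => ?_
  rw [pow_mul]

lemma star_of_mono {N : ℕ} {c : ℕ → ℝ} {v : ℝ}
    (hm : MonotoneOn (fun y => HH N c y / y) (Ioo 0 (v ^ 2))) : 2 * GG N c v ≤ v * gg N c v := by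
  -- positive case
  have key : ∀ r : ℝ, 0 < r → r ^ 2 = v ^ 2 → 2 * GG N c r ≤ r * gg N c r := by
    intro r hr hrv
    have hψ : MonotoneOn (fun s => GG N c s / s ^ 2) (Ioo 0 r) := by
      intro s hs s' hs' hss
      simp only [GG_eq]
      refine hm ⟨by have := hs.1; positivity, ?_⟩ ⟨by have := hs'.1; positivity, ?_⟩ ?_
      · rw [← hrv]
        exact pow_lt_pow_left₀ hs.2 hs.1.le two_ne_zero
      · rw [← hrv]
        exact pow_lt_pow_left₀ hs'.2 hs'.1.le two_ne_zero
      · exact pow_le_pow_left₀ hs.1.le hss 2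
    have hin : ∀ s ∈ Ioo 0 r, 2 * GG N c s ≤ s * gg N c s := by
      intro s hs
      have hs0 := hs.1
      have h1 := hψ.derivWithin_nonneg (x := s)
      rw [derivWithin_of_isOpen isOpen_Ioo hs] at h1
      have h2 : HasDerivAt (fun s => GG N c s / s ^ 2)
          ((gg N c s * s ^ 2 - GG N c s * (2 * s)) / (s ^ 2) ^ 2) s := by
        have h3 : HasDerivAt (fun s : ℝ => s ^ 2) (2 * s) s := by
          simpa using hasDerivAt_pow 2 s
        exact (hasDerivAt_GG N c s).fun_div h3 (by positivity)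
      rw [h2.deriv] at h1
      have h4 : 0 ≤ gg N c s * s ^ 2 - GG N c s * (2 * s) := by
        have h5 : 0 < (s ^ 2) ^ 2 := by positivity
        by_contra hc
        push Not at hc
        have := div_neg_of_neg_of_pos hc h5
        linarith
      have h6 : 0 ≤ s * (s * gg N c s - 2 * GG N c s) := by linarith
      have := nonneg_of_mul_nonneg_right h6 hs0
      linarith
    have hcl : IsClosed {s : ℝ | 2 * GG N c s ≤ s * gg N c s} :=
      isClosed_le ((continuous_const).mul (continuous_GG N c)) (continuous_id.mul (continuous_gg N c))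
    have hmem : r ∈ closure (Ioo 0 r) := by
      rw [closure_Ioo hr.ne]
      exact ⟨hr.le, le_rfl⟩
    exact (closure_minimal hin hcl) hmem
  rcases lt_trichotomy v 0 with h | h | h
  · have h1 := key (-v) (by linarith) (by ring)
    rw [gg_neg] at h1
    have h2 : GG N c (-v) = GG N c v := by rw [GG_eq, GG_eq]; congr 1; ring
    rw [h2] at h1
    linarith
  · rw [h, GG_zero, gg_zero]; simp
  · exact key v h rfl

end H53.Br
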